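import Pool.Agent.Lib.MP_25e40f_pr.G.SlabA

/-!
# MP_25e40f_pr, stream G, file SlabB: percolation in a slab of the abstract product graph (JOBS SlabBa, SlabBb)

Notation: `W = (Fin n → ℤ) × Fin L`, `G = Wg n (Fin L) (SimpleGraph.pathGraph L)`, `d = n + 1`.

JOB SlabBa: `slab_start`. By `noPerc_iff` there is `w : W` with `nu W {clu w infinite} > 0` (`0 < p'`, else by hypothesis).
`wg_conn`: there is a finite set `P` of edges such that for every `U` with `U e ≤ p'` for all `e ∈ P`: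
`Con G.nb univ p' U (0, 0) w` (`0 : Fin L` is `⟨0, hL⟩`). (`wg_conn` is proved by steps: it is enough that every two neighbours
are joined by one edge and that `w` is reached from `(0, 0)` by finitely many neighbour steps: change the coordinate in `Fin L`
step by step, then the integer coordinates; induction on `j` and on `∑ |x i|`.) Then `nu_path` with
`B = {U | (clu w).Infinite}` (monotone: `Con.mono`-type argument, hypothesis of `nu_path`), and on
`B ∩ {all e ∈ P ≤ p'}` the cluster of `(0, 0)` is infinite (it contains the cluster of `w`: `Con.trans`).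

JOB SlabBb: `slab_embed`. `ψ (x, j) k = y k + (Fin.insertNth i (σ * j) x : Fin (n + 1) → ℤ) k`. `ψ` is injective, its range is
`T = {z | σ * y i ≤ σ * z i ∧ σ * z i < σ * y i + L}` (`σ * σ = 1`), `ψ (0, 0) = y`, and
`b ∈ G.nb a ↔ ψ b ∈ nbZ (n + 1) (ψ a)`: (`mem_nbZ`; `Function.update` and `Fin.insertNth`; `SimpleGraph.pathGraph_adj`).
So for `U' = fun e => U (Sym2.map ψ e)`: `Con G.nb univ p' U' a b ↔ Con (nbZ (n + 1)) T p' U (ψ a) (ψ b)`, and
`clu (nbZ (n+1)) T p' U y = ψ '' clu G.nb univ p' U' (0, 0)`. `nu_map_inj` (and `meas_clu_inf`) gives the equality of the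
probabilities.

`slabP_of`: combine: for `σ * y i = n' * L` the slab `sl i σ L n'` is the set `T` of `slab_embed`.
-/

set_option autoImplicit false
set_option linter.unusedSectionVars false

noncomputable section

open MeasureTheory Filter
open scoped Classical

namespace IPC

private theorem slabBa_step {n L : ℕ} (hL : 0 < L) {a b : (Fin n → ℤ) × Fin L}
    (ha : ∃ P : Finset (Sym2 ((Fin n → ℤ) × Fin L)),
      ∀ (p' : ℝ) (U : Sym2 ((Fin n → ℤ) × Fin L) → ℝ), (∀ e ∈ P, U e ≤ p') →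
        Con (Wg n (Fin L) (SimpleGraph.pathGraph L)).nb Set.univ p' U (0, ⟨0, hL⟩) a)
    (hb : b ∈ (Wg n (Fin L) (SimpleGraph.pathGraph L)).nb a) :
    ∃ P : Finset (Sym2 ((Fin n → ℤ) × Fin L)),
      ∀ (p' : ℝ) (U : Sym2 ((Fin n → ℤ) × Fin L) → ℝ), (∀ e ∈ P, U e ≤ p') →
        Con (Wg n (Fin L) (SimpleGraph.pathGraph L)).nb Set.univ p' U (0, ⟨0, hL⟩) b := by
  obtain ⟨P, hP⟩ := ha
  refine ⟨insert s(a, b) P, fun p' U h => ?_⟩
  exact (hP p' U (fun e he => h e (Finset.mem_insert_of_mem he))).trans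
    ⟨Set.mem_univ _, Relation.ReflTransGen.single
      ⟨Set.mem_univ _, Set.mem_univ _, hb, h _ (Finset.mem_insert_self _ _)⟩⟩

private theorem slabBa_fin {n L : ℕ} (hL : 0 < L) (k : ℕ) : ∀ hk : k < L,
    ∃ P : Finset (Sym2 ((Fin n → ℤ) × Fin L)),
      ∀ (p' : ℝ) (U : Sym2 ((Fin n → ℤ) × Fin L) → ℝ), (∀ e ∈ P, U e ≤ p') →
        Con (Wg n (Fin L) (SimpleGraph.pathGraph L)).nb Set.univ p' U (0, ⟨0, hL⟩)
          ((0 : Fin n → ℤ), (⟨k, hk⟩ : Fin L)) := by
  induction k with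
  | zero =>
    intro hk
    exact ⟨∅, fun p' U _ => ⟨Set.mem_univ _, Relation.ReflTransGen.refl⟩⟩
  | succ k ih =>
    intro hk
    refine slabBa_step hL (ih (Nat.lt_of_succ_lt hk)) ?_
    refine Finset.mem_union_right _ (Finset.mem_image.2 ⟨⟨k + 1, hk⟩, ?_, rfl⟩)
    rw [Finset.mem_filter]
    refine ⟨Finset.mem_univ _, ?_⟩
    rw [SimpleGraph.pathGraph_adj]
    left
    rfl

private theorem slabBa_int {n L : ℕ} (hL : 0 < L) (j : Fin L) (N : ℕ) : ∀ x : Fin n → ℤ,
    ∑ i, (x i).natAbs = N →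
    ∃ P : Finset (Sym2 ((Fin n → ℤ) × Fin L)),
      ∀ (p' : ℝ) (U : Sym2 ((Fin n → ℤ) × Fin L) → ℝ), (∀ e ∈ P, U e ≤ p') →
        Con (Wg n (Fin L) (SimpleGraph.pathGraph L)).nb Set.univ p' U (0, ⟨0, hL⟩) (x, j) := by
  induction N with
  | zero =>
    intro x hx
    have h0 : x = 0 := by
      funext i
      have h1 := (Finset.sum_eq_zero_iff.1 hx) i (Finset.mem_univ i)
      exact Int.natAbs_eq_zero.1 h1
    subst h0
    exact slabBa_fin hL j.1 j.2
  | succ N ih =>
    intro x hx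
    obtain ⟨i, hi⟩ : ∃ i, x i ≠ 0 := by
      by_contra hcon
      have h1 : ∀ i, x i = 0 := fun i => by
        by_contra h2
        exact hcon ⟨i, h2⟩
      have h2 : ∑ i, (x i).natAbs = 0 := Finset.sum_eq_zero fun i _ => by rw [h1 i]; rfl
      omega
    obtain ⟨s, hs, hs1⟩ : ∃ s : ℤ, (s = 1 ∨ s = -1) ∧ (x i - s).natAbs + 1 = (x i).natAbs := by
      rcases lt_or_gt_of_ne hi with h | h
      · exact ⟨-1, Or.inr rfl, by omega⟩
      · exact ⟨1, Or.inl rfl, by omega⟩
    have hy : ∑ k, ((Function.update x i (x i - s)) k).natAbs = N := by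
      have h1 := Finset.add_sum_erase Finset.univ
        (fun k => ((Function.update x i (x i - s)) k).natAbs) (Finset.mem_univ i)
      have h2 := Finset.add_sum_erase Finset.univ (fun k => (x k).natAbs) (Finset.mem_univ i)
      have h3 : ∑ k ∈ Finset.univ.erase i, ((Function.update x i (x i - s)) k).natAbs =
          ∑ k ∈ Finset.univ.erase i, (x k).natAbs :=
        Finset.sum_congr rfl fun k hk => by
          rw [Function.update_of_ne (Finset.ne_of_mem_erase hk)]
      simp only [Function.update_self] at h1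
      omega
    refine slabBa_step hL (ih _ hy) ?_
    refine Finset.mem_union_left _ (Finset.mem_image.2 ⟨x, ?_, rfl⟩)
    rw [mem_nbZ]
    refine ⟨i, s, hs, ?_⟩
    change x = Function.update (Function.update x i (x i - s)) i
      ((Function.update x i (x i - s)) i + s)
    rw [Function.update_self, Function.update_idem, sub_add_cancel, Function.update_eq_self]

theorem wg_conn (n L : ℕ) (hL : 0 < L) (w : (Fin n → ℤ) × Fin L) :
    ∃ P : Finset (Sym2 ((Fin n → ℤ) × Fin L)), ∀ (p' : ℝ) (U : Sym2 ((Fin n → ℤ) × Fin L) → ℝ),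
      (∀ e ∈ P, U e ≤ p') →
        Con (Wg n (Fin L) (SimpleGraph.pathGraph L)).nb Set.univ p' U (0, ⟨0, hL⟩) w := by
  obtain ⟨x, j⟩ := w
  exact slabBa_int hL j _ x rfl

theorem slab_start {n L : ℕ} (hL : 0 < L) {p' : ℝ} (hp : 0 < p') (hp1 : p' ≤ 1)
    (h : ¬ (Wg n (Fin L) (SimpleGraph.pathGraph L)).NoPerc p') :
    0 < (nu ((Fin n → ℤ) × Fin L)).real
      {U | (clu (Wg n (Fin L) (SimpleGraph.pathGraph L)).nb Set.univ p' U (0, ⟨0, hL⟩)).Infinite} := by
  rw [noPerc_iff _ hp.le hp1] at h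
  obtain ⟨w, hw⟩ : ∃ w, nu ((Fin n → ℤ) × Fin L)
      {U | (clu (Wg n (Fin L) (SimpleGraph.pathGraph L)).nb Set.univ p' U w).Infinite} ≠ 0 := by
    by_contra hcon
    refine h fun x => ?_
    by_contra hx
    exact hcon ⟨x, hx⟩
  obtain ⟨P, hP⟩ := wg_conn n L hL w
  have h1 := nu_path hp.le hp1 P
    (meas_clu_inf (Wg n (Fin L) (SimpleGraph.pathGraph L)) Set.univ p' w) (by
      intro U U' hU hB
      refine Set.Infinite.mono ?_ hB
      intro y hy
      exact ⟨Set.mem_univ _, Relation.ReflTransGen.mono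
        (fun a b hab => ⟨hab.1, hab.2.1, hab.2.2.1, hU _ hab.2.2.2⟩) _ _ hy.2⟩)
  have h2 : nu ((Fin n → ℤ) × Fin L)
      ({U | (clu (Wg n (Fin L) (SimpleGraph.pathGraph L)).nb Set.univ p' U w).Infinite} ∩
        {U | ∀ e ∈ P, U e ≤ p'}) ≤ nu ((Fin n → ℤ) × Fin L)
      {U | (clu (Wg n (Fin L) (SimpleGraph.pathGraph L)).nb Set.univ p' U (0, ⟨0, hL⟩)).Infinite} := by
    refine measure_mono ?_
    rintro U ⟨hU1, hU2⟩
    refine Set.Infinite.mono ?_ hU1
    intro y hy
    exact (hP p' U hU2).trans hy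
  have h3 : 0 < ENNReal.ofReal p' ^ P.card * nu ((Fin n → ℤ) × Fin L)
      {U | (clu (Wg n (Fin L) (SimpleGraph.pathGraph L)).nb Set.univ p' U w).Infinite} := by
    refine ENNReal.mul_pos ?_ hw
    exact pow_ne_zero _ (ENNReal.ofReal_pos.2 hp).ne'
  exact ENNReal.toReal_pos (h3.trans_le (h1.trans h2)).ne' (measure_ne_top _ _)

theorem slabBb_mem_nbZ (d : ℕ) (x y : Fin d → ℤ) : y ∈ nbZ d x ↔
    ∃ i : Fin d, (y i = x i + 1 ∨ y i = x i - 1) ∧ ∀ k, k ≠ i → y k = x k := by
  rw [mem_nbZ]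
  constructor
  · rintro ⟨i, s, hs, rfl⟩
    refine ⟨i, ?_, fun k hk => Function.update_of_ne hk _ _⟩
    rw [Function.update_self]
    rcases hs with rfl | rfl
    · exact Or.inl rfl
    · exact Or.inr rfl
  · rintro ⟨i, hi, hk⟩
    rcases hi with hi | hi
    · refine ⟨i, 1, Or.inl rfl, ?_⟩
      funext k
      by_cases h : k = i
      · subst h
        rw [Function.update_self, hi]
      · rw [Function.update_of_ne h, hk k h]
    · refine ⟨i, -1, Or.inr rfl, ?_⟩
      funext k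
      by_cases h : k = i
      · subst h
        rw [Function.update_self, hi]
        rfl
      · rw [Function.update_of_ne h, hk k h]

def slabBb_psi {n L : ℕ} (i : Fin (n + 1)) (σ : ℤ) (y : Fin (n + 1) → ℤ)
    (w : (Fin n → ℤ) × Fin L) : Fin (n + 1) → ℤ :=
  fun k => y k + Fin.insertNth (α := fun _ => ℤ) i (σ * (w.2 : ℕ)) w.1 k

theorem slabBb_same {n L : ℕ} (i : Fin (n + 1)) (σ : ℤ) (y : Fin (n + 1) → ℤ)
    (w : (Fin n → ℤ) × Fin L) : slabBb_psi i σ y w i = y i + σ * (w.2 : ℕ) := by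
  unfold slabBb_psi
  rw [Fin.insertNth_apply_same]

theorem slabBb_above {n L : ℕ} (i : Fin (n + 1)) (σ : ℤ) (y : Fin (n + 1) → ℤ)
    (w : (Fin n → ℤ) × Fin L) (l : Fin n) :
    slabBb_psi i σ y w (i.succAbove l) = y (i.succAbove l) + w.1 l := by
  unfold slabBb_psi
  rw [Fin.insertNth_apply_succAbove]

theorem slabBb_mul {σ : ℤ} (hσ : σ = 1 ∨ σ = -1) : σ * σ = 1 := by
  rcases hσ with rfl | rfl <;> norm_num

theorem slabBb_inj {n L : ℕ} (i : Fin (n + 1)) {σ : ℤ} (hσ : σ = 1 ∨ σ = -1) (y : Fin (n + 1) → ℤ) :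
    Function.Injective (slabBb_psi (L := L) i σ y) := by
  rintro ⟨x, j⟩ ⟨x', j'⟩ h
  have h1 := congrFun h i
  rw [slabBb_same, slabBb_same] at h1
  have h2 : ((j : ℕ) : ℤ) = ((j' : ℕ) : ℤ) := by
    rcases hσ with rfl | rfl
    · simpa using h1
    · simpa using h1
  have h3 : j = j' := Fin.ext (by exact_mod_cast h2)
  have h4 : x = x' := by
    funext l
    have h5 := congrFun h (i.succAbove l)
    rw [slabBb_above, slabBb_above] at h5
    exact add_left_cancel h5
  rw [h3, h4]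

theorem slabBb_range {n L : ℕ} (i : Fin (n + 1)) {σ : ℤ} (hσ : σ = 1 ∨ σ = -1)
    (y z : Fin (n + 1) → ℤ) :
    (σ * y i ≤ σ * z i ∧ σ * z i < σ * y i + L) ↔ ∃ w, slabBb_psi (L := L) i σ y w = z := by
  constructor
  · rintro ⟨h1, h2⟩
    have h3 : 0 ≤ σ * z i - σ * y i := by linarith
    have h4 : (σ * z i - σ * y i).toNat < L := by omega
    refine ⟨(fun l => z (i.succAbove l) - y (i.succAbove l), ⟨(σ * z i - σ * y i).toNat, h4⟩), ?_⟩
    funext k
    rcases Fin.eq_self_or_eq_succAbove i k with h | ⟨l, h⟩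
    · rw [h, slabBb_same]
      show y i + σ * (((σ * z i - σ * y i).toNat : ℕ) : ℤ) = z i
      rw [Int.toNat_of_nonneg h3]
      linear_combination (z i - y i) * slabBb_mul hσ
    · rw [h, slabBb_above]
      show y (i.succAbove l) + (z (i.succAbove l) - y (i.succAbove l)) = z (i.succAbove l)
      ring
  · rintro ⟨w, rfl⟩
    rw [slabBb_same]
    have h1 : σ * (y i + σ * (w.2 : ℕ)) = σ * y i + (w.2 : ℕ) := by
      linear_combination ((w.2 : ℕ) : ℤ) * slabBb_mul hσ
    rw [h1]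
    have h2 : ((w.2 : ℕ) : ℤ) < L := by exact_mod_cast w.2.2
    have h3 : (0 : ℤ) ≤ ((w.2 : ℕ) : ℤ) := by positivity
    constructor <;> linarith

theorem slabBb_nb {n L : ℕ} (i : Fin (n + 1)) {σ : ℤ} (hσ : σ = 1 ∨ σ = -1)
    (y : Fin (n + 1) → ℤ) (a b : (Fin n → ℤ) × Fin L) :
    b ∈ (Wg n (Fin L) (SimpleGraph.pathGraph L)).nb a ↔
      slabBb_psi i σ y b ∈ nbZ (n + 1) (slabBb_psi i σ y a) := by
  obtain ⟨x, j⟩ := a
  obtain ⟨x', j'⟩ := b
  have h0 : (x', j') ∈ (Wg n (Fin L) (SimpleGraph.pathGraph L)).nb (x, j) ↔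
      (x' ∈ nbZ n x ∧ j = j') ∨ (x = x' ∧ (SimpleGraph.pathGraph L).Adj j j') := by
    unfold Wg
    simp only [Finset.mem_union, Finset.mem_image, Finset.mem_filter, Finset.mem_univ, true_and,
      Prod.mk.injEq]
    constructor
    · rintro (⟨z, hz, rfl, rfl⟩ | ⟨k, hk, rfl, rfl⟩)
      · exact Or.inl ⟨hz, rfl⟩
      · exact Or.inr ⟨rfl, hk⟩
    · rintro (⟨hz, rfl⟩ | ⟨rfl, hk⟩)
      · exact Or.inl ⟨x', hz, rfl, rfl⟩
      · exact Or.inr ⟨j', hk, rfl, rfl⟩
  rw [h0, slabBb_mem_nbZ, slabBb_mem_nbZ, SimpleGraph.pathGraph_adj]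
  constructor
  · rintro (⟨⟨l, hl, hk⟩, rfl⟩ | ⟨rfl, hj⟩)
    · refine ⟨i.succAbove l, ?_, fun k hk' => ?_⟩
      · rw [slabBb_above, slabBb_above]
        show y (i.succAbove l) + x' l = y (i.succAbove l) + x l + 1 ∨
          y (i.succAbove l) + x' l = y (i.succAbove l) + x l - 1
        rcases hl with hl | hl
        · left
          rw [hl]
          ring
        · right
          rw [hl]
          ring
      · rcases Fin.eq_self_or_eq_succAbove i k with h | ⟨l', h⟩
        · rw [h, slabBb_same, slabBb_same]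
        · rw [h, slabBb_above, slabBb_above]
          show y (i.succAbove l') + x' l' = y (i.succAbove l') + x l'
          rw [hk l']
          rintro rfl
          exact hk' h
    · refine ⟨i, ?_, fun k hk' => ?_⟩
      · rw [slabBb_same, slabBb_same]
        show y i + σ * ((j' : ℕ) : ℤ) = y i + σ * ((j : ℕ) : ℤ) + 1 ∨
          y i + σ * ((j' : ℕ) : ℤ) = y i + σ * ((j : ℕ) : ℤ) - 1
        rcases hσ with rfl | rfl
        · rcases hj with hj | hj
          · left
            rw [← hj]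
            push_cast
            ring
          · right
            rw [← hj]
            push_cast
            ring
        · rcases hj with hj | hj
          · right
            rw [← hj]
            push_cast
            ring
          · left
            rw [← hj]
            push_cast
            ring
      · rcases Fin.eq_self_or_eq_succAbove i k with h | ⟨l', h⟩
        · exact absurd h hk'
        · rw [h, slabBb_above, slabBb_above]
  · rintro ⟨k, hk, hk'⟩
    rcases Fin.eq_self_or_eq_succAbove i k with h | ⟨l, h⟩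
    · right
      subst h
      rw [slabBb_same, slabBb_same] at hk
      have hk2 : y k + σ * ((j' : ℕ) : ℤ) = y k + σ * ((j : ℕ) : ℤ) + 1 ∨
          y k + σ * ((j' : ℕ) : ℤ) = y k + σ * ((j : ℕ) : ℤ) - 1 := hk
      constructor
      · funext l
        have h1 := hk' (k.succAbove l) (Fin.succAbove_ne k l)
        rw [slabBb_above, slabBb_above] at h1
        exact (add_left_cancel h1).symm
      · rcases hσ with rfl | rfl
        · omega
        · omega
    · left
      have h1 := hk' i (by rw [h]; exact (Fin.succAbove_ne i l).symm)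
      rw [slabBb_same, slabBb_same] at h1
      have h2 : σ * ((j' : ℕ) : ℤ) = σ * ((j : ℕ) : ℤ) := add_left_cancel h1
      have h3 : j = j' := by
        apply Fin.ext
        rcases hσ with rfl | rfl
        · omega
        · omega
      refine ⟨⟨l, ?_, fun l' hl' => ?_⟩, h3⟩
      · rw [h, slabBb_above, slabBb_above] at hk
        have hk2 : y (i.succAbove l) + x' l = y (i.succAbove l) + x l + 1 ∨
          y (i.succAbove l) + x' l = y (i.succAbove l) + x l - 1 := hk
        omega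
      · have h4 := hk' (i.succAbove l') (by
          rw [h]
          intro h5
          exact hl' (Fin.succAbove_right_injective h5))
        rw [slabBb_above, slabBb_above] at h4
        exact add_left_cancel h4

private theorem slabBb_clu {n L : ℕ} (hL : 0 < L) (p' : ℝ) (i : Fin (n + 1)) (σ : ℤ) (hσ : σ = 1 ∨ σ = -1)
    (y : Fin (n + 1) → ℤ) (U : Sym2 (Fin (n + 1) → ℤ) → ℝ) :
    clu (nbZ (n + 1)) {z | σ * y i ≤ σ * z i ∧ σ * z i < σ * y i + L} p' U y =
      slabBb_psi i σ y '' clu (Wg n (Fin L) (SimpleGraph.pathGraph L)).nb Set.univ p'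
        (fun e => U (Sym2.map (slabBb_psi i σ y) e)) (0, ⟨0, hL⟩) := by
  have hy : slabBb_psi i σ y ((0 : Fin n → ℤ), (⟨0, hL⟩ : Fin L)) = y := by
    funext k
    rcases Fin.eq_self_or_eq_succAbove i k with h | ⟨l, h⟩
    · rw [h, slabBb_same]
      simp
    · rw [h, slabBb_above]
      simp
  ext z
  constructor
  · rintro ⟨-, h⟩
    induction h with
    | refl => exact ⟨(0, ⟨0, hL⟩), ⟨Set.mem_univ _, Relation.ReflTransGen.refl⟩, hy⟩
    | tail _ hbc ih =>
      obtain ⟨b, hb, hb2⟩ := ih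
      obtain ⟨-, h2, h3, h4⟩ := hbc
      obtain ⟨c, hc⟩ := (slabBb_range i hσ y _).1 h2
      refine ⟨c, ⟨Set.mem_univ _, hb.2.tail ⟨Set.mem_univ _, Set.mem_univ _, ?_, ?_⟩⟩, hc⟩
      · rw [slabBb_nb i hσ y, hb2, hc]
        exact h3
      · show U (Sym2.map (slabBb_psi i σ y) s(b, c)) ≤ p'
        rw [Sym2.map_mk, hb2, hc]
        exact h4
  · rintro ⟨w, ⟨-, h⟩, rfl⟩
    refine ⟨?_, ?_⟩
    · show σ * y i ≤ σ * y i ∧ σ * y i < σ * y i + L
      have : (0 : ℤ) < L := by exact_mod_cast hL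
      constructor <;> linarith
    · induction h with
      | refl => rw [hy]
      | tail _ hbc ih =>
        obtain ⟨-, -, h3, h4⟩ := hbc
        refine ih.tail ⟨(slabBb_range i hσ y _).2 ⟨_, rfl⟩, (slabBb_range i hσ y _).2 ⟨_, rfl⟩,
          (slabBb_nb i hσ y _ _).1 h3, ?_⟩
        exact h4

theorem slab_embed {n L : ℕ} (hL : 0 < L) (p' : ℝ) (i : Fin (n + 1)) (σ : ℤ) (hσ : σ = 1 ∨ σ = -1)
    (y : Fin (n + 1) → ℤ) :
    (nu (Fin (n + 1) → ℤ)).real {U | (clu (nbZ (n + 1))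
        {z | σ * y i ≤ σ * z i ∧ σ * z i < σ * y i + L} p' U y).Infinite} =
      (nu ((Fin n → ℤ) × Fin L)).real
        {U | (clu (Wg n (Fin L) (SimpleGraph.pathGraph L)).nb Set.univ p' U (0, ⟨0, hL⟩)).Infinite} := by
  have hinj := slabBb_inj (L := L) i hσ y
  have h1 : {U : Sym2 (Fin (n + 1) → ℤ) → ℝ | (clu (nbZ (n + 1))
        {z | σ * y i ≤ σ * z i ∧ σ * z i < σ * y i + L} p' U y).Infinite} =
      (fun (U : Sym2 (Fin (n + 1) → ℤ) → ℝ) (e : Sym2 ((Fin n → ℤ) × Fin L)) =>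
        U (Sym2.map (slabBb_psi i σ y) e)) ⁻¹'
        {U | (clu (Wg n (Fin L) (SimpleGraph.pathGraph L)).nb Set.univ p' U (0, ⟨0, hL⟩)).Infinite} := by
    ext U
    show (clu (nbZ (n + 1)) {z | σ * y i ≤ σ * z i ∧ σ * z i < σ * y i + L} p' U y).Infinite ↔
      (clu (Wg n (Fin L) (SimpleGraph.pathGraph L)).nb Set.univ p'
        (fun e => U (Sym2.map (slabBb_psi i σ y) e)) (0, ⟨0, hL⟩)).Infinite
    rw [slabBb_clu hL p' i σ hσ y U, Set.infinite_image_iff hinj.injOn]
  have hm : Measurable (fun (U : Sym2 (Fin (n + 1) → ℤ) → ℝ) (e : Sym2 ((Fin n → ℤ) × Fin L)) =>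
        U (Sym2.map (slabBb_psi i σ y) e)) := measurable_pi_lambda _ fun e => measurable_pi_apply _
  have h2 := nu_map_inj (slabBb_psi (L := L) i σ y) hinj
  rw [h1, measureReal_def, measureReal_def, ← h2, Measure.map_apply hm (meas_clu_inf _ _ _ _)]

theorem slabP_of {n L : ℕ} (hL : 0 < L) {p' : ℝ} (hp : 0 < p') (hp1 : p' ≤ 1)
    (h : ¬ (Wg n (Fin L) (SimpleGraph.pathGraph L)).NoPerc p') :
    ∃ θ : ℝ, 0 < θ ∧ θ ≤ 1 ∧ SlabP (n + 1) p' L θ := by
  refine ⟨_, slab_start hL hp hp1 h, measureReal_le_one, ?_⟩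
  intro i σ hσ m y hy
  rw [← slab_embed hL p' i σ hσ y]
  have h1 : {z : Fin (n + 1) → ℤ | σ * y i ≤ σ * z i ∧ σ * z i < σ * y i + L} = sl i σ L m := by
    ext z
    unfold sl
    simp only [Set.mem_setOf_eq]
    rw [hy, add_mul, one_mul]
  rw [h1]

end IPC
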