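import Mathlib

/-!
# MP_25e40f_pr, stream G, file IncExc: inclusion and exclusion for the traces on a finite set (JOB IncExc)

* `trace_incl_excl`. For every `ω` with `ω ∈ E0`: `1{∀ z ∈ K, (z ∈ F' ↔ ω ∈ E z)} =
  ∏_{z ∈ F'} 1{ω ∈ E z} ∏_{z ∈ K \ F'} (1 - 1{ω ∈ E z})`, expand the second product (`Finset.prod_one_sub` or
  `Finset.prod_add`: sum over `T ∈ (K \ F').powerset` of `(-1) ^ T.card ∏_{z ∈ T} 1{ω ∈ E z}`) and integrate
  (`integral_finset_sum`, indicators of measurable sets, `integral_indicator_one`, `measureReal`).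
  (Alternative: induction on `(K \ F').card`: for `z₀ ∈ K \ F'`:
  `P(trace on K is F') = P(trace on K.erase z₀ is F') - P(trace on K is insert z₀ F')`.)
* `family_tendsto`. For a family `𝓕` of subsets of `K`: the event `{trace ∈ 𝓕}` is the disjoint union over
  `F' ∈ K.powerset.filter (· ∈ 𝓕)` of the events `{trace = F'}`; each of these has `μ / f → ∑_T (-1)^|T| ι (insert 0 (F' ∪ T))`
  by `trace_incl_excl` with `E0 = {0 ∈ X}`: `E0 ∩ {∀ z ∈ F' ∪ T, ..} = {∀ z ∈ insert 0 (F' ∪ T), ..}`.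
  The limit is the number in the statement.
-/

set_option autoImplicit false
set_option linter.unusedSectionVars false

noncomputable section

open MeasureTheory Filter
open scoped Classical

namespace IPC

theorem incexc_aux {Ω V : Type} [MeasurableSpace Ω] [DecidableEq V] (μ : Measure Ω)
    [IsProbabilityMeasure μ] (E : V → Set Ω) (hE : ∀ z, MeasurableSet (E z)) (D : Finset V) :
    ∀ B : Set Ω, μ.real (B ∩ {ω | ∀ z ∈ D, ω ∉ E z}) =
      ∑ T ∈ D.powerset, (-1 : ℝ) ^ T.card * μ.real (B ∩ {ω | ∀ z ∈ T, ω ∈ E z}) := by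
  induction D using Finset.induction_on with
  | empty =>
    intro B
    rw [Finset.powerset_empty, Finset.sum_singleton, Finset.card_empty, pow_zero, one_mul]
    congr 1
    ext ω
    simp
  | insert a D ha ih =>
    intro B
    rw [Finset.sum_powerset_insert ha, ← ih B]
    have h1 : ∑ T ∈ D.powerset, (-1 : ℝ) ^ (insert a T).card *
        μ.real (B ∩ {ω | ∀ z ∈ insert a T, ω ∈ E z}) =
        - μ.real (B ∩ E a ∩ {ω | ∀ z ∈ D, ω ∉ E z}) := by
      rw [ih (B ∩ E a), ← Finset.sum_neg_distrib]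
      refine Finset.sum_congr rfl fun T hT => ?_
      have haT : a ∉ T := fun h => ha (Finset.mem_powerset.1 hT h)
      have e : B ∩ {ω | ∀ z ∈ insert a T, ω ∈ E z} = B ∩ E a ∩ {ω | ∀ z ∈ T, ω ∈ E z} := by
        ext ω
        simp only [Set.mem_inter_iff, Set.mem_setOf_eq, Finset.forall_mem_insert]
        tauto
      rw [e, Finset.card_insert_of_notMem haT, pow_succ]
      ring
    rw [h1]
    have h2 := measureReal_inter_add_sdiff (μ := μ) (s := B ∩ {ω | ∀ z ∈ D, ω ∉ E z}) (hE a)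
    have e1 : B ∩ {ω | ∀ z ∈ D, ω ∉ E z} ∩ E a = B ∩ E a ∩ {ω | ∀ z ∈ D, ω ∉ E z} := by
      ext ω
      simp only [Set.mem_inter_iff, Set.mem_setOf_eq]
      tauto
    have e2 : (B ∩ {ω | ∀ z ∈ D, ω ∉ E z}) \ E a = B ∩ {ω | ∀ z ∈ insert a D, ω ∉ E z} := by
      ext ω
      simp only [Set.mem_inter_iff, Set.mem_diff, Set.mem_setOf_eq, Finset.forall_mem_insert]
      tauto
    rw [e1, e2] at h2
    linarith

theorem incexc_meas {Ω V : Type} [MeasurableSpace Ω] [DecidableEq V] (E : V → Set Ω)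
    (hE : ∀ z, MeasurableSet (E z)) (K F' : Finset V) :
    MeasurableSet {ω | ∀ z ∈ K, (z ∈ F' ↔ ω ∈ E z)} := by
  have e : {ω | ∀ z ∈ K, (z ∈ F' ↔ ω ∈ E z)} = ⋂ z ∈ K, {ω | z ∈ F' ↔ ω ∈ E z} := by
    ext ω
    simp only [Set.mem_setOf_eq, Set.mem_iInter]
  rw [e]
  refine Finset.measurableSet_biInter K fun z _ => ?_
  by_cases hz : z ∈ F'
  · have e2 : {ω | z ∈ F' ↔ ω ∈ E z} = E z := by
      ext ω
      simp only [Set.mem_setOf_eq, hz, true_iff]
    rw [e2]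
    exact hE z
  · have e2 : {ω | z ∈ F' ↔ ω ∈ E z} = (E z)ᶜ := by
      ext ω
      simp only [Set.mem_setOf_eq, hz, false_iff, Set.mem_compl_iff]
    rw [e2]
    exact (hE z).compl

theorem trace_incl_excl {Ω V : Type} [MeasurableSpace Ω] [DecidableEq V] (μ : Measure Ω)
    [IsProbabilityMeasure μ] (E0 : Set Ω) (E : V → Set Ω) (h0 : MeasurableSet E0)
    (hE : ∀ z, MeasurableSet (E z)) (K F' : Finset V) (hF' : F' ⊆ K) :
    μ.real (E0 ∩ {ω | ∀ z ∈ K, (z ∈ F' ↔ ω ∈ E z)}) =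
      ∑ T ∈ (K \ F').powerset, (-1 : ℝ) ^ T.card * μ.real (E0 ∩ {ω | ∀ z ∈ F' ∪ T, ω ∈ E z}) := by
  have e : E0 ∩ {ω | ∀ z ∈ K, (z ∈ F' ↔ ω ∈ E z)} =
      E0 ∩ {ω | ∀ z ∈ F', ω ∈ E z} ∩ {ω | ∀ z ∈ K \ F', ω ∉ E z} := by
    ext ω
    simp only [Set.mem_inter_iff, Set.mem_setOf_eq, Finset.mem_sdiff]
    constructor
    · rintro ⟨h1, h2⟩
      exact ⟨⟨h1, fun z hz => (h2 z (hF' hz)).1 hz⟩, fun z hz h => hz.2 ((h2 z hz.1).2 h)⟩
    · rintro ⟨⟨h1, h2⟩, h3⟩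
      refine ⟨h1, fun z hz => ⟨fun h => h2 z h, fun h => ?_⟩⟩
      by_contra hz'
      exact h3 z ⟨hz, hz'⟩ h
  rw [e, incexc_aux μ E hE]
  refine Finset.sum_congr rfl fun T _ => ?_
  have e2 : E0 ∩ {ω | ∀ z ∈ F', ω ∈ E z} ∩ {ω | ∀ z ∈ T, ω ∈ E z} =
      E0 ∩ {ω | ∀ z ∈ F' ∪ T, ω ∈ E z} := by
    ext ω
    simp only [Set.mem_inter_iff, Set.mem_setOf_eq, Finset.mem_union]
    constructor
    · rintro ⟨⟨h1, h2⟩, h3⟩
      exact ⟨h1, fun z hz => hz.elim (h2 z) (h3 z)⟩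
    · rintro ⟨h1, h2⟩
      exact ⟨⟨h1, fun z hz => h2 z (Or.inl hz)⟩, fun z hz => h2 z (Or.inr hz)⟩
  rw [e2]

/-- the limit of the conditional probabilities of a family of traces -/
def famLim {V : Type} [DecidableEq V] [Zero V] (ι : Finset V → ℝ) (K : Finset V)
    (𝓕 : Set (Finset V)) : ℝ :=
  ∑ F' ∈ K.powerset.filter (fun F' => F' ∈ 𝓕), ∑ T ∈ (K \ F').powerset,
    (-1 : ℝ) ^ T.card * ι (insert 0 (F' ∪ T))

theorem family_tendsto {Ω V X : Type} [MeasurableSpace Ω] [DecidableEq V] [Zero V] (μ : Measure Ω)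
    [IsProbabilityMeasure μ] (l : Filter X) (E : X → V → Set Ω) (hE : ∀ x z, MeasurableSet (E x z))
    (f : X → ℝ) (ι : Finset V → ℝ)
    (h : ∀ F : Finset V, (0 : V) ∈ F →
      Tendsto (fun x => μ.real {ω | ∀ z ∈ F, ω ∈ E x z} / f x) l (nhds (ι F)))
    (K : Finset V) (𝓕 : Set (Finset V)) :
    Tendsto (fun x => μ.real {ω | ω ∈ E x 0 ∧ (K.filter fun z => ω ∈ E x z) ∈ 𝓕} / f x) l
      (nhds (famLim ι K 𝓕)) := by
  have key : ∀ x, μ.real {ω | ω ∈ E x 0 ∧ (K.filter fun z => ω ∈ E x z) ∈ 𝓕} =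
      ∑ F' ∈ K.powerset.filter (fun F' => F' ∈ 𝓕), ∑ T ∈ (K \ F').powerset,
        (-1 : ℝ) ^ T.card * μ.real {ω | ∀ z ∈ insert 0 (F' ∪ T), ω ∈ E x z} := by
    intro x
    have e : {ω | ω ∈ E x 0 ∧ (K.filter fun z => ω ∈ E x z) ∈ 𝓕} =
        ⋃ F' ∈ K.powerset.filter (fun F' => F' ∈ 𝓕),
          (E x 0 ∩ {ω | ∀ z ∈ K, (z ∈ F' ↔ ω ∈ E x z)}) := by
      ext ω
      simp only [Set.mem_setOf_eq, Set.mem_iUnion, Finset.mem_filter, Finset.mem_powerset,
        Set.mem_inter_iff, exists_prop]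
      constructor
      · rintro ⟨h1, h2⟩
        refine ⟨K.filter fun z => ω ∈ E x z, ⟨Finset.filter_subset _ _, h2⟩, h1, fun z hz => ?_⟩
        rw [Finset.mem_filter]
        exact ⟨fun h => h.2, fun h => ⟨hz, h⟩⟩
      · rintro ⟨F', ⟨h1, h2⟩, h3, h4⟩
        refine ⟨h3, ?_⟩
        have e : (K.filter fun z => ω ∈ E x z) = F' := by
          ext z
          rw [Finset.mem_filter]
          exact ⟨fun h => (h4 z h.1).2 h.2, fun h => ⟨h1 h, (h4 z (h1 h)).1 h⟩⟩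
        rw [e]
        exact h2
    rw [e, measureReal_biUnion_finset]
    · refine Finset.sum_congr rfl fun F' hF' => ?_
      rw [Finset.mem_filter, Finset.mem_powerset] at hF'
      rw [trace_incl_excl μ (E x 0) (E x) (hE x 0) (hE x) K F' hF'.1]
      refine Finset.sum_congr rfl fun T _ => ?_
      have e2 : E x 0 ∩ {ω | ∀ z ∈ F' ∪ T, ω ∈ E x z} =
          {ω | ∀ z ∈ insert 0 (F' ∪ T), ω ∈ E x z} := by
        ext ω
        simp only [Set.mem_inter_iff, Set.mem_setOf_eq, Finset.forall_mem_insert]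
      rw [e2]
    · intro F1 h1 F2 h2 hne
      rw [Function.onFun, Set.disjoint_left]
      rintro ω ⟨_, h3⟩ ⟨_, h4⟩
      apply hne
      have h1' := (Finset.mem_powerset.1 (Finset.mem_filter.1 h1).1)
      have h2' := (Finset.mem_powerset.1 (Finset.mem_filter.1 h2).1)
      ext z
      exact ⟨fun h => (h4 z (h1' h)).2 ((h3 z (h1' h)).1 h),
        fun h => (h3 z (h2' h)).2 ((h4 z (h2' h)).1 h)⟩
    · intro F' _
      exact (hE x 0).inter (incexc_meas (E x) (hE x) K F')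
  have key2 : (fun x => μ.real {ω | ω ∈ E x 0 ∧ (K.filter fun z => ω ∈ E x z) ∈ 𝓕} / f x) =
      fun x => ∑ F' ∈ K.powerset.filter (fun F' => F' ∈ 𝓕), ∑ T ∈ (K \ F').powerset,
        (-1 : ℝ) ^ T.card * (μ.real {ω | ∀ z ∈ insert 0 (F' ∪ T), ω ∈ E x z} / f x) := by
    funext x
    rw [key x, Finset.sum_div]
    refine Finset.sum_congr rfl fun F' _ => ?_
    rw [Finset.sum_div]
    refine Finset.sum_congr rfl fun T _ => ?_
    rw [mul_div_assoc]
  rw [key2]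
  unfold famLim
  refine tendsto_finset_sum _ fun F' _ => tendsto_finset_sum _ fun T _ => ?_
  exact (h _ (Finset.mem_insert_self _ _)).const_mul _

end IPC
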