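import Pool.Agent.Lib.MP_25e40f_pr.G.EndA
import Pool.Agent.Lib.MP_25e40f_pr.G.SlabB
import Pool.Agent.Lib.MP_25e40f_pr.G.IncExc

/-!
# MP_25e40f_pr, stream G, file EndB: the theorem from the inputs of the other streams (JOBS EndBa, EndBb, EndBc)

JOB EndBa: `ipc_lim`. For a.e. `U` (`nu_inj`, `hfin`): `Same (tr x F) ⊆ {∀ z ∈ F, x + z ∈ ipc}` (`piece0_mem`, `piece_mem`), and
`{∀ z ∈ F, x + z ∈ ipc} \ Same (tr x F)` is contained in the union over `z ∈ F` of
`{Sep x (x + z), x + z ∈ ipc}` and `{Sep (x + z) x, x ∈ ipc}`: if all these fail, `same_piece` for `x` and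
`x + z` and the uniqueness `piece_unique`, `piece_excl` of the piece of `x` show that all `x + z` are in the piece of `x`
(`0 ∈ F`, `x + 0 = x`). So the difference of the probabilities divided by `f x` tends to `0`
(`sep_small`, `sep_small'`), and `same_lim`.

JOB EndBb: `iic_lim`. `rob_inf` with `S = ∅`, `v = 0`: `|ν{∀ z ∈ tr x F, Con univ 0 z} - ι ν{Con univ 0 x}| ≤ ε ν{Con univ 0 x}`
for `0 ∉ bx x ρ`. The reflection/translation: the event in the statement is `∀ z ∈ F, Con univ z x'` with center `0`: by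
translation invariance (`nu_map_inj` with `φ v = v - x'`...) `ν{∀ z ∈ F, Con univ z x'} = ν{∀ z ∈ F, Con univ (z - x') 0}`
`= ν{∀ w ∈ tr (-x') F, Con univ 0 w}` (`Con.symm`), i.e. `x = -x'`. So `Tendsto` along cofinite (`x' ↦ -x'` preserves cofinite).
The denominator is `> 0` (`hpos`; it is `tau p 0 x` by `tau_eq`).

JOB EndBc: `pc_eq`: `noPerc_iff` and translation invariance (`nu_map_inj`): `NoPerc p` iff
`ν {(clu (nbZ d) univ p U 0).Infinite} = 0`; so the two sets of which the suprema are taken coincide.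
-/

set_option autoImplicit false
set_option linter.unusedSectionVars false

noncomputable section

open MeasureTheory Filter
open scoped Classical

namespace IPC

variable {d : ℕ}

private theorem endba_same_sub {p : ℝ} {U : Sym2 (Fin d → ℤ) → ℝ} (hfin : Fin1 (nbZ d) p U)
    {F : Finset (Fin d → ℤ)} {x : Fin d → ℤ} (h : Same (nbZ d) 0 p U (tr x F)) :
    ∀ z ∈ F, x + z ∈ ipc (nbZ d) 0 U := by
  intro z hz
  have hm : x + z ∈ tr x F := Finset.mem_image.2 ⟨z, hz, rfl⟩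
  rcases h with h | ⟨S, q, hg, h⟩
  · exact piece0_mem hfin (h _ hm)
  · exact piece_mem hfin hg (h _ hm)

private theorem endba_sub_same {p : ℝ} {U : Sym2 (Fin d → ℤ) → ℝ} (hU : Function.Injective U)
    (hfin : Fin1 (nbZ d) p U) {F : Finset (Fin d → ℤ)} (h0 : (0 : Fin d → ℤ) ∈ F) {x : Fin d → ℤ}
    (h : ∀ z ∈ F, x + z ∈ ipc (nbZ d) 0 U)
    (h1 : ∀ z ∈ F, ¬ (Sep (nbZ d) 0 p U x (x + z) ∧ x + z ∈ ipc (nbZ d) 0 U))
    (h2 : ∀ z ∈ F, ¬ (Sep (nbZ d) 0 p U (x + z) x ∧ x ∈ ipc (nbZ d) 0 U)) :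
    Same (nbZ d) 0 p U (tr x F) := by
  have hx : x ∈ ipc (nbZ d) 0 U := by
    have h3 := h 0 h0
    rwa [add_zero] at h3
  have key : ∀ z ∈ F, (Con (nbZ d) Set.univ p U 0 x ∧ Con (nbZ d) Set.univ p U 0 (x + z)) ∨
      ∃ S q, Gate (nbZ d) 0 p U S q ∧ Con (nbZ d) (S : Set (Fin d → ℤ))ᶜ p U q.2 x ∧
        Con (nbZ d) (S : Set (Fin d → ℤ))ᶜ p U q.2 (x + z) := fun z hz =>
    same_piece hU hfin hx (fun h3 => h1 z hz ⟨h3, h z hz⟩) (fun h3 => h2 z hz ⟨h3, hx⟩)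
  by_cases hc : Con (nbZ d) Set.univ p U 0 x
  · left
    intro z' hz'
    obtain ⟨z, hz, rfl⟩ := Finset.mem_image.1 hz'
    rcases key z hz with h3 | ⟨S, q, hg, h3, _⟩
    · exact h3.2
    · exact absurd hc (piece_excl hg h3)
  · right
    rcases key 0 h0 with h3 | ⟨S, q, hg, h3, _⟩
    · exact absurd h3.1 hc
    · refine ⟨S, q, hg, ?_⟩
      intro z' hz'
      obtain ⟨z, hz, rfl⟩ := Finset.mem_image.1 hz'
      rcases key z hz with h4 | ⟨S', q', hg', h4, h5⟩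
      · exact absurd h4.1 hc
      · obtain ⟨e1, e2⟩ := piece_unique hU hg h3 hg' h4
        subst e1
        subst e2
        exact h5

private theorem endba_real_mono {A B : Set (Sym2 (Fin d → ℤ) → ℝ)}
    (h : ∀ᵐ U ∂(nu (Fin d → ℤ)), U ∈ A → U ∈ B) :
    (nu (Fin d → ℤ)).real A ≤ (nu (Fin d → ℤ)).real B :=
  ENNReal.toReal_mono (measure_ne_top _ _) (measure_mono_ae h)

theorem ipc_lim {p : ℝ} (hd : 1 ≤ d) (hp : 0 < p) (hp1 : p < 1)
    (hfin : ∀ᵐ U ∂(nu (Fin d → ℤ)), Fin1 (nbZ d) p U)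
    (hslab : ∀ p', p < p' → p' ≤ 1 → ∃ (L : ℕ) (θ : ℝ), 1 ≤ L ∧ 0 < θ ∧ θ ≤ 1 ∧ SlabP d p' L θ)
    {c : ℝ} (hc : 0 < c) (β : ℕ) (hlow : ∀ x : Fin d → ℤ, c ≤ fI (Zg d) 0 x * (1 + ‖x‖) ^ β)
    {F : Finset (Fin d → ℤ)} (h0 : (0 : Fin d → ℤ) ∈ F) {ι : ℝ} (hι : Rob d p F ι) :
    Tendsto (fun x => (nu (Fin d → ℤ)).real {U | ∀ z ∈ F, x + z ∈ ipc (nbZ d) 0 U} /
      (nu (Fin d → ℤ)).real {U | x ∈ ipc (nbZ d) 0 U}) cofinite (nhds ι) := by
  have hpos : ∀ x, 0 < fI (Zg d) 0 x := by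
    intro x
    by_contra hx
    have h1 := hlow x
    have h2 : fI (Zg d) 0 x * (1 + ‖x‖) ^ β ≤ 0 :=
      mul_nonpos_of_nonpos_of_nonneg (not_lt.1 hx) (by positivity)
    linarith
  have hs1 := fun z : Fin d → ℤ => sep_small hd hp hp1 hfin hslab hc β hlow z
  have hs2 := fun z : Fin d → ℤ => sep_small' hd hp hp1 hfin hslab hc β hlow z
  have hM := same_lim hp.le hp1.le hpos hd hfin h0 hι hs2
  have hE : Tendsto (fun x : Fin d → ℤ => ∑ z ∈ F,
      ((nu (Fin d → ℤ)).real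
        {U | Sep (nbZ d) 0 p U x (x + z) ∧ x + z ∈ ipc (nbZ d) 0 U} / fI (Zg d) 0 x +
      (nu (Fin d → ℤ)).real
        {U | Sep (nbZ d) 0 p U (x + z) x ∧ x ∈ ipc (nbZ d) 0 U} / fI (Zg d) 0 x)) cofinite
      (nhds 0) := by
    have h1 := tendsto_finsetSum F fun z _ => (hs1 z).add (hs2 z)
    simpa using h1
  have hup := hM.add hE
  rw [add_zero] at hup
  refine tendsto_of_tendsto_of_tendsto_of_le_of_le hM hup (fun x => ?_) (fun x => ?_)
  · refine div_le_div_of_nonneg_right ?_ (hpos x).le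
    refine endba_real_mono ?_
    filter_upwards [hfin] with U hU h
    exact endba_same_sub hU h
  · have hle : (nu (Fin d → ℤ)).real {U | ∀ z ∈ F, x + z ∈ ipc (nbZ d) 0 U} ≤
        (nu (Fin d → ℤ)).real {U | Same (nbZ d) 0 p U (tr x F)} + ∑ z ∈ F,
          ((nu (Fin d → ℤ)).real {U | Sep (nbZ d) 0 p U x (x + z) ∧ x + z ∈ ipc (nbZ d) 0 U} +
          (nu (Fin d → ℤ)).real {U | Sep (nbZ d) 0 p U (x + z) x ∧ x ∈ ipc (nbZ d) 0 U}) := by
      have h1 : (nu (Fin d → ℤ)).real {U | ∀ z ∈ F, x + z ∈ ipc (nbZ d) 0 U} ≤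
          (nu (Fin d → ℤ)).real ({U | Same (nbZ d) 0 p U (tr x F)} ∪ ⋃ z ∈ F,
            ({U | Sep (nbZ d) 0 p U x (x + z) ∧ x + z ∈ ipc (nbZ d) 0 U} ∪
            {U | Sep (nbZ d) 0 p U (x + z) x ∧ x ∈ ipc (nbZ d) 0 U})) := by
        refine endba_real_mono ?_
        filter_upwards [nu_inj (V := Fin d → ℤ), hfin] with U hU1 hU2 h
        by_cases hex : ∃ z ∈ F, (Sep (nbZ d) 0 p U x (x + z) ∧ x + z ∈ ipc (nbZ d) 0 U) ∨
            (Sep (nbZ d) 0 p U (x + z) x ∧ x ∈ ipc (nbZ d) 0 U)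
        · right
          obtain ⟨z, hz, h2⟩ := hex
          exact Set.mem_iUnion₂.2 ⟨z, hz, h2⟩
        · left
          push Not at hex
          refine endba_sub_same hU1 hU2 h0 h (fun z hz h3 => ?_) (fun z hz h3 => ?_)
          · exact (hex z hz).1 h3.1 h3.2
          · exact (hex z hz).2 h3.1 h3.2
      refine h1.trans ((measureReal_union_le _ _).trans (add_le_add le_rfl ?_))
      refine (measureReal_biUnion_finset_le F _).trans (Finset.sum_le_sum fun z _ => ?_)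
      exact measureReal_union_le _ _
    have h2 : (nu (Fin d → ℤ)).real {U | ∀ z ∈ F, x + z ∈ ipc (nbZ d) 0 U} / fI (Zg d) 0 x ≤
        ((nu (Fin d → ℤ)).real {U | Same (nbZ d) 0 p U (tr x F)} + ∑ z ∈ F,
          ((nu (Fin d → ℤ)).real {U | Sep (nbZ d) 0 p U x (x + z) ∧ x + z ∈ ipc (nbZ d) 0 U} +
          (nu (Fin d → ℤ)).real {U | Sep (nbZ d) 0 p U (x + z) x ∧ x ∈ ipc (nbZ d) 0 U})) /
          fI (Zg d) 0 x := div_le_div_of_nonneg_right hle (hpos x).le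
    refine h2.trans (le_of_eq ?_)
    rw [add_div, Finset.sum_div]
    exact congrArg _ (Finset.sum_congr rfl fun z _ => add_div _ _ _)

private theorem endbb_nb (x y v : Fin d → ℤ) (h : y ∈ nbZ d x) : y + v ∈ nbZ d (x + v) := by
  rw [mem_nbZ] at h ⊢
  obtain ⟨i, s, hs, rfl⟩ := h
  refine ⟨i, s, hs, ?_⟩
  funext j
  by_cases hj : j = i
  · subst hj
    rw [Pi.add_apply, Function.update_self, Function.update_self, Pi.add_apply]
    ring
  · rw [Pi.add_apply, Function.update_of_ne hj, Function.update_of_ne hj, Pi.add_apply]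

private theorem endbb_con {p : ℝ} (v : Fin d → ℤ) (U : Sym2 (Fin d → ℤ) → ℝ) (a b : Fin d → ℤ) :
    Con (nbZ d) Set.univ p (fun e => U (Sym2.map (fun w => w + v) e)) a b ↔
      Con (nbZ d) Set.univ p U (a + v) (b + v) := by
  constructor
  · rintro ⟨-, h⟩
    refine ⟨trivial, ?_⟩
    refine Relation.ReflTransGen.lift (fun w => w + v) ?_ _ _ h
    rintro c e ⟨-, -, h1, h2⟩
    exact ⟨trivial, trivial, endbb_nb c e v h1, h2⟩
  · rintro ⟨-, h⟩
    refine ⟨trivial, ?_⟩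
    have h3 := Relation.ReflTransGen.lift (r := fun a b => a ∈ (Set.univ : Set (Fin d → ℤ)) ∧ b ∈ Set.univ ∧
      b ∈ nbZ d a ∧ U s(a, b) ≤ p) (p := fun a b => a ∈ (Set.univ : Set (Fin d → ℤ)) ∧ b ∈ Set.univ ∧
      b ∈ nbZ d a ∧ (fun e => U (Sym2.map (fun w => w + v) e)) s(a, b) ≤ p) (fun w => w - v) ?_ _ _ h
    · unfold Function.onFun at h3
      beta_reduce at h3
      rw [add_sub_cancel_right, add_sub_cancel_right] at h3
      exact h3
    · rintro c e ⟨-, -, h1, h2⟩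
      refine ⟨trivial, trivial, ?_, ?_⟩
      · have h4 := endbb_nb c e (-v) h1
        rw [← sub_eq_add_neg, ← sub_eq_add_neg] at h4
        exact h4
      · show U (Sym2.map (fun w => w + v) s(c - v, e - v)) ≤ p
        rw [Sym2.map_mk]
        simp only [sub_add_cancel]
        exact h2

private theorem endbb_meas (p : ℝ) (F : Finset (Fin d → ℤ)) :
    MeasurableSet {U : Sym2 (Fin d → ℤ) → ℝ | ∀ z ∈ F, Con (nbZ d) Set.univ p U 0 z} := by
  have h1 : {U : Sym2 (Fin d → ℤ) → ℝ | ∀ z ∈ F, Con (nbZ d) Set.univ p U 0 z} =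
      ⋂ z ∈ F, {U | Con (nbZ d) Set.univ p U 0 z} := by
    ext U
    simp only [Set.mem_ofPred_eq, Set.mem_iInter]
  rw [h1]
  exact Finset.measurableSet_biInter F fun z _ => meas_con (Zg d) Set.univ p 0 z

private theorem endbb_tr (p : ℝ) (F : Finset (Fin d → ℤ)) (x : Fin d → ℤ) :
    (nu (Fin d → ℤ)).real {U | ∀ z ∈ F, Con (nbZ d) Set.univ p U z x} =
      (nu (Fin d → ℤ)).real {U | ∀ z ∈ tr (-x) F, Con (nbZ d) Set.univ p U 0 z} := by
  have hφ : Function.Injective (fun w : Fin d → ℤ => w + x) := add_left_injective x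
  have h1 := nu_map_inj (V' := Fin d → ℤ) (fun w : Fin d → ℤ => w + x) hφ
  have hm : Measurable (fun (U : Sym2 (Fin d → ℤ) → ℝ) e => U (Sym2.map (fun w => w + x) e)) :=
    measurable_pi_iff.2 fun e => measurable_pi_apply _
  have hN : Sy (nbZ d) := nbZ_symm d
  have h2 : {U | ∀ z ∈ F, Con (nbZ d) Set.univ p U z x} =
      (fun (U : Sym2 (Fin d → ℤ) → ℝ) e => U (Sym2.map (fun w => w + x) e)) ⁻¹'
        {U | ∀ z ∈ tr (-x) F, Con (nbZ d) Set.univ p U 0 z} := by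
    ext U
    simp only [Set.mem_preimage, Set.mem_ofPred_eq]
    constructor
    · intro h z hz
      unfold tr at hz
      rw [Finset.mem_image] at hz
      obtain ⟨w, hw, rfl⟩ := hz
      rw [endbb_con, zero_add, neg_add_cancel_comm]
      exact (h w hw).symm hN
    · intro h z hz
      have h3 := h (-x + z) (Finset.mem_image.2 ⟨z, hz, rfl⟩)
      rw [endbb_con, zero_add, neg_add_cancel_comm] at h3
      exact h3.symm hN
  have h3 : (nu (Fin d → ℤ)) {U | ∀ z ∈ F, Con (nbZ d) Set.univ p U z x} =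
      (nu (Fin d → ℤ)) {U | ∀ z ∈ tr (-x) F, Con (nbZ d) Set.univ p U 0 z} := by
    rw [h2, ← Measure.map_apply hm (endbb_meas p _), h1]
  unfold Measure.real
  rw [h3]

theorem iic_lim {p : ℝ} (hp : 0 ≤ p) (hp1 : p ≤ 1)
    (hpos : ∀ x : Fin d → ℤ, 0 < (Zg d).tau p 0 x)
    {F : Finset (Fin d → ℤ)} (h0 : (0 : Fin d → ℤ) ∈ F) {ι : ℝ} (hι : Rob d p F ι) :
    Tendsto (fun x => (nu (Fin d → ℤ)).real {U | ∀ z ∈ F, Con (nbZ d) Set.univ p U z x} /
      (nu (Fin d → ℤ)).real {U | Con (nbZ d) Set.univ p U 0 x}) cofinite (nhds ι) := by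
  rw [Metric.tendsto_nhds]
  intro ε hε
  obtain ⟨ρ, hρ⟩ := rob_inf hp hp1 h0 hι (half_pos hε)
  have hfin : (((Fintype.piFinset fun _ : Fin d => Finset.Icc (-(ρ : ℤ)) ρ : Finset (Fin d → ℤ)) :
      Set (Fin d → ℤ))).Finite := Finset.finite_toSet _
  filter_upwards [hfin.compl_mem_cofinite] with x hx
  have hx0 : (0 : Fin d → ℤ) ∉ bx (-x) ρ := by
    intro h
    apply hx
    unfold bx at h
    rw [Fintype.mem_piFinset] at h
    rw [Finset.mem_coe, Fintype.mem_piFinset]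
    intro i
    have h1 := h i
    rw [Finset.mem_Icc, Pi.neg_apply, Pi.zero_apply] at h1
    rw [Finset.mem_Icc]
    omega
  have h1 := hρ ∅ 0 (-x) (Finset.notMem_empty _) (Finset.disjoint_empty_right _) hx0
  rw [Finset.coe_empty, Set.compl_empty] at h1
  have h2 := endbb_tr p F x
  have h3 : (nu (Fin d → ℤ)).real {U | Con (nbZ d) Set.univ p U 0 x} =
      (nu (Fin d → ℤ)).real {U | Con (nbZ d) Set.univ p U 0 (-x)} := by
    have h4 := endbb_tr p {0} x
    have h5 : tr (-x) {0} = {-x} := by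
      unfold tr
      rw [Finset.image_singleton, add_zero]
    rw [h5] at h4
    simpa only [Finset.mem_singleton, forall_eq] using h4
  rw [h2, h3]
  have hB : 0 < (nu (Fin d → ℤ)).real {U | Con (nbZ d) Set.univ p U 0 (-x)} := by
    have h4 := hpos (-x)
    rw [tau_eq (Zg d) hp hp1] at h4
    exact h4
  rw [Real.dist_eq, div_sub' hB.ne', abs_div, abs_of_pos hB, div_lt_iff₀ hB, mul_comm _ ι]
  refine lt_of_le_of_lt h1 ?_
  exact mul_lt_mul_of_pos_right (half_lt_self hε) hB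

/-- the critical value of bond percolation on `ℤᵈ` -/
def pcZ (d : ℕ) : ℝ :=
  sSup {p : ℝ | 0 ≤ p ∧ p ≤ 1 ∧ nu (Fin d → ℤ) {U | (clu (nbZ d) Set.univ p U 0).Infinite} = 0}

private theorem endbc_nb (d : ℕ) (z x y : Fin d → ℤ) (h : y ∈ nbZ d x) : z + y ∈ nbZ d (z + x) := by
  rw [mem_nbZ] at h ⊢
  obtain ⟨i, s, hs, rfl⟩ := h
  refine ⟨i, s, hs, ?_⟩
  funext j
  by_cases hj : j = i
  · subst hj
    simp only [Pi.add_apply, Function.update_self]
    ring
  · simp only [Pi.add_apply, Function.update_of_ne hj]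

private theorem endbc_con (d : ℕ) (p : ℝ) (U U' : Sym2 (Fin d → ℤ) → ℝ) (z : Fin d → ℤ)
    (hU : ∀ a b : Fin d → ℤ, U' s(z + a, z + b) = U s(a, b)) {x y : Fin d → ℤ}
    (h : Con (nbZ d) Set.univ p U x y) : Con (nbZ d) Set.univ p U' (z + x) (z + y) := by
  refine ⟨Set.mem_univ _, ?_⟩
  have h2 := h.2
  induction h2 with
  | refl => exact Relation.ReflTransGen.refl
  | @tail b c hb hbc ih =>
    refine (ih ⟨Set.mem_univ _, hb⟩).tail
      ⟨Set.mem_univ _, Set.mem_univ _, endbc_nb d z b c hbc.2.2.1, ?_⟩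
    rw [hU]
    exact hbc.2.2.2

private theorem endbc_inf (d : ℕ) (p : ℝ) (x : Fin d → ℤ) :
    nu (Fin d → ℤ) {U | (clu (nbZ d) Set.univ p U x).Infinite} =
      nu (Fin d → ℤ) {U | (clu (nbZ d) Set.univ p U 0).Infinite} := by
  have hinj : Function.Injective fun v : Fin d → ℤ => x + v := add_right_injective x
  have hT : Measurable fun (U : Sym2 (Fin d → ℤ) → ℝ) (e : Sym2 (Fin d → ℤ)) =>
      U (Sym2.map (fun v : Fin d → ℤ => x + v) e) :=
    measurable_pi_iff.2 fun e => measurable_pi_apply _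
  have h1 : {U : Sym2 (Fin d → ℤ) → ℝ | (clu (nbZ d) Set.univ p U x).Infinite} =
      (fun (U : Sym2 (Fin d → ℤ) → ℝ) (e : Sym2 (Fin d → ℤ)) =>
        U (Sym2.map (fun v : Fin d → ℤ => x + v) e)) ⁻¹'
        {U : Sym2 (Fin d → ℤ) → ℝ | (clu (nbZ d) Set.univ p U 0).Infinite} := by
    ext U
    have h2 : clu (nbZ d) Set.univ p U x = (fun v : Fin d → ℤ => x + v) ''
        clu (nbZ d) Set.univ p (fun e => U (Sym2.map (fun v : Fin d → ℤ => x + v) e)) 0 := by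
      ext y
      constructor
      · intro hy
        refine ⟨-x + y, ?_, by simp⟩
        have h3 : Con (nbZ d) Set.univ p (fun e => U (Sym2.map (fun v : Fin d → ℤ => x + v) e))
            (-x + x) (-x + y) := by
          refine endbc_con d p U _ (-x) (fun a b => ?_) hy
          simp only [Sym2.map_mk]
          rw [show x + (-x + a) = a by abel, show x + (-x + b) = b by abel]
        rw [neg_add_cancel] at h3
        exact h3
      · rintro ⟨v, hv, rfl⟩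
        have h3 : Con (nbZ d) Set.univ p U (x + 0) (x + v) := by
          refine endbc_con d p (fun e => U (Sym2.map (fun v : Fin d → ℤ => x + v) e)) U x
            (fun a b => ?_) hv
          simp only [Sym2.map_mk]
        rw [add_zero] at h3
        exact h3
    have h4 := Set.infinite_image_iff (s := clu (nbZ d) Set.univ p
      (fun e => U (Sym2.map (fun v : Fin d → ℤ => x + v) e)) 0) hinj.injOn
    change (clu (nbZ d) Set.univ p U x).Infinite ↔ _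
    rw [h2, h4]
    exact Iff.rfl
  have h5 : MeasurableSet {U : Sym2 (Fin d → ℤ) → ℝ | (clu (nbZ d) Set.univ p U 0).Infinite} :=
    meas_clu_inf (Zg d) Set.univ p 0
  rw [h1, ← Measure.map_apply hT h5, nu_map_inj _ hinj]

theorem pc_eq (d : ℕ) : pcZ d = (Zg d).pc := by
  unfold pcZ PG.pc
  refine congrArg sSup (Set.ext fun p => ?_)
  constructor
  · rintro ⟨h0, h1, h2⟩
    refine ⟨h0, h1, (noPerc_iff (Zg d) h0 h1).2 fun x => ?_⟩
    exact (endbc_inf d p x).trans h2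
  · rintro ⟨h0, h1, h2⟩
    exact ⟨h0, h1, (noPerc_iff (Zg d) h0 h1).1 h2 0⟩

/-- the inputs of the other streams for the dimension `n + 1` -/
structure GHyp (n : ℕ) : Prop where
  pos : 0 < (Zg (n + 1)).pc
  lt : (Zg (n + 1)).pc < 1
  noPerc : (Zg (n + 1)).NoPerc (Zg (n + 1)).pc
  slab : ∀ p', (Zg (n + 1)).pc < p' → p' ≤ 1 →
    ∃ L : ℕ, 1 ≤ L ∧ ¬ (Wg n (Fin L) (SimpleGraph.pathGraph L)).NoPerc p'
  low : ∃ (c : ℝ) (β : ℕ), 0 < c ∧ ∀ x : Fin (n + 1) → ℤ,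
    c ≤ (Zg (n + 1)).tau (Zg (n + 1)).pc 0 x * (1 + ‖x‖) ^ β
  rob : ∀ F : Finset (Fin (n + 1) → ℤ), (0 : Fin (n + 1) → ℤ) ∈ F →
    ∃ ι : ℝ, Rob (n + 1) (Zg (n + 1)).pc F ι

/-- output of stream G -/
theorem stream_G {n : ℕ} (h : GHyp n) (K : Finset (Fin (n + 1) → ℤ)) (𝓕 : Set (Finset (Fin (n + 1) → ℤ))) :
    ∃ l : ℝ,
      Tendsto (fun x => (nu (Fin (n + 1) → ℤ)).real
        {U | Con (nbZ (n + 1)) Set.univ (pcZ (n + 1)) U 0 x ∧
          (K.filter fun z => Con (nbZ (n + 1)) Set.univ (pcZ (n + 1)) U 0 z) ∈ 𝓕} /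
        (nu (Fin (n + 1) → ℤ)).real {U | Con (nbZ (n + 1)) Set.univ (pcZ (n + 1)) U 0 x})
        cofinite (nhds l) ∧
      Tendsto (fun x => (nu (Fin (n + 1) → ℤ)).real
        {U | x ∈ ipc (nbZ (n + 1)) 0 U ∧ (K.filter fun z => x + z ∈ ipc (nbZ (n + 1)) 0 U) ∈ 𝓕} /
        (nu (Fin (n + 1) → ℤ)).real {U | x ∈ ipc (nbZ (n + 1)) 0 U})
        cofinite (nhds l) := by
  have hp : 0 < (Zg (n + 1)).pc := h.pos
  have hp1 : (Zg (n + 1)).pc < 1 := h.lt
  have hfin := fin1_ae (Zg (n + 1)) hp.le hp1.le h.noPerc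
  have hslab : ∀ p', (Zg (n + 1)).pc < p' → p' ≤ 1 →
      ∃ (L : ℕ) (θ : ℝ), 1 ≤ L ∧ 0 < θ ∧ θ ≤ 1 ∧ SlabP (n + 1) p' L θ := by
    intro p' hp' hp'1
    obtain ⟨L, hL, hL'⟩ := h.slab p' hp' hp'1
    obtain ⟨θ, h1, h2, h3⟩ := slabP_of (hL : 0 < L) (hp.trans hp') hp'1 hL'
    exact ⟨L, θ, hL, h1, h2, h3⟩
  obtain ⟨c, β, hc, hlow⟩ := h.low
  have hlow' : ∀ x : Fin (n + 1) → ℤ, c ≤ fI (Zg (n + 1)) 0 x * (1 + ‖x‖) ^ β := fun x =>
    (hlow x).trans (mul_le_mul_of_nonneg_right (tau_le_fI (Zg (n + 1)) 0 x hp.le hp1.le hfin)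
      (by positivity))
  have hpos : ∀ x : Fin (n + 1) → ℤ, 0 < (Zg (n + 1)).tau (Zg (n + 1)).pc 0 x := by
    intro x
    by_contra hx
    have h1 := hlow x
    have h2 : (Zg (n + 1)).tau (Zg (n + 1)).pc 0 x * (1 + ‖x‖) ^ β ≤ 0 :=
      mul_nonpos_of_nonpos_of_nonneg (not_lt.1 hx) (by positivity)
    linarith
  choose! ι hι using h.rob
  refine ⟨famLim ι K 𝓕, ?_, ?_⟩
  · rw [pc_eq]
    have h1 := family_tendsto (nu (Fin (n + 1) → ℤ)) cofinite
      (fun x z => {U | Con (nbZ (n + 1)) Set.univ (Zg (n + 1)).pc U z x})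
      (fun x z => meas_con (Zg (n + 1)) Set.univ _ z x)
      (fun x => (nu (Fin (n + 1) → ℤ)).real {U | Con (nbZ (n + 1)) Set.univ (Zg (n + 1)).pc U 0 x}) ι
      (fun F hF => iic_lim hp.le hp1.le hpos hF (hι F hF)) K 𝓕
    refine h1.congr fun x => ?_
    have h2 : {U : Sym2 (Fin (n + 1) → ℤ) → ℝ |
        U ∈ {U | Con (nbZ (n + 1)) Set.univ (Zg (n + 1)).pc U 0 x} ∧ (K.filter fun z =>
          U ∈ {U | Con (nbZ (n + 1)) Set.univ (Zg (n + 1)).pc U z x}) ∈ 𝓕} =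
        {U | Con (nbZ (n + 1)) Set.univ (Zg (n + 1)).pc U 0 x ∧
          (K.filter fun z => Con (nbZ (n + 1)) Set.univ (Zg (n + 1)).pc U 0 z) ∈ 𝓕} := by
      ext U
      have hN : Sy (nbZ (n + 1)) := nbZ_symm (n + 1)
      constructor
      · rintro ⟨h3, h4⟩
        refine ⟨h3, ?_⟩
        have h5 : (K.filter fun z => Con (nbZ (n + 1)) Set.univ (Zg (n + 1)).pc U 0 z) =
            (K.filter fun z => U ∈ {U | Con (nbZ (n + 1)) Set.univ (Zg (n + 1)).pc U z x}) :=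
          Finset.filter_congr fun z _ =>
            ⟨fun h6 => (h6.symm hN).trans h3, fun h6 => h3.trans (Con.symm hN h6)⟩
        rw [h5]
        exact h4
      · rintro ⟨h3, h4⟩
        refine ⟨h3, ?_⟩
        have h5 : (K.filter fun z => Con (nbZ (n + 1)) Set.univ (Zg (n + 1)).pc U 0 z) =
            (K.filter fun z => U ∈ {U | Con (nbZ (n + 1)) Set.univ (Zg (n + 1)).pc U z x}) :=
          Finset.filter_congr fun z _ =>
            ⟨fun h6 => (h6.symm hN).trans h3, fun h6 => h3.trans (Con.symm hN h6)⟩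
        rw [← h5]
        exact h4
    rw [h2]
  · exact family_tendsto (nu (Fin (n + 1) → ℤ)) cofinite
      (fun x z => {U | x + z ∈ ipc (nbZ (n + 1)) 0 U})
      (fun x z => meas_ipc (nbZ (n + 1)) 0 (x + z))
      (fun x => (nu (Fin (n + 1) → ℤ)).real {U | x ∈ ipc (nbZ (n + 1)) 0 U}) ι
      (fun F hF => ipc_lim (Nat.succ_pos n) hp hp1 hfin hslab hc β hlow' hF (hι F hF)) K 𝓕 |>.congr
        fun x => by
          have h2 : {U : Sym2 (Fin (n + 1) → ℤ) → ℝ | U ∈ {U | x + 0 ∈ ipc (nbZ (n + 1)) 0 U} ∧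
              (K.filter fun z => U ∈ {U | x + z ∈ ipc (nbZ (n + 1)) 0 U}) ∈ 𝓕} =
              {U | x ∈ ipc (nbZ (n + 1)) 0 U ∧
                (K.filter fun z => x + z ∈ ipc (nbZ (n + 1)) 0 U) ∈ 𝓕} := by
            ext U
            simp only [add_zero, Set.mem_setOf_eq]
          rw [h2]

end IPC
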