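import Pool.Agent.Lib.MP_25e40f_pr.Defs

/-!
# MP_25e40f_pr, stream G: invasion percolation, definitions
-/

set_option autoImplicit false

noncomputable section

open MeasureTheory
open scoped Classical

namespace IPC

variable {V : Type} [DecidableEq V]

/-- the uniform law on `(0, 1)` -/
def uni : Measure ℝ := volume.restrict (Set.Ioo 0 1)

instance : IsProbabilityMeasure uni :=
  ⟨by unfold uni; rw [Measure.restrict_apply_univ, Real.volume_Ioo]; norm_num⟩

/-- the law of the weights: independent, uniform on `(0, 1)` -/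
def nu (V : Type) : Measure (Sym2 V → ℝ) := Measure.infinitePi fun _ => uni

instance (V : Type) : IsProbabilityMeasure (nu V) := by unfold nu; infer_instance

/-- the oriented edges from `A` to its complement -/
def bd (N : V → Finset V) (A : Finset V) : Finset (V × V) :=
  A.biUnion fun x => (N x \ A).image fun y => (x, y)

/-- `Inv N o U t A`: the set `A` is the set of the invaded vertices at time `t`, for the weights `U` and
the starting vertex `o` (`N x` is the set of the neighbours of `x`) -/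
inductive Inv (N : V → Finset V) (o : V) (U : Sym2 V → ℝ) : ℕ → Finset V → Prop
  | zero : Inv N o U 0 {o}
  | step (t : ℕ) (A : Finset V) (q : V × V) (hA : Inv N o U t A) (hq : q ∈ bd N A)
      (hm : ∀ r ∈ bd N A, U s(q.1, q.2) ≤ U s(r.1, r.2)) : Inv N o U (t + 1) (insert q.2 A)

/-- the invasion percolation cluster -/
def ipc (N : V → Finset V) (o : V) (U : Sym2 V → ℝ) : Set V := {v | ∃ t A, Inv N o U t A ∧ v ∈ A}

/-- `x` and `y` are connected inside `D` by edges of weight at most `p` -/
def Con (N : V → Finset V) (D : Set V) (p : ℝ) (U : Sym2 V → ℝ) (x y : V) : Prop :=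
  x ∈ D ∧ Relation.ReflTransGen (fun a b => a ∈ D ∧ b ∈ D ∧ b ∈ N a ∧ U s(a, b) ≤ p) x y

/-- the cluster of `x` in `D` at level `p` -/
def clu (N : V → Finset V) (D : Set V) (p : ℝ) (U : Sym2 V → ℝ) (x : V) : Set V :=
  {y | Con N D p U x y}

/-- all the edges from `A` to its complement have weight larger than `p` -/
def Full (N : V → Finset V) (p : ℝ) (U : Sym2 V → ℝ) (A : Finset V) : Prop :=
  ∀ q ∈ bd N A, p < U s(q.1, q.2)

/-- `q` is an edge of smallest weight from `A` to its complement -/
def Amin (N : V → Finset V) (U : Sym2 V → ℝ) (A : Finset V) (q : V × V) : Prop :=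
  q ∈ bd N A ∧ ∀ r ∈ bd N A, U s(q.1, q.2) ≤ U s(r.1, r.2)

/-- the graph without the edge `e` -/
def rem (N : V → Finset V) (e : Sym2 V) : V → Finset V := fun x => (N x).filter fun y => s(x, y) ≠ e

/-- all the edges with an endpoint in `S` -/
def tch (S : Set V) : Set (Sym2 V) := {e | ∃ x ∈ S, x ∈ e}

/-- `x` and `y` are invaded in different pieces, `x` first -/
def Sep (N : V → Finset V) (o : V) (p : ℝ) (U : Sym2 V → ℝ) (x y : V) : Prop :=
  ∃ t A, Inv N o U t A ∧ Full N p U A ∧ x ∈ A ∧ y ∉ A

/-- `S` is an invaded set all of whose boundary edges are larger than `p`, and `q` is the next edge -/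
def Gate (N : V → Finset V) (o : V) (p : ℝ) (U : Sym2 V → ℝ) (S : Finset V) (q : V × V) : Prop :=
  (∃ t, Inv N o U t S) ∧ Full N p U S ∧ Amin N U S q

/-- symmetric neighbourhoods -/
def Sy (N : V → Finset V) : Prop := ∀ x y, y ∈ N x → x ∈ N y

/-- all the clusters at level `p` are finite -/
def Fin1 (N : V → Finset V) (p : ℝ) (U : Sym2 V → ℝ) : Prop :=
  ∀ v, (clu N Set.univ p U v).Finite

theorem mem_bd {N : V → Finset V} {A : Finset V} {q : V × V} :
    q ∈ bd N A ↔ q.1 ∈ A ∧ q.2 ∈ N q.1 ∧ q.2 ∉ A := by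
  unfold bd
  rw [Finset.mem_biUnion]
  constructor
  · rintro ⟨x, hx, h⟩
    rw [Finset.mem_image] at h
    obtain ⟨y, hy, rfl⟩ := h
    rw [Finset.mem_sdiff] at hy
    exact ⟨hx, hy.1, hy.2⟩
  · rintro ⟨h1, h2, h3⟩
    exact ⟨q.1, h1, Finset.mem_image.2 ⟨q.2, Finset.mem_sdiff.2 ⟨h2, h3⟩, rfl⟩⟩

theorem mem_rem {N : V → Finset V} {e : Sym2 V} {x y : V} :
    y ∈ rem N e x ↔ y ∈ N x ∧ s(x, y) ≠ e := by
  unfold rem
  rw [Finset.mem_filter]

end IPC
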