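import Pool.Agent.Lib.MP_25e40f_pr.G.Defs

/-!
# MP_25e40f_pr, stream G, file DetA: elementary properties of invaded sets
-/

set_option autoImplicit false
set_option linter.unusedSectionVars false

noncomputable section

open scoped Classical

namespace IPC

variable {V : Type} [DecidableEq V] {N : V → Finset V} {o : V} {p : ℝ} {U U' : Sym2 V → ℝ} {t t' : ℕ}
  {A A' B : Finset V} {q q' : V × V}

theorem Inv.mem_o (h : Inv N o U t A) : o ∈ A := by
  induction h with
  | zero => exact Finset.mem_singleton_self o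
  | step t A q _ _ _ ih => exact Finset.mem_insert_of_mem ih

theorem Inv.card (h : Inv N o U t A) : A.card = t + 1 := by
  induction h with
  | zero => simp
  | step t A q _ hq _ ih => rw [Finset.card_insert_of_notMem (mem_bd.1 hq).2.2, ih]

theorem Inv.next (h : Inv N o U t A) (hq : Amin N U A q) : Inv N o U (t + 1) (insert q.2 A) :=
  Inv.step t A q h hq.1 hq.2

theorem exists_amin (U : Sym2 V → ℝ) (h : (bd N A).Nonempty) : ∃ q, Amin N U A q := by
  obtain ⟨q, hq, hm⟩ := Finset.exists_min_image (bd N A) (fun r => U s(r.1, r.2)) h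
  exact ⟨q, hq, hm⟩

theorem Amin.uniq (hU : Function.Injective U) (h : Amin N U A q) (h' : Amin N U A q') : q = q' := by
  have h1 : U s(q.1, q.2) = U s(q'.1, q'.2) := le_antisymm (h.2 q' h'.1) (h'.2 q h.1)
  have h2 := hU h1
  rw [Sym2.eq_iff] at h2
  rcases h2 with ⟨h3, h4⟩ | ⟨h3, h4⟩
  · exact Prod.ext h3 h4
  · exact absurd (h3 ▸ (mem_bd.1 h.1).1) (mem_bd.1 h'.1).2.2

theorem Inv.uniq (hU : Function.Injective U) (h : Inv N o U t A) (h' : Inv N o U t A') : A = A' := by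
  induction h generalizing A' with
  | zero =>
    cases h' with
    | zero => rfl
  | step t A q _ hq hm ih =>
    cases h' with
    | step _ A₁ q₁ hA₁ hq₁ hm₁ =>
      have h1 := ih hA₁
      subst h1
      have h2 : q = q₁ := Amin.uniq hU ⟨hq, hm⟩ ⟨hq₁, hm₁⟩
      rw [h2]

theorem Inv.pre (h : Inv N o U t A) {s : ℕ} (hs : s ≤ t) : ∃ B, Inv N o U s B ∧ B ⊆ A := by
  induction h with
  | zero =>
    have h0 : s = 0 := Nat.le_zero.1 hs
    subst h0
    exact ⟨{o}, Inv.zero, le_rfl⟩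
  | step t A q hA hq hm ih =>
    rcases Nat.lt_or_ge s (t + 1) with h1 | h1
    · obtain ⟨B, hB, hBA⟩ := ih (Nat.lt_succ_iff.1 h1)
      exact ⟨B, hB, hBA.trans (Finset.subset_insert _ _)⟩
    · have h2 : s = t + 1 := le_antisymm hs h1
      subst h2
      exact ⟨_, Inv.step t A q hA hq hm, le_rfl⟩

theorem Inv.mono (hU : Function.Injective U) (h : Inv N o U t A) (h' : Inv N o U t' A')
    (ht : t ≤ t') : A ⊆ A' := by
  obtain ⟨B, hB, hBA⟩ := h'.pre ht
  rw [h.uniq hU hB]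
  exact hBA

theorem edge_tch (h : q ∈ bd N A) : s(q.1, q.2) ∈ tch (A : Set V) :=
  ⟨q.1, (mem_bd.1 h).1, Sym2.mem_mk_left _ _⟩

theorem tch_mono {S T : Set V} (h : S ⊆ T) : tch S ⊆ tch T := fun _ ⟨x, hx, he⟩ => ⟨x, h hx, he⟩

theorem Amin.congr (h : Amin N U A q) (hE : ∀ e ∈ tch (A : Set V), U e = U' e) : Amin N U' A q :=
  ⟨h.1, fun r hr => by rw [← hE _ (edge_tch h.1), ← hE _ (edge_tch hr)]; exact h.2 r hr⟩

theorem Full.congr (h : Full N p U A) (hE : ∀ e ∈ tch (A : Set V), U e = U' e) : Full N p U' A :=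
  fun r hr => by rw [← hE _ (edge_tch hr)]; exact h r hr

theorem Inv.congr (h : Inv N o U t A) (hE : ∀ e ∈ tch (A : Set V), U e = U' e) : Inv N o U' t A := by
  induction h with
  | zero => exact Inv.zero
  | step t A q hA hq hm ih =>
    have h1 : ∀ e ∈ tch (A : Set V), U e = U' e := fun e he =>
      hE e (tch_mono (Finset.coe_subset.2 (Finset.subset_insert _ _)) he)
    exact (ih h1).next (Amin.congr ⟨hq, hm⟩ h1)

theorem Gate.congr (h : Gate N o p U A q) (hE : ∀ e ∈ tch (A : Set V), U e = U' e) :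
    Gate N o p U' A q := by
  obtain ⟨⟨t, ht⟩, h1, h2⟩ := h
  exact ⟨⟨t, ht.congr hE⟩, h1.congr hE, h2.congr hE⟩

theorem Con.symm (hN : Sy N) {D : Set V} {x y : V} (h : Con N D p U x y) : Con N D p U y x := by
  obtain ⟨hx, h⟩ := h
  have h1 : y ∈ D := by
    rcases Relation.ReflTransGen.cases_tail h with h2 | ⟨c, _, h3⟩
    · rwa [h2]
    · exact h3.2.1
  refine ⟨h1, ?_⟩
  clear h1
  induction h with
  | refl => exact Relation.ReflTransGen.refl
  | tail _ hbc ih =>
    refine Relation.ReflTransGen.head ⟨hbc.2.1, hbc.1, hN _ _ hbc.2.2.1, ?_⟩ ih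
    rw [Sym2.eq_swap]
    exact hbc.2.2.2

theorem Con.mem_right {D : Set V} {x y : V} (h : Con N D p U x y) : y ∈ D := by
  obtain ⟨hx, h⟩ := h
  rcases Relation.ReflTransGen.cases_tail h with h2 | ⟨c, _, h3⟩
  · rwa [h2]
  · exact h3.2.1

theorem Con.trans {D : Set V} {x y z : V} (h : Con N D p U x y) (h' : Con N D p U y z) :
    Con N D p U x z := ⟨h.1, h.2.trans h'.2⟩

theorem Con.mono {D D' : Set V} (hD : D ⊆ D') {p' : ℝ} (hp : p ≤ p') {x y : V}
    (h : Con N D p U x y) : Con N D' p' U x y :=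
  ⟨hD h.1, Relation.ReflTransGen.mono
    (fun _ _ hab => ⟨hD hab.1, hD hab.2.1, hab.2.2.1, hab.2.2.2.trans hp⟩) _ _ h.2⟩

/-- a connection in `D` depends only on the edges with both endpoints in `D` -/
theorem Con.congr {D : Set V} {x y : V} (h : Con N D p U x y)
    (hE : ∀ a ∈ D, ∀ b ∈ D, U s(a, b) = U' s(a, b)) : Con N D p U' x y :=
  ⟨h.1, Relation.ReflTransGen.mono (fun a b hab => ⟨hab.1, hab.2.1, hab.2.2.1, by
    rw [← hE a hab.1 b hab.2.1]; exact hab.2.2.2⟩) _ _ h.2⟩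

end IPC
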