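import Pool.Agent.Lib.MP_25e40f_pr.G.DetA

/-!
# MP_25e40f_pr, stream G, file DetB: full sets and pieces (JOB DetB)

Everything is deterministic (`U` a fixed weight function).

* `Full.con`. Induction on the path (`Relation.ReflTransGen.head_induction_on` or `induction h.2`): if
  `c ∈ A` and `c → b` is a step, `b ∈ N c`, `U s(c, b) ≤ p`; if `b ∉ A` then `(c, b) ∈ bd N A` (`mem_bd`)
  and `Full` gives `p < U s(c, b)`, a contradiction.
* `exists_cross`: a path from a vertex of `B` to a vertex outside of `B` has a step `a → b`, `a ∈ B`, `b ∉ B`,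
  and `a` is connected to the start.
* `Inv.fill`. Induction on `(C \ B).card`. If `C ⊆ B` then `B = C`. Otherwise take `w ∈ C \ B`; `v` is connected
  to `w` in `Sᶜ`; `exists_cross` gives `a ∈ B`, `b ∉ B`, `a, b ∈ Sᶜ`, `b ∈ N a`, `U s(a, b) ≤ p`. So
  `(a, b) ∈ bd N (S ∪ B)`; take `q` with `Amin N U (S ∪ B) q` (`exists_amin`); `U q ≤ p`. If `q.1 ∈ S`
  then, as `q.2 ∉ S ∪ B`, `q ∈ bd N S` and `hS` gives `p < U q`: contradiction. So `q.1 ∈ B ⊆ C`, `q.1` is
  connected to `v` in `Sᶜ`, and then `q.2 ∈ C` (one more step, `q.2 ∈ Sᶜ`, `q.1 ∈ Sᶜ`).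
  `Inv.next` gives `Inv N o U (t + 1) (insert q.2 (S ∪ B))` and `insert q.2 (S ∪ B) = S ∪ insert q.2 B`.
* `Full.union`: `q ∈ bd N (S ∪ C)`. If `q.1 ∈ S`: `q ∈ bd N S`. If `q.1 ∈ C` and `U q ≤ p` then
  `q.2 ∈ C` (`q.2 ∉ S`).
* `piece0_mem`: `Fin1` gives a Finset `C` with `C = clu N Set.univ p U o`; use `Inv.fill` with `S = ∅`,
  `B = {o}`, `v = o`, `Inv.zero`. (`full_empty`: `bd N ∅ = ∅`.)
* `piece_mem`: similarly with `B = {q.2}`, `Inv.next`, `insert q.2 S = S ∪ {q.2}`; the cluster of `q.2` in `Sᶜ`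
  is finite because it is contained in `clu N Set.univ p U q.2` (`Con.mono`).
-/

set_option autoImplicit false
set_option linter.unusedSectionVars false

noncomputable section

open scoped Classical

namespace IPC

variable {V : Type} [DecidableEq V] {N : V → Finset V} {o : V} {p : ℝ} {U U' : Sym2 V → ℝ} {t t' : ℕ}
  {A A' B S C : Finset V} {q q' : V × V} {x y v : V}

theorem Full.con {D : Set V} (hF : Full N p U A) (hx : x ∈ A) (h : Con N D p U x y) : y ∈ A := by
  obtain ⟨_, h⟩ := h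
  induction h with
  | refl => exact hx
  | @tail b c _ hbc ih =>
    by_contra hc
    have h1 := hF (b, c) (mem_bd.2 ⟨ih, hbc.2.2.1, hc⟩)
    exact absurd hbc.2.2.2 (not_le.2 h1)

theorem full_empty : Full N p U ∅ := by
  intro q hq
  exact absurd (mem_bd.1 hq).1 (Finset.notMem_empty _)

theorem exists_cross {D : Set V} {B : Set V} (h : Con N D p U x y) (hx : x ∈ B) (hy : y ∉ B) :
    ∃ a b, a ∈ B ∧ b ∉ B ∧ a ∈ D ∧ b ∈ D ∧ b ∈ N a ∧ U s(a, b) ≤ p ∧ Con N D p U x a := by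
  obtain ⟨hxD, h⟩ := h
  induction h with
  | refl => exact absurd hx hy
  | @tail b c hb hbc ih =>
    by_cases hbB : b ∈ B
    · exact ⟨b, c, hbB, hy, hbc.1, hbc.2.1, hbc.2.2.1, hbc.2.2.2, hxD, hb⟩
    · exact ih hbB

theorem Inv.fill (hS : Full N p U S) (hC : (C : Set V) = clu N (S : Set V)ᶜ p U v) (hv : v ∈ B)
    (hB : B ⊆ C) (h : Inv N o U t (S ∪ B)) : ∃ t', t ≤ t' ∧ Inv N o U t' (S ∪ C) := by
  obtain ⟨n, hn⟩ : ∃ n, (C \ B).card = n := ⟨_, rfl⟩
  induction n generalizing B t with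
  | zero =>
    have h1 : C ⊆ B := Finset.sdiff_eq_empty_iff_subset.1 (Finset.card_eq_zero.1 hn)
    have h2 : B = C := le_antisymm hB h1
    subst h2
    exact ⟨t, le_rfl, h⟩
  | succ n ih =>
    obtain ⟨w, hw⟩ : (C \ B).Nonempty := Finset.card_pos.1 (by omega)
    rw [Finset.mem_sdiff] at hw
    have hw' : w ∈ (C : Set V) := Finset.mem_coe.2 hw.1
    rw [hC] at hw'
    obtain ⟨a, b, ha, hb, haD, hbD, hab, hUab, hcon⟩ :=
      exists_cross (B := (B : Set V)) hw' (Finset.mem_coe.2 hv) (fun h => hw.2 (Finset.mem_coe.1 h))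
    have hmem : (a, b) ∈ bd N (S ∪ B) := by
      refine mem_bd.2 ⟨Finset.mem_union_right _ (Finset.mem_coe.1 ha), hab, ?_⟩
      intro h1
      rcases Finset.mem_union.1 h1 with h2 | h2
      · exact hbD (Finset.mem_coe.2 h2)
      · exact hb (Finset.mem_coe.2 h2)
    obtain ⟨q, hq⟩ := exists_amin U (⟨(a, b), hmem⟩ : (bd N (S ∪ B)).Nonempty)
    have hqU : U s(q.1, q.2) ≤ p := (hq.2 (a, b) hmem).trans hUab
    obtain ⟨q1, q2, q3⟩ := mem_bd.1 hq.1
    have q3S : q.2 ∉ S := fun h1 => q3 (Finset.mem_union_left _ h1)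
    have q3B : q.2 ∉ B := fun h1 => q3 (Finset.mem_union_right _ h1)
    have hq1 : q.1 ∈ B := by
      rcases Finset.mem_union.1 q1 with h2 | h2
      · exact absurd hqU (not_le.2 (hS q (mem_bd.2 ⟨h2, q2, q3S⟩)))
      · exact h2
    have hq1C : q.1 ∈ (C : Set V) := Finset.mem_coe.2 (hB hq1)
    rw [hC] at hq1C
    have hq1C' : Con N (S : Set V)ᶜ p U v q.1 := hq1C
    have hq2C : Con N (S : Set V)ᶜ p U v q.2 :=
      ⟨hq1C'.1, hq1C'.2.tail ⟨hq1C'.mem_right, fun h1 => q3S (Finset.mem_coe.1 h1), q2, hqU⟩⟩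
    have hq2C' : q.2 ∈ (C : Set V) := by rw [hC]; exact hq2C
    have hnext := h.next hq
    rw [← Finset.union_insert] at hnext
    obtain ⟨t', ht', hI⟩ := ih (B := insert q.2 B) (t := t + 1) (Finset.mem_insert_of_mem hv)
      (Finset.insert_subset (Finset.mem_coe.1 hq2C') hB) hnext (by
        rw [Finset.sdiff_insert, Finset.card_erase_of_mem
          (Finset.mem_sdiff.2 ⟨Finset.mem_coe.1 hq2C', q3B⟩), hn]
        rfl)
    exact ⟨t', by omega, hI⟩

theorem Full.union (hS : Full N p U S) (hC : (C : Set V) = clu N (S : Set V)ᶜ p U v) :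
    Full N p U (S ∪ C) := by
  intro q hq
  obtain ⟨q1, q2, q3⟩ := mem_bd.1 hq
  have q3S : q.2 ∉ S := fun h1 => q3 (Finset.mem_union_left _ h1)
  have q3C : q.2 ∉ C := fun h1 => q3 (Finset.mem_union_right _ h1)
  rcases Finset.mem_union.1 q1 with h2 | h2
  · exact hS q (mem_bd.2 ⟨h2, q2, q3S⟩)
  · by_contra hcon
    have hq1C : q.1 ∈ (C : Set V) := Finset.mem_coe.2 h2
    rw [hC] at hq1C
    have hq1C' : Con N (S : Set V)ᶜ p U v q.1 := hq1C
    have hq2C : Con N (S : Set V)ᶜ p U v q.2 :=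
      ⟨hq1C'.1, hq1C'.2.tail ⟨hq1C'.mem_right, fun h1 => q3S (Finset.mem_coe.1 h1), q2, not_lt.1 hcon⟩⟩
    have hq2C' : q.2 ∈ (C : Set V) := by rw [hC]; exact hq2C
    exact q3C (Finset.mem_coe.1 hq2C')

/-- the first piece is completely invaded, and it is a full set -/
theorem piece0 (hfin : Fin1 N p U) : ∃ (t : ℕ) (C : Finset V), (C : Set V) = clu N Set.univ p U o ∧
    Inv N o U t C ∧ Full N p U C := by
  have hC : ((hfin o).toFinset : Set V) = clu N Set.univ p U o := Set.Finite.coe_toFinset _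
  have hC' : ((hfin o).toFinset : Set V) = clu N ((∅ : Finset V) : Set V)ᶜ p U o := by
    rw [hC, Finset.coe_empty, Set.compl_empty]
  have ho : o ∈ (hfin o).toFinset := by
    rw [← Finset.mem_coe, hC]
    exact ⟨Set.mem_univ _, Relation.ReflTransGen.refl⟩
  have h0 : Inv N o U 0 (∅ ∪ {o}) := by
    rw [Finset.empty_union]
    exact Inv.zero
  obtain ⟨t', _, ht'⟩ := Inv.fill (p := p) full_empty hC' (Finset.mem_singleton_self o)
    (Finset.singleton_subset_iff.2 ho) h0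
  have hF := Full.union (N := N) (p := p) (U := U) full_empty hC'
  rw [Finset.empty_union] at ht' hF
  exact ⟨t', _, hC, ht', hF⟩

/-- after a gate `(S, q)` the piece of `q.2` is completely invaded, and one gets a full set -/
theorem piece1 (hfin : Fin1 N p U) (h : Inv N o U t S) (hS : Full N p U S) (hq : Amin N U S q) :
    ∃ (t' : ℕ) (C : Finset V), t < t' ∧ (C : Set V) = clu N (S : Set V)ᶜ p U q.2 ∧
      Inv N o U t' (S ∪ C) ∧ Full N p U (S ∪ C) := by
  have hfC : (clu N (S : Set V)ᶜ p U q.2).Finite :=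
    (hfin q.2).subset fun y hy => Con.mono (Set.subset_univ _) le_rfl hy
  have hC : (hfC.toFinset : Set V) = clu N (S : Set V)ᶜ p U q.2 := Set.Finite.coe_toFinset _
  have hqS : q.2 ∉ S := (mem_bd.1 hq.1).2.2
  have hq2 : q.2 ∈ hfC.toFinset := by
    rw [← Finset.mem_coe, hC]
    exact ⟨fun h1 => hqS (Finset.mem_coe.1 h1), Relation.ReflTransGen.refl⟩
  have h0 := h.next hq
  rw [Finset.insert_eq, Finset.union_comm] at h0
  obtain ⟨t', ht, ht'⟩ := Inv.fill hS hC (Finset.mem_singleton_self q.2)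
    (Finset.singleton_subset_iff.2 hq2) h0
  exact ⟨t', _, by omega, hC, ht', Full.union hS hC⟩

theorem piece0_mem (hfin : Fin1 N p U) (hx : Con N Set.univ p U o x) : x ∈ ipc N o U := by
  obtain ⟨t, C, hC, h, _⟩ := piece0 (o := o) hfin
  have h1 : x ∈ (C : Set V) := by rw [hC]; exact hx
  exact ⟨t, C, h, Finset.mem_coe.1 h1⟩

theorem piece_mem (hfin : Fin1 N p U) (h : Gate N o p U S q) (hx : Con N (S : Set V)ᶜ p U q.2 x) :
    x ∈ ipc N o U := by
  obtain ⟨⟨t, ht⟩, hS, hq⟩ := h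
  obtain ⟨t', C, _, hC, h, _⟩ := piece1 hfin ht hS hq
  have h1 : x ∈ (C : Set V) := by rw [hC]; exact hx
  exact ⟨t', S ∪ C, h, Finset.mem_union_right _ (Finset.mem_coe.1 h1)⟩

end IPC
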