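import Pool.Agent.Lib.MP_25e40f_pr.G.DetB

/-!
# MP_25e40f_pr, stream G, file DetC: the decomposition of the invaded cluster into pieces (JOB DetC)

Everything is deterministic. `V_t` denotes the invaded set at time `t` (unique: `Inv.uniq`, increasing: `Inv.mono`).

* `piece_exists`. Let `Inv N o U t A`, `x ∈ A`. Claim: if `Inv N o U s S`, `Full S`, `x ∉ S` then
  `∃ S q, Gate S q ∧ Con N Sᶜ p U q.2 x`. Induction on `t - s` (strong): `s < t` (otherwise `A ⊆ S`
  by `Inv.mono`); `Inv.pre` for `s + 1 ≤ t` gives `Inv N o U (s + 1) B`; the case analysis `cases` of it gives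
  `B = insert q.2 A₁` with `Inv N o U s A₁`, so `A₁ = S` (`Inv.uniq`) and `Amin N U S q`. `piece1` gives
  `s < s'`, `C = clu N Sᶜ p U q.2`, `Inv N o U s' (S ∪ C)`, `Full (S ∪ C)`. If `x ∈ C` we are done with
  `(S, q)`; otherwise apply the induction hypothesis to `S ∪ C`, `s'`.
  Start with `piece0` : `C₀ = clu N univ p U o`; if `x ∈ C₀` the first alternative holds.
* `piece_unique`. `S = V_s`, `S' = V_{s'}`. If `s = s'`: `Inv.uniq`, `Amin.uniq`. If `s < s'`:
  `Inv.next` gives `Inv N o U (s + 1) (insert q.2 S)`, so `q.2 ∈ S'` (`Inv.mono`), and `Full.con` for `S'`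
  gives `x ∈ S'`; but `hx'.mem_right : x ∈ S'ᶜ`. The case `s' < s` is symmetric.
* `piece_excl`. `o ∈ S` (`Inv.mem_o`), so `Con N univ p U o x` would give `x ∈ S` (`Full.con`), but
  `x ∈ Sᶜ` (`Con.mem_right`).
* `same_piece`. Case `Con N univ p U o x`: `piece0` gives the full set `C₀`, `x ∈ C₀`; `h1` gives
  `y ∈ C₀`, i.e. `Con N univ p U o y`. Case `(S, q)` for `x`: `piece1` gives the full invaded set `S ∪ C ∋ x`, so by
  `h1` `y ∈ S ∪ C`; `y ∈ S` is impossible by `h2` (with `S`: full, invaded, `y ∈ S`, `x ∉ S`); so `y ∈ C`.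
* `sep_gate`. `Inv N o U t A`, `Full A`, `x ∈ A`, `y ∉ A`. `piece_exists` for `y`: the first alternative
  gives `y ∈ A` (`Inv.mem_o`, `Full.con`): contradiction. So `Gate S q`, `Con N Sᶜ p U q.2 y`, `Inv N o U s S`. If `t ≤ s`:
  `A ⊆ S`, so `x ∈ S`. If `s < t`: `q.2 ∈ A` (`Inv.next`, `Inv.mono`), so `y ∈ A`: contradiction.
* `ff_unique`. `S = V_s`, `S' = V_{s'}`; if `s < s'` then `S ⊂ S'` (`Inv.mono` and the cardinalities `Inv.card`),
  so the minimality of `S'` says `x ∉ S`: contradiction.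
* `ff_exists`. The set of the `s` for which there is `A` with `Inv N o U s A`, `Full A`, `x ∈ A` is nonempty; take
  the smallest `s` (`Nat.find`) and its set `S`. If `A ⊂ S`, `Inv N o U s' A`, `Full A`, `x ∈ A` then `s' < s` by the
  cardinalities: contradiction. And `S ⊆ A₀` for every full invaded `A₀ ∋ x` (by `Inv.mono`, minimality of `s`),
  so `y ∉ A₀` implies `y ∉ S`.
* `sep_split`. `ff_exists` gives `S₀`; `sep_gate` gives `(S, q)` with `x ∈ S`, `S` full and invaded, so `S₀ ⊆ S`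
  (third part of `ff_exists`). If `q.2 ∈ R` take the second alternative. If `q.2 ∉ R`: `z = q.2`,
  `Con N Sᶜ p U y q.2` (`Con.symm`), then `Con N S₀ᶜ p U y q.2` by `Con.mono`.
-/

set_option autoImplicit false
set_option linter.unusedSectionVars false

noncomputable section

open scoped Classical

namespace IPC

variable {V : Type} [DecidableEq V] {N : V → Finset V} {o : V} {p : ℝ} {U U' : Sym2 V → ℝ} {t t' : ℕ}
  {A A' B S S' C : Finset V} {q q' : V × V} {x y v : V}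

/-- `S` is the first full invaded set which contains `x` -/
def FirstFull (N : V → Finset V) (o : V) (p : ℝ) (U : Sym2 V → ℝ) (S : Finset V) (x : V) : Prop :=
  (∃ t, Inv N o U t S) ∧ Full N p U S ∧ x ∈ S ∧
    ∀ A, A ⊂ S → (∃ s, Inv N o U s A) → Full N p U A → x ∉ A

private theorem detca_aux (hU : Function.Injective U) (hfin : Fin1 N p U) (hA : Inv N o U t A)
    (hxA : x ∈ A) (n : ℕ) : ∀ (s : ℕ) (S : Finset V), Inv N o U s S → Full N p U S → x ∉ S →
      t - s ≤ n → ∃ S' q, Gate N o p U S' q ∧ Con N (S' : Set V)ᶜ p U q.2 x := by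
  induction n with
  | zero =>
    intro s S hS _ hx ht
    exact absurd (Inv.mono hU hA hS (by omega) hxA) hx
  | succ n ih =>
    intro s S hS hF hx ht
    rcases Nat.lt_or_ge s t with hst | hst
    · obtain ⟨B, hB, _⟩ := hA.pre (show s + 1 ≤ t from hst)
      cases hB with
      | step _ A₁ q hA₁ hq hm =>
        have e : A₁ = S := Inv.uniq hU hA₁ hS
        subst e
        obtain ⟨t', C, hlt, hC, hI, hF'⟩ := piece1 hfin hS hF ⟨hq, hm⟩
        by_cases hxC : x ∈ C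
        · refine ⟨A₁, q, ⟨⟨s, hS⟩, hF, hq, hm⟩, ?_⟩
          have h1 : x ∈ (C : Set V) := hxC
          rw [hC] at h1
          exact h1
        · refine ih t' _ hI hF' ?_ (by omega)
          rw [Finset.mem_union]
          exact fun h => h.elim hx hxC
    · exact absurd (Inv.mono hU hA hS hst hxA) hx

theorem piece_exists (hU : Function.Injective U) (hfin : Fin1 N p U) (hx : x ∈ ipc N o U) :
    Con N Set.univ p U o x ∨ ∃ S q, Gate N o p U S q ∧ Con N (S : Set V)ᶜ p U q.2 x := by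
  obtain ⟨t, A, hA, hxA⟩ := hx
  obtain ⟨t₀, C, hC, hI, hF⟩ := piece0 (o := o) hfin
  by_cases hxC : x ∈ C
  · left
    have h1 : x ∈ (C : Set V) := hxC
    rw [hC] at h1
    exact h1
  · right
    exact detca_aux hU hfin hA hxA t t₀ C hI hF hxC (Nat.sub_le _ _)

private theorem detca_lt {s s' : ℕ} (hU : Function.Injective U) (hs : Inv N o U s S)
    (hq : Amin N U S q) (hx : Con N (S : Set V)ᶜ p U q.2 x) (hs' : Inv N o U s' S')
    (hF' : Full N p U S') (hlt : s < s') : x ∈ S' :=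
  hF'.con (Inv.mono hU (hs.next hq) hs' hlt (Finset.mem_insert_self _ _)) hx

theorem piece_unique (hU : Function.Injective U) (h : Gate N o p U S q)
    (hx : Con N (S : Set V)ᶜ p U q.2 x) (h' : Gate N o p U S' q')
    (hx' : Con N (S' : Set V)ᶜ p U q'.2 x) : S = S' ∧ q = q' := by
  obtain ⟨⟨s, hs⟩, hF, hq⟩ := h
  obtain ⟨⟨s', hs'⟩, hF', hq'⟩ := h'
  rcases lt_trichotomy s s' with hlt | heq | hgt
  · exact absurd (detca_lt hU hs hq hx hs' hF' hlt) hx'.mem_right
  · subst heq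
    have e := Inv.uniq hU hs hs'
    subst e
    exact ⟨rfl, Amin.uniq hU hq hq'⟩
  · exact absurd (detca_lt hU hs' hq' hx' hs hF hgt) hx.mem_right

theorem piece_excl (h : Gate N o p U S q) (hx : Con N (S : Set V)ᶜ p U q.2 x) :
    ¬ Con N Set.univ p U o x := by
  obtain ⟨⟨s, hs⟩, hF, hq⟩ := h
  intro hc
  exact hx.mem_right (hF.con hs.mem_o hc)

theorem same_piece (hU : Function.Injective U) (hfin : Fin1 N p U) (hx : x ∈ ipc N o U)
    (h1 : ¬ Sep N o p U x y) (h2 : ¬ Sep N o p U y x) :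
    (Con N Set.univ p U o x ∧ Con N Set.univ p U o y) ∨
      ∃ S q, Gate N o p U S q ∧ Con N (S : Set V)ᶜ p U q.2 x ∧ Con N (S : Set V)ᶜ p U q.2 y := by
  rcases piece_exists hU hfin hx with hx | ⟨S, q, hG, hxq⟩
  · left
    refine ⟨hx, ?_⟩
    obtain ⟨t₀, C, hC, hI, hF⟩ := piece0 (o := o) hfin
    have hxC : x ∈ C := by
      have h3 : x ∈ (C : Set V) := by rw [hC]; exact hx
      exact h3
    by_contra hy
    refine h1 ⟨t₀, C, hI, hF, hxC, fun hyC => hy ?_⟩
    have h3 : y ∈ (C : Set V) := hyC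
    rw [hC] at h3
    exact h3
  · right
    refine ⟨S, q, hG, hxq, ?_⟩
    have hxS : x ∉ S := hxq.mem_right
    obtain ⟨⟨s, hs⟩, hF, hq⟩ := hG
    obtain ⟨t', C, _, hC, hI, hF'⟩ := piece1 hfin hs hF hq
    have hxC : x ∈ C := by
      have h3 : x ∈ (C : Set V) := by rw [hC]; exact hxq
      exact h3
    by_contra hy
    have hyS : y ∉ S := fun hyS => h2 ⟨s, S, hs, hF, hyS, hxS⟩
    refine h1 ⟨t', S ∪ C, hI, hF', Finset.mem_union_right _ hxC, fun hyU => ?_⟩
    rcases Finset.mem_union.1 hyU with h4 | h4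
    · exact hyS h4
    · apply hy
      have h3 : y ∈ (C : Set V) := h4
      rw [hC] at h3
      exact h3

theorem sep_gate (hU : Function.Injective U) (hfin : Fin1 N p U) (h : Sep N o p U x y)
    (hy : y ∈ ipc N o U) :
    ∃ S q, Gate N o p U S q ∧ Con N (S : Set V)ᶜ p U q.2 y ∧ x ∈ S := by
  obtain ⟨t, A, hA, hF, hxA, hyA⟩ := h
  rcases piece_exists hU hfin hy with h1 | ⟨S, q, hg, hc⟩
  · exact absurd (hF.con hA.mem_o h1) hyA
  · refine ⟨S, q, hg, hc, ?_⟩
    obtain ⟨⟨s, hs⟩, hFS, ha⟩ := hg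
    rcases Nat.lt_or_ge s t with h2 | h2
    · have h3 : q.2 ∈ A := (Inv.mono hU (hs.next ha) hA h2) (Finset.mem_insert_self _ _)
      exact absurd (hF.con h3 hc) hyA
    · exact Inv.mono hU hA hs h2 hxA

theorem ff_unique (hU : Function.Injective U) (h : FirstFull N o p U S x)
    (h' : FirstFull N o p U S' x) : S = S' := by
  obtain ⟨⟨s, hs⟩, hF, hx, hm⟩ := h
  obtain ⟨⟨s', hs'⟩, hF', hx', hm'⟩ := h'
  rcases lt_trichotomy s s' with h1 | h1 | h1
  · have h2 : S ⊆ S' := Inv.mono hU hs hs' h1.le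
    have h3 : S ≠ S' := by
      intro h4
      have h5 := hs.card
      rw [h4, hs'.card] at h5
      omega
    exact absurd hx (hm' S (Finset.ssubset_iff_subset_ne.2 ⟨h2, h3⟩) ⟨s, hs⟩ hF)
  · subst h1
    exact Inv.uniq hU hs hs'
  · have h2 : S' ⊆ S := Inv.mono hU hs' hs h1.le
    have h3 : S' ≠ S := by
      intro h4
      have h5 := hs'.card
      rw [h4, hs.card] at h5
      omega
    exact absurd hx' (hm S' (Finset.ssubset_iff_subset_ne.2 ⟨h2, h3⟩) ⟨s', hs'⟩ hF')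

theorem ff_exists (hU : Function.Injective U) (h : Sep N o p U x y) :
    ∃ S, FirstFull N o p U S x ∧ y ∉ S ∧
      ∀ t A, Inv N o U t A → Full N p U A → x ∈ A → S ⊆ A := by
  obtain ⟨t₀, A₀, hA₀, hF₀, hx₀, hy₀⟩ := h
  have hex : ∃ s, ∃ A, Inv N o U s A ∧ Full N p U A ∧ x ∈ A := ⟨t₀, A₀, hA₀, hF₀, hx₀⟩
  obtain ⟨S, hS, hFS, hxS⟩ := Nat.find_spec hex
  have h3 : ∀ t A, Inv N o U t A → Full N p U A → x ∈ A → S ⊆ A := fun t A hA hF hx =>
    Inv.mono hU hS hA (Nat.find_min' hex ⟨A, hA, hF, hx⟩)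
  refine ⟨S, ⟨⟨_, hS⟩, hFS, hxS, ?_⟩, fun h => hy₀ (h3 _ _ hA₀ hF₀ hx₀ h), h3⟩
  rintro A hAS ⟨s, hs⟩ hF hx
  have h1 := Finset.card_lt_card hAS
  rw [hs.card, hS.card] at h1
  exact Nat.find_min hex (by omega : s < Nat.find hex) ⟨A, hs, hF, hx⟩

theorem sep_split (hU : Function.Injective U) (hN : Sy N) (hfin : Fin1 N p U)
    (h : Sep N o p U x y) (hy : y ∈ ipc N o U) (R : Set V) :
    (∃ S, FirstFull N o p U S x ∧ y ∉ S ∧ ∃ z, z ∉ R ∧ Con N (S : Set V)ᶜ p U y z) ∨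
      ∃ S q, Gate N o p U S q ∧ x ∈ S ∧ q.2 ∈ R := by
  obtain ⟨S₀, hff, hyS, hmin⟩ := ff_exists hU h
  obtain ⟨S, q, hg, hc, hxS⟩ := sep_gate hU hfin h hy
  by_cases hR : q.2 ∈ R
  · exact Or.inr ⟨S, q, hg, hxS, hR⟩
  · refine Or.inl ⟨S₀, hff, hyS, q.2, hR, ?_⟩
    obtain ⟨⟨s, hs⟩, hFS, _⟩ := hg
    have h1 : S₀ ⊆ S := hmin s S hs hFS hxS
    exact Con.mono (Set.compl_subset_compl.2 (Finset.coe_subset.2 h1)) le_rfl (Con.symm hN hc)

/-- the event that `S` is the first full set containing `x` depends only on the edges touching `S` -/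
theorem FirstFull.congr (h : FirstFull N o p U S x) (hE : ∀ e ∈ tch (S : Set V), U e = U' e) :
    FirstFull N o p U' S x := by
  obtain ⟨⟨t, ht⟩, h1, h2, h3⟩ := h
  refine ⟨⟨t, ht.congr hE⟩, h1.congr hE, h2, fun A hA ⟨s, hs⟩ hF => h3 A hA ⟨s, ?_⟩ ?_⟩
  · exact hs.congr fun e he => (hE e (tch_mono (Finset.coe_subset.2 hA.1) he)).symm
  · exact hF.congr fun e he => (hE e (tch_mono (Finset.coe_subset.2 hA.1) he)).symm

end IPC
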