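import Pool.Agent.Lib.MP_25e40f_pr.G.DetB

/-!
# MP_25e40f_pr, stream G, file DetD: removal of an edge, comparison, no infinite descent (JOB DetD)

Everything is deterministic.

* `Inv.to_rem`. Induction on `h`. Step: from `¬ (a ∈ insert q.2 A ∧ b ∈ insert q.2 A)` we get
  `¬ (a ∈ A ∧ b ∈ A)`, so the induction hypothesis applies; `q ∈ bd (rem N s(a, b)) A`: `mem_bd`, `mem_rem`;
  `s(q.1, q.2) = s(a, b)` would give `a, b ∈ insert q.2 A` (`Sym2.eq_iff`); the minimality: `bd (rem ..) A ⊆ bd N A`.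
* `Inv.of_rem`. Induction on `h`. Step: `Inv N o U t A` by induction, `q ∈ bd (rem N e) A ⊆ bd N A`. Let `r` be
  with `Amin N U A r` (`exists_amin`). If `s(r.1, r.2) = s(a, b)` then `Inv.next` gives an invaded set containing
  `a` and `b` (they are `r.1 ∈ A` and `r.2`): contradiction with `hno`. So `r ∈ bd (rem N e) A`, hence
  `U q ≤ U r ≤` everything in `bd N A`.
* `mem_of_mem_rem`: if `a ∉ ipc N o U` then `hno` holds, `Inv.of_rem` gives `a ∈ ipc N o U`.
* `ipc_rem_sub`: the same for any vertex, if `a ∉ ipc N o U`.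
* `mem_rem_of_not`: `Inv N o U t A`, `b ∈ A`, `a ∉ A`: `Inv.to_rem`.
* `not_all_le`. Let `W = ⋃ (a ∈ A) clu N univ p U a`, finite. Claim: for all `k` there is `A'` with
  `Inv N o U (t + k) A'`, `A' ⊆ W`. Step: `hall` gives `bd N A'` nonempty with an element of weight `≤ p`, so the
  `Amin` element `q` has weight `≤ p`, `q.1 ∈ A' ⊆ W` is in the cluster of some `a ∈ A` and so is `q.2`.
  Cardinality: `A'.card = t + k + 1 ≤ W.card` for all `k`: contradiction.
* `mem_of_rem_of_le`: by contradiction `a ∉ ipc N o U`. By `ipc_rem_sub` `b ∈ ipc N o U`: `Inv N o U t A`, `b ∈ A`.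
  For `t' ≥ t`, `Inv N o U t' A'`: `b ∈ A'` (`Inv.mono`), `a ∉ A'`, so `(b, a) ∈ bd N A'` (`a ∈ N b` by `hN`),
  and `U s(b, a) = U s(a, b) ≤ p` (`Sym2.eq_swap`). `not_all_le`.
* `exit_le` (used for the slabs). `H` a set with `o ∈ H`, `x ∉ H`, `Inv N o U t A`, `x ∈ A`. Let `s + 1` be the first
  time at which the invaded set is not contained in `H` (`Nat.find`; at time `0` it is `{o} ⊆ H`):
  `Inv N o U s A₁`, `A₁ ⊆ H`, `Amin N U A₁ q`, `q.2 ∉ H`. By hypothesis the cluster of `q.2` in `D` at level `p'` is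
  infinite. `s + 1 ≤ t` (otherwise `A ⊆ A₁ ⊆ H` by `Inv.mono`), so `q.2 ∈ A`. The infinite cluster is not contained
  in the finite set `A`, so `exists_cross` (DetB) gives a boundary edge of `A` of weight `≤ p'`.
-/

set_option autoImplicit false
set_option linter.unusedSectionVars false

noncomputable section

open scoped Classical

namespace IPC

variable {V : Type} [DecidableEq V] {N : V → Finset V} {o : V} {p : ℝ} {U U' : Sym2 V → ℝ} {t t' : ℕ}
  {A A' B S S' C : Finset V} {q q' : V × V} {x y v a b : V}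

private theorem detda_bd {e : Sym2 V} {r : V × V} (hr : r ∈ bd (rem N e) A) : r ∈ bd N A := by
  rw [mem_bd] at hr ⊢
  exact ⟨hr.1, (mem_rem.1 hr.2.1).1, hr.2.2⟩

theorem Inv.to_rem (h : Inv N o U t A) (hab : ¬ (a ∈ A ∧ b ∈ A)) :
    Inv (rem N s(a, b)) o U t A := by
  induction h with
  | zero => exact Inv.zero
  | step t A q hA hq hm ih =>
    have h1 : ¬ (a ∈ A ∧ b ∈ A) := fun h =>
      hab ⟨Finset.mem_insert_of_mem h.1, Finset.mem_insert_of_mem h.2⟩
    refine Inv.step t A q (ih h1) ?_ fun r hr => hm r (detda_bd hr)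
    rw [mem_bd] at hq ⊢
    refine ⟨hq.1, mem_rem.2 ⟨hq.2.1, ?_⟩, hq.2.2⟩
    intro heq
    apply hab
    rw [Sym2.eq_iff] at heq
    rcases heq with ⟨h3, h4⟩ | ⟨h3, h4⟩
    · exact ⟨h3 ▸ Finset.mem_insert_of_mem hq.1, h4 ▸ Finset.mem_insert_self _ _⟩
    · exact ⟨h4 ▸ Finset.mem_insert_self _ _, h3 ▸ Finset.mem_insert_of_mem hq.1⟩

theorem Inv.of_rem (hno : ∀ t A, Inv N o U t A → ¬ (a ∈ A ∧ b ∈ A))
    (h : Inv (rem N s(a, b)) o U t A) : Inv N o U t A := by
  induction h with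
  | zero => exact Inv.zero
  | step t A q hA hq hm ih =>
    have hq' : q ∈ bd N A := detda_bd hq
    obtain ⟨r, hr⟩ := exists_amin (N := N) (A := A) U ⟨q, hq'⟩
    have hrb := mem_bd.1 hr.1
    by_cases he : s(r.1, r.2) = s(a, b)
    · exfalso
      apply hno _ _ (ih.next hr)
      rw [Sym2.eq_iff] at he
      rcases he with ⟨h3, h4⟩ | ⟨h3, h4⟩
      · exact ⟨h3 ▸ Finset.mem_insert_of_mem hrb.1, h4 ▸ Finset.mem_insert_self _ _⟩
      · exact ⟨h4 ▸ Finset.mem_insert_self _ _, h3 ▸ Finset.mem_insert_of_mem hrb.1⟩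
    · have hr' : r ∈ bd (rem N s(a, b)) A := mem_bd.2 ⟨hrb.1, mem_rem.2 ⟨hrb.2.1, he⟩, hrb.2.2⟩
      exact Inv.step t A q ih hq' fun r' hr'' => (hm r hr').trans (hr.2 r' hr'')

theorem ipc_rem_sub (ha : a ∉ ipc N o U) : ipc (rem N s(a, b)) o U ⊆ ipc N o U := by
  rintro v ⟨t, A, h, hv⟩
  exact ⟨t, A, h.of_rem fun t' A' hA' hab => ha ⟨t', A', hA', hab.1⟩, hv⟩

theorem mem_of_mem_rem (h : a ∈ ipc (rem N s(a, b)) o U) : a ∈ ipc N o U := by
  by_contra ha
  exact ha (ipc_rem_sub ha h)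

theorem mem_rem_of_not (hb : b ∈ ipc N o U) (ha : a ∉ ipc N o U) :
    b ∈ ipc (rem N s(a, b)) o U := by
  obtain ⟨t, A, hA, hbA⟩ := hb
  exact ⟨t, A, hA.to_rem fun h => ha ⟨t, A, hA, h.1⟩, hbA⟩

theorem not_all_le (hfin : Fin1 N p U) (h : Inv N o U t A)
    (hall : ∀ t' A', t ≤ t' → Inv N o U t' A' → ∃ q ∈ bd N A', U s(q.1, q.2) ≤ p) : False := by
  have hW : (⋃ a ∈ A, clu N Set.univ p U a).Finite :=
    Set.Finite.biUnion A.finite_toSet fun a _ => hfin a
  have key : ∀ k : ℕ, ∃ A', Inv N o U (t + k) A' ∧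
      (A' : Set V) ⊆ ⋃ a ∈ A, clu N Set.univ p U a := by
    intro k
    induction k with
    | zero =>
      refine ⟨A, h, fun a ha => ?_⟩
      exact Set.mem_biUnion (Finset.mem_coe.1 ha)
        (show Con N Set.univ p U a a from ⟨Set.mem_univ _, Relation.ReflTransGen.refl⟩)
    | succ k ih =>
      obtain ⟨A', hA', hsub⟩ := ih
      obtain ⟨r, hr, hrp⟩ := hall (t + k) A' (Nat.le_add_right _ _) hA'
      obtain ⟨q, hq⟩ := exists_amin U ⟨r, hr⟩
      refine ⟨insert q.2 A', hA'.next hq, ?_⟩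
      have hb := mem_bd.1 hq.1
      have hqp : U s(q.1, q.2) ≤ p := (hq.2 r hr).trans hrp
      rw [Finset.coe_insert, Set.insert_subset_iff]
      refine ⟨?_, hsub⟩
      obtain ⟨a, ha, hc⟩ := Set.mem_iUnion₂.1 (hsub (Finset.mem_coe.2 hb.1))
      refine Set.mem_biUnion ha ?_
      have hc' : Con N Set.univ p U a q.1 := hc
      exact ⟨Set.mem_univ _, hc'.2.tail ⟨Set.mem_univ _, Set.mem_univ _, hb.2.1, hqp⟩⟩
  obtain ⟨A', hA', hsub⟩ := key (⋃ a ∈ A, clu N Set.univ p U a).ncard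
  have h1 := Set.ncard_le_ncard hsub hW
  rw [Set.ncard_coe_finset, hA'.card] at h1
  omega

theorem mem_of_rem_of_le (hU : Function.Injective U) (hN : Sy N) (hfin : Fin1 N p U)
    (hab : b ∈ N a) (hb : b ∈ ipc (rem N s(a, b)) o U) (hle : U s(a, b) ≤ p) : a ∈ ipc N o U := by
  by_contra ha
  obtain ⟨t, A, h, hbA⟩ := ipc_rem_sub ha hb
  refine not_all_le hfin h fun t' A' ht h' => ⟨(b, a), mem_bd.2 ⟨?_, ?_, ?_⟩, ?_⟩
  · exact Inv.mono hU h h' ht hbA
  · exact hN a b hab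
  · exact fun haA => ha ⟨t', A', h', haA⟩
  · rw [Sym2.eq_swap]
    exact hle

/-- the invasion leaves `H` through `q`, at a time when the invaded set is `A` -/
def Exits (N : V → Finset V) (o : V) (U : Sym2 V → ℝ) (H : Set V) (A : Finset V) (q : V × V) : Prop :=
  (∃ t, Inv N o U t A) ∧ (A : Set V) ⊆ H ∧ Amin N U A q ∧ q.2 ∉ H

theorem exit_le (hU : Function.Injective U) {H D : Set V} {p' : ℝ} (ho : o ∈ H) (hx : x ∉ H)
    (hinf : ∀ A q, Exits N o U H A q → (clu N D p' U q.2).Infinite)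
    (h : Inv N o U t A) (hxA : x ∈ A) : ∃ r ∈ bd N A, U s(r.1, r.2) ≤ p' := by
  have hP : ∃ s, ∃ B, Inv N o U s B ∧ ¬ (B : Set V) ⊆ H :=
    ⟨t, A, h, fun hs => hx (hs (Finset.mem_coe.2 hxA))⟩
  have hspec := Nat.find_spec hP
  have hmin := fun m => Nat.find_min hP (m := m)
  have hle := Nat.find_min' hP ⟨A, h, fun hs => hx (hs (Finset.mem_coe.2 hxA))⟩
  obtain ⟨B, hB, hBH⟩ := hspec
  generalize Nat.find hP = s₀ at hB hmin hle
  cases hB with
  | zero =>
    exfalso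
    apply hBH
    intro y hy
    rw [Finset.coe_singleton, Set.mem_singleton_iff] at hy
    rw [hy]
    exact ho
  | step s A₁ q hA₁ hq hm =>
    have hA₁H : (A₁ : Set V) ⊆ H := by
      by_contra hc
      exact hmin s (Nat.lt_succ_self _) ⟨A₁, hA₁, hc⟩
    have hq2 : q.2 ∉ H := by
      intro hqH
      apply hBH
      rw [Finset.coe_insert, Set.insert_subset_iff]
      exact ⟨hqH, hA₁H⟩
    have hqA : q.2 ∈ A :=
      Inv.mono hU (Inv.step s A₁ q hA₁ hq hm) h hle (Finset.mem_insert_self _ _)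
    obtain ⟨y, hy, hyA⟩ := (hinf A₁ q ⟨⟨s, hA₁⟩, hA₁H, ⟨hq, hm⟩, hq2⟩).exists_notMem_finset A
    obtain ⟨a, b, ha, hb, _, _, hN', hw, _⟩ := exists_cross (B := (A : Set V)) hy hqA hyA
    exact ⟨(a, b), mem_bd.2 ⟨ha, hN', hb⟩, hw⟩

theorem exits_unique (hU : Function.Injective U) {H : Set V} (h : Exits N o U H A q)
    (h' : Exits N o U H A' q') : A = A' ∧ q = q' := by
  obtain ⟨⟨s, hs⟩, hAH, hq, hqH⟩ := h
  obtain ⟨⟨s', hs'⟩, hAH', hq', hqH'⟩ := h'
  rcases lt_trichotomy s s' with hlt | heq | hgt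
  · exact absurd (hAH' (Finset.mem_coe.2 (Inv.mono hU (hs.next hq) hs' hlt
      (Finset.mem_insert_self _ _)))) hqH
  · subst heq
    have e := Inv.uniq hU hs hs'
    subst e
    exact ⟨rfl, Amin.uniq hU hq hq'⟩
  · exact absurd (hAH (Finset.mem_coe.2 (Inv.mono hU (hs'.next hq') hs hgt
      (Finset.mem_insert_self _ _)))) hqH'

theorem Exits.congr {H : Set V} (h : Exits N o U H A q) (hE : ∀ e ∈ tch (A : Set V), U e = U' e) :
    Exits N o U' H A q := by
  obtain ⟨⟨t, ht⟩, h1, h2, h3⟩ := h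
  exact ⟨⟨t, ht.congr hE⟩, h1, h2.congr hE, h3⟩

end IPC
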