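import Pool.Agent.Lib.MP_25e40f_pr.G.MeaC

/-!
# MP_25e40f_pr, stream G, file Edge: neighbouring vertices, used edges (JOB Edge)

* `dep_rem`: `{U | x ∈ ipc (rem N e) o U}` depends only on the coordinates different from `e`: if `U = U'` off `e` and
  `Inv (rem N e) o U t A` then `Inv (rem N e) o U' t A` (induction; the edges of `bd (rem N e) A` are `≠ e` by
  `mem_bd`, `mem_rem`).
* `fI_nbr`. Let `e = s(a, b)`, `R = {U | b ∈ ipc (rem G.nb e) o U}` (measurable: `meas_ipc`). `mem_rem_of_not` gives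
  `{b ∈ ipc} ⊆ {a ∈ ipc} ∪ R`; `mem_of_rem_of_le` (for a.e. `U`: `nu_inj`, `hfin`) gives `R ∩ {U e ≤ p} ⊆ {a ∈ ipc}` a.e.;
  independence (`nu_indep`, `dep_rem`, `nu_le`): `nu (R ∩ {U e ≤ p}) = nu R * p`. So
  `fI b ≤ fI a + nu R` and `p * nu R ≤ fI a`.
* `used_le`. The event is contained in `{a ∈ ipc (rem G.nb e) o U} ∩ {p < U e ≤ p'}`: `Inv.to_rem` (`b ∉ A`).
  Independence, `nu_Ioc`, and `nu {a ∈ ipc (rem ..)} ≤ fI a` (`mem_of_mem_rem`).
* `tau_le_fI`: `tau_eq` and `piece0_mem` (a.e. `U`).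
* `walk`-version `fI_walk`: `b` reachable from `a` by `n` steps of the graph: `fI b ≤ (1 + 1/p) ^ n * fI a` (induction).
-/

set_option autoImplicit false
set_option linter.unusedSectionVars false

noncomputable section

open MeasureTheory Filter
open scoped Classical

namespace IPC

variable {V : Type} [DecidableEq V] [Countable V]

/-- the probability that `x` is invaded -/
def fI (G : PG V) (o x : V) : ℝ := (nu V).real {U | x ∈ ipc G.nb o U}

theorem fI_nonneg (G : PG V) (o x : V) : 0 ≤ fI G o x := measureReal_nonneg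

theorem dep_rem (N : V → Finset V) (o x : V) (e : Sym2 V) :
    Dep ({e}ᶜ : Set (Sym2 V)) {U : Sym2 V → ℝ | x ∈ ipc (rem N e) o U} := by
  rintro U U' h ⟨t, A, hA, hx⟩
  refine ⟨t, A, ?_, hx⟩
  clear hx
  induction hA with
  | zero => exact Inv.zero
  | step t A q _ hq hm ih =>
    have h1 : ∀ r ∈ bd (rem N e) A, U s(r.1, r.2) = U' s(r.1, r.2) := by
      intro r hr
      apply h
      rw [Set.mem_compl_singleton_iff]
      exact (mem_rem.1 (mem_bd.1 hr).2.1).2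
    refine Inv.step t A q ih hq fun r hr => ?_
    rw [← h1 q hq, ← h1 r hr]
    exact hm r hr

private theorem edge_real_ae {A B : Set (Sym2 V → ℝ)} (h : ∀ᵐ U ∂(nu V), U ∈ A → U ∈ B) :
    (nu V).real A ≤ (nu V).real B :=
  ENNReal.toReal_mono (measure_ne_top _ _) (measure_mono_ae h)

private theorem edge_indep {e : Sym2 V} {A B : Set (Sym2 V → ℝ)} (hA : MeasurableSet A)
    (hB : MeasurableSet B) (dA : Dep ({e}ᶜ : Set (Sym2 V)) A) (dB : Dep {e} B) :
    (nu V).real (A ∩ B) = (nu V).real A * (nu V).real B := by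
  have h := nu_indep hA hB dA (by rw [compl_compl]; exact dB)
  rw [measureReal_def, h, ENNReal.toReal_mul]
  rfl

private theorem edge_dep (e : Sym2 V) (P : ℝ → Prop) :
    Dep {e} {U : Sym2 V → ℝ | P (U e)} := by
  intro U U' h hU
  have h1 : U e = U' e := h e rfl
  show P (U' e)
  rw [← h1]
  exact hU

theorem fI_nbr (G : PG V) (o : V) {p : ℝ} (hp : 0 < p) (hp1 : p ≤ 1)
    (hfin : ∀ᵐ U ∂(nu V), Fin1 G.nb p U) {a b : V} (hab : b ∈ G.nb a) :
    fI G o b ≤ (1 + 1 / p) * fI G o a := by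
  have hR : MeasurableSet {U : Sym2 V → ℝ | b ∈ ipc (rem G.nb s(a, b)) o U} := meas_ipc _ _ _
  have hL : MeasurableSet {U : Sym2 V → ℝ | U s(a, b) ≤ p} :=
    measurableSet_le (measurable_pi_apply _) measurable_const
  have h1 : fI G o b ≤ fI G o a + (nu V).real {U : Sym2 V → ℝ | b ∈ ipc (rem G.nb s(a, b)) o U} := by
    refine le_trans ?_ (measureReal_union_le _ _)
    refine measureReal_mono ?_
    intro U hU
    by_cases ha : a ∈ ipc G.nb o U
    · exact Or.inl ha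
    · exact Or.inr (mem_rem_of_not hU ha)
  have h2 : (nu V).real ({U : Sym2 V → ℝ | b ∈ ipc (rem G.nb s(a, b)) o U} ∩
      {U : Sym2 V → ℝ | U s(a, b) ≤ p}) ≤ fI G o a := by
    refine edge_real_ae ?_
    filter_upwards [nu_inj (V := V), hfin] with U hU hf hb
    exact mem_of_rem_of_le hU G.symm hf hab hb.1 hb.2
  have h3 : (nu V).real {U : Sym2 V → ℝ | U s(a, b) ≤ p} = p := by
    rw [measureReal_def, nu_le _ hp.le hp1, ENNReal.toReal_ofReal hp.le]
  rw [edge_indep hR hL (dep_rem _ _ _ _) (edge_dep s(a, b) (fun z => z ≤ p)), h3] at h2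
  have h4 : (nu V).real {U : Sym2 V → ℝ | b ∈ ipc (rem G.nb s(a, b)) o U} ≤ 1 / p * fI G o a := by
    rw [one_div, ← div_eq_inv_mul, le_div_iff₀ hp]
    exact h2
  calc fI G o b ≤ fI G o a + (nu V).real {U : Sym2 V → ℝ | b ∈ ipc (rem G.nb s(a, b)) o U} := h1
    _ ≤ fI G o a + 1 / p * fI G o a := by linarith
    _ = (1 + 1 / p) * fI G o a := by ring

theorem used_le (G : PG V) (o : V) {p p' : ℝ} (hp : 0 ≤ p) (hpp : p ≤ p') (hp1 : p' ≤ 1) (a b : V) :
    (nu V).real {U | (∃ t A, Inv G.nb o U t A ∧ a ∈ A ∧ b ∉ A) ∧ p < U s(a, b) ∧ U s(a, b) ≤ p'} ≤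
      (p' - p) * fI G o a := by
  have hR : MeasurableSet {U : Sym2 V → ℝ | a ∈ ipc (rem G.nb s(a, b)) o U} := meas_ipc _ _ _
  have hL : MeasurableSet {U : Sym2 V → ℝ | p < U s(a, b) ∧ U s(a, b) ≤ p'} :=
    (measurableSet_lt measurable_const (measurable_pi_apply _)).inter
      (measurableSet_le (measurable_pi_apply _) measurable_const)
  have h1 : (nu V).real {U | (∃ t A, Inv G.nb o U t A ∧ a ∈ A ∧ b ∉ A) ∧ p < U s(a, b) ∧
      U s(a, b) ≤ p'} ≤ (nu V).real ({U : Sym2 V → ℝ | a ∈ ipc (rem G.nb s(a, b)) o U} ∩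
        {U : Sym2 V → ℝ | p < U s(a, b) ∧ U s(a, b) ≤ p'}) := by
    refine measureReal_mono ?_
    rintro U ⟨⟨t, A, hA, ha, hb⟩, hU⟩
    exact ⟨⟨t, A, hA.to_rem (fun h => hb h.2), ha⟩, hU⟩
  have h3 : (nu V).real {U : Sym2 V → ℝ | p < U s(a, b) ∧ U s(a, b) ≤ p'} = p' - p := by
    rw [measureReal_def, nu_Ioc _ hp hpp hp1, ENNReal.toReal_ofReal (sub_nonneg.2 hpp)]
  rw [edge_indep hR hL (dep_rem _ _ _ _) (edge_dep s(a, b) (fun z => p < z ∧ z ≤ p')), h3] at h1
  have h2 : (nu V).real {U : Sym2 V → ℝ | a ∈ ipc (rem G.nb s(a, b)) o U} ≤ fI G o a := by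
    refine measureReal_mono ?_
    intro U hU
    exact mem_of_mem_rem hU
  calc _ ≤ (nu V).real {U : Sym2 V → ℝ | a ∈ ipc (rem G.nb s(a, b)) o U} * (p' - p) := h1
    _ ≤ fI G o a * (p' - p) := mul_le_mul_of_nonneg_right h2 (sub_nonneg.2 hpp)
    _ = (p' - p) * fI G o a := mul_comm _ _

theorem tau_le_fI (G : PG V) (o x : V) {p : ℝ} (hp : 0 ≤ p) (hp1 : p ≤ 1)
    (hfin : ∀ᵐ U ∂(nu V), Fin1 G.nb p U) : G.tau p o x ≤ fI G o x := by
  rw [tau_eq G hp hp1]
  refine edge_real_ae ?_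
  filter_upwards [hfin] with U hU hx
  exact piece0_mem hU hx

end IPC
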