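import Pool.Agent.Lib.MP_25e40f_pr.G.Two

/-!
# MP_25e40f_pr, stream G, file EndA: the sum over the pieces (JOBS EndAa, EndAb, EndAc)

Notation: `V = Fin d → ℤ`, `N = nbZ d`, `ν = nu V`, `J = Finset V × (V × V)` (countable), `tr x F = F.image (x + ·)`.

JOB EndAa: `piece_sum`. The sets `X_j = {U | Gate N o p U S q}` depend on `tch S` (`Gate.congr`), the sets
`Y_j = {U | ∀ z ∈ F, Con N Sᶜ p U q.2 z}` depend on the edges with both endpoints in `Sᶜ`, hence on `(tch S)ᶜ`; `nu_indep`: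
`ν (X_j ∩ Y_j) = ν X_j * ν Y_j`. The sets `X_j ∩ Y_j` are a.e. disjoint if `F` is not empty (`piece_unique` for `z ∈ F`,
`nu_inj`): `ν (⋃ j ∈ T, X_j ∩ Y_j) = ∑ j ∈ T` (`measure_iUnion₀`; for the set `T` of indices use the indicator), in ENNReal; then
real numbers (everything is `≤ 1`, so summable). (For `q.2`, the orientation `Con N Sᶜ p U q.2 z` versus
`Con .. z q.2` does not matter: `Con.symm`.)

JOB EndAb: `rob_inf`: F8 for infinite domains. For `D = Sᶜ`: `D_r = (Zg d).Lam r ∩ D`. For `r` large `v ∈ D_r`, and the box `bx x ρ` is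
contained in `D_r \ {v}`: so the inequality `hι` holds for `D_r`; pass to the limit `r → ∞` with `tendsto_allcon`
(`F = tr x F` and `F = {x}`, `AllConn ω {x} v ↔ Conn ω x v`), `le_of_tendsto_of_tendsto'`.

JOB EndAc: `same_lim`. Let `M x = ν {U | Same x U}`, `Same` as below. Claim: for every `ε > 0` there is `ρ` with, for all `x` with
`‖x‖ > ρ` (so `0 ∉ bx x ρ`):
`|M x - ι f x| ≤ ε f x + (1 + |ι| + ε) ∑_{w ∈ bx x (ρ + 1)} ν {Sep N 0 p U w x ∧ x ∈ ipc}`.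
`M x = ν {∀ z ∈ F, Con univ 0 (x + z)} + ∑_j ν X_j ν Y_j(tr x F)` (`piece_sum`, and the two alternatives are disjoint:
`piece_excl`; `0 ∈ F`), `f x` = the same with `F = {0}` (`piece_exists`, `piece_mem`, `piece0_mem`, a.e. `U`).
Term 0: `rob_inf` with `S = ∅`, `v = 0` (`‖x‖ > ρ`). Good `j` (`bx x ρ` disjoint from `S` and from `q.2`): `rob_inf`,
`|ν Y_j(tr x F) - ι ν Y_j({x})| ≤ ε ν Y_j({x})`. Bad `j`: `|..| ≤ (1 + |ι|) ν Y_j({x})` (`0 ∈ F`: `Y_j(tr x F) ⊆ Y_j({x})`),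
and `∑_{bad j} ν X_j ν Y_j({x}) = ν {∃ bad (S, q), Gate, Con Sᶜ q.2 x} ≤ ∑_w ν {Sep w x ∧ x ∈ ipc}`: a bad `(S, q)` has
`w ∈ S ∩ bx x ρ`, or `q.2 ∈ bx x ρ` and then `w = q.1 ∈ S ∩ bx x (ρ + 1)`; in both cases `Sep N 0 p U w x` with
`A = S` (`x ∈ Sᶜ`), `x ∈ ipc` by `piece_mem`.
Then divide by `f x` (`> 0`) and use `hsep` for `z = w - x`: `w = x + z`, finitely many `z`
(`bx x (ρ + 1) = tr x (bx 0 (ρ + 1))`).
-/

set_option autoImplicit false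
set_option linter.unusedSectionVars false

noncomputable section

open MeasureTheory Filter
open scoped Classical

namespace IPC

variable {d : ℕ}

/-- translate -/
def tr (x : Fin d → ℤ) (F : Finset (Fin d → ℤ)) : Finset (Fin d → ℤ) := F.image fun z => x + z

/-- all the vertices of `F` belong to the same piece of the invaded cluster -/
def Same (N : (Fin d → ℤ) → Finset (Fin d → ℤ)) (o : Fin d → ℤ) (p : ℝ) (U : Sym2 (Fin d → ℤ) → ℝ)
    (F : Finset (Fin d → ℤ)) : Prop :=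
  (∀ z ∈ F, Con N Set.univ p U o z) ∨ ∃ S q, Gate N o p U S q ∧
    ∀ z ∈ F, Con N (S : Set (Fin d → ℤ))ᶜ p U q.2 z

/-- the local limit property (output of stream F) for the finite set `F`, with the number `ι` -/
def Rob (d : ℕ) (p : ℝ) (F : Finset (Fin d → ℤ)) (ι : ℝ) : Prop :=
  ∀ ε : ℝ, 0 < ε → ∃ ρ : ℕ, ∀ (D : Finset (Fin d → ℤ)) (v x : Fin d → ℤ), v ∈ D → bx x ρ ⊆ D →
    v ∉ bx x ρ → |Pr p ((Zg d).ein D) (fun ω => AllConn ω (tr x F) v) - ι * (Zg d).tauD p D x v| ≤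
      ε * (Zg d).tauD p D x v

theorem piece_sum (G : PG (Fin d → ℤ)) (o : Fin d → ℤ) (p : ℝ) (F : Finset (Fin d → ℤ))
    (hF : F.Nonempty) (T : Finset (Fin d → ℤ) → (Fin d → ℤ) × (Fin d → ℤ) → Prop) :
    HasSum (fun j : Finset (Fin d → ℤ) × ((Fin d → ℤ) × (Fin d → ℤ)) => if T j.1 j.2 then
      (nu (Fin d → ℤ)).real {U | Gate G.nb o p U j.1 j.2} *
        (nu (Fin d → ℤ)).real {U | ∀ z ∈ F, Con G.nb (j.1 : Set (Fin d → ℤ))ᶜ p U j.2.2 z} else 0)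
      ((nu (Fin d → ℤ)).real {U | ∃ S q, T S q ∧ Gate G.nb o p U S q ∧
        ∀ z ∈ F, Con G.nb (S : Set (Fin d → ℤ))ᶜ p U q.2 z}) := by
  -- the events
  have hmX : ∀ j : Finset (Fin d → ℤ) × ((Fin d → ℤ) × (Fin d → ℤ)),
      MeasurableSet {U : Sym2 (Fin d → ℤ) → ℝ | Gate G.nb o p U j.1 j.2} :=
    fun j => meas_gate G.nb o p j.1 j.2
  have hmY : ∀ j : Finset (Fin d → ℤ) × ((Fin d → ℤ) × (Fin d → ℤ)),
      MeasurableSet {U : Sym2 (Fin d → ℤ) → ℝ |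
        ∀ z ∈ F, Con G.nb (j.1 : Set (Fin d → ℤ))ᶜ p U j.2.2 z} := by
    intro j
    have h1 : {U : Sym2 (Fin d → ℤ) → ℝ | ∀ z ∈ F, Con G.nb (j.1 : Set (Fin d → ℤ))ᶜ p U j.2.2 z} =
        ⋂ z ∈ F, {U : Sym2 (Fin d → ℤ) → ℝ | Con G.nb (j.1 : Set (Fin d → ℤ))ᶜ p U j.2.2 z} := by
      ext U
      rw [Set.mem_iInter₂]
      rfl
    rw [h1]
    exact Finset.measurableSet_biInter F fun z _ => meas_con G _ p j.2.2 z
  have hmE : ∀ j : Finset (Fin d → ℤ) × ((Fin d → ℤ) × (Fin d → ℤ)),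
      MeasurableSet {U : Sym2 (Fin d → ℤ) → ℝ | T j.1 j.2 ∧ Gate G.nb o p U j.1 j.2 ∧
        ∀ z ∈ F, Con G.nb (j.1 : Set (Fin d → ℤ))ᶜ p U j.2.2 z} := by
    intro j
    by_cases hT : T j.1 j.2
    · have h1 : {U : Sym2 (Fin d → ℤ) → ℝ | T j.1 j.2 ∧ Gate G.nb o p U j.1 j.2 ∧
          ∀ z ∈ F, Con G.nb (j.1 : Set (Fin d → ℤ))ᶜ p U j.2.2 z} =
          {U | Gate G.nb o p U j.1 j.2} ∩
            {U | ∀ z ∈ F, Con G.nb (j.1 : Set (Fin d → ℤ))ᶜ p U j.2.2 z} := by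
        ext U
        exact ⟨fun h => h.2, fun h => ⟨hT, h⟩⟩
      rw [h1]
      exact (hmX j).inter (hmY j)
    · have h1 : {U : Sym2 (Fin d → ℤ) → ℝ | T j.1 j.2 ∧ Gate G.nb o p U j.1 j.2 ∧
          ∀ z ∈ F, Con G.nb (j.1 : Set (Fin d → ℤ))ᶜ p U j.2.2 z} = ∅ := by
        ext U
        exact ⟨fun h => absurd h.1 hT, fun h => absurd h (Set.notMem_empty U)⟩
      rw [h1]
      exact MeasurableSet.empty
  -- the probability of one event
  have hval : ∀ j : Finset (Fin d → ℤ) × ((Fin d → ℤ) × (Fin d → ℤ)),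
      ((nu (Fin d → ℤ)) {U : Sym2 (Fin d → ℤ) → ℝ | T j.1 j.2 ∧ Gate G.nb o p U j.1 j.2 ∧
        ∀ z ∈ F, Con G.nb (j.1 : Set (Fin d → ℤ))ᶜ p U j.2.2 z}).toReal =
      if T j.1 j.2 then
        (nu (Fin d → ℤ)).real {U | Gate G.nb o p U j.1 j.2} *
        (nu (Fin d → ℤ)).real {U | ∀ z ∈ F, Con G.nb (j.1 : Set (Fin d → ℤ))ᶜ p U j.2.2 z}
      else 0 := by
    intro j
    by_cases hT : T j.1 j.2
    · have h1 : {U : Sym2 (Fin d → ℤ) → ℝ | T j.1 j.2 ∧ Gate G.nb o p U j.1 j.2 ∧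
          ∀ z ∈ F, Con G.nb (j.1 : Set (Fin d → ℤ))ᶜ p U j.2.2 z} =
          {U | Gate G.nb o p U j.1 j.2} ∩
            {U | ∀ z ∈ F, Con G.nb (j.1 : Set (Fin d → ℤ))ᶜ p U j.2.2 z} := by
        ext U
        exact ⟨fun h => h.2, fun h => ⟨hT, h⟩⟩
      have hdX : Dep (tch (j.1 : Set (Fin d → ℤ)))
          {U : Sym2 (Fin d → ℤ) → ℝ | Gate G.nb o p U j.1 j.2} :=
        fun U U' hU h => Gate.congr h hU
      have hdY : Dep (tch (j.1 : Set (Fin d → ℤ)))ᶜ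
          {U : Sym2 (Fin d → ℤ) → ℝ | ∀ z ∈ F, Con G.nb (j.1 : Set (Fin d → ℤ))ᶜ p U j.2.2 z} := by
        intro U U' hU h z hz
        refine (h z hz).congr fun a ha b hb => hU _ ?_
        rintro ⟨x, hx, he⟩
        rcases Sym2.mem_iff.1 he with h2 | h2
        · exact ha (h2 ▸ hx)
        · exact hb (h2 ▸ hx)
      rw [h1, nu_indep (hmX j) (hmY j) hdX hdY, ENNReal.toReal_mul, if_pos hT]
      rfl
    · have h1 : {U : Sym2 (Fin d → ℤ) → ℝ | T j.1 j.2 ∧ Gate G.nb o p U j.1 j.2 ∧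
          ∀ z ∈ F, Con G.nb (j.1 : Set (Fin d → ℤ))ᶜ p U j.2.2 z} = ∅ := by
        ext U
        exact ⟨fun h => absurd h.1 hT, fun h => absurd h (Set.notMem_empty U)⟩
      rw [h1, if_neg hT, measure_empty, ENNReal.toReal_zero]
  -- the union
  have hU : {U : Sym2 (Fin d → ℤ) → ℝ | ∃ S q, T S q ∧ Gate G.nb o p U S q ∧
      ∀ z ∈ F, Con G.nb (S : Set (Fin d → ℤ))ᶜ p U q.2 z} =
      ⋃ j : Finset (Fin d → ℤ) × ((Fin d → ℤ) × (Fin d → ℤ)),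
        {U : Sym2 (Fin d → ℤ) → ℝ | T j.1 j.2 ∧ Gate G.nb o p U j.1 j.2 ∧
          ∀ z ∈ F, Con G.nb (j.1 : Set (Fin d → ℤ))ᶜ p U j.2.2 z} := by
    ext U
    rw [Set.mem_iUnion]
    exact ⟨fun ⟨S, q, h⟩ => ⟨(S, q), h⟩, fun ⟨j, h⟩ => ⟨j.1, j.2, h⟩⟩
  -- the events are disjoint up to null sets
  have hdis : Pairwise (Function.onFun (AEDisjoint (nu (Fin d → ℤ)))
      fun j : Finset (Fin d → ℤ) × ((Fin d → ℤ) × (Fin d → ℤ)) =>
        {U : Sym2 (Fin d → ℤ) → ℝ | T j.1 j.2 ∧ Gate G.nb o p U j.1 j.2 ∧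
          ∀ z ∈ F, Con G.nb (j.1 : Set (Fin d → ℤ))ᶜ p U j.2.2 z}) := by
    intro j j' hjj
    have h1 : (nu (Fin d → ℤ)) {U | ¬ Function.Injective U} = 0 :=
      ae_iff.1 (nu_inj (V := Fin d → ℤ))
    refine measure_mono_null ?_ h1
    rintro U ⟨⟨_, h2, h3⟩, ⟨_, h4, h5⟩⟩ hinj
    obtain ⟨z, hz⟩ := hF
    obtain ⟨h6, h7⟩ := piece_unique hinj h2 (h3 z hz) h4 (h5 z hz)
    exact hjj (Prod.ext h6 h7)
  have htop : (∑' j : Finset (Fin d → ℤ) × ((Fin d → ℤ) × (Fin d → ℤ)),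
      (nu (Fin d → ℤ)) {U : Sym2 (Fin d → ℤ) → ℝ | T j.1 j.2 ∧ Gate G.nb o p U j.1 j.2 ∧
        ∀ z ∈ F, Con G.nb (j.1 : Set (Fin d → ℤ))ᶜ p U j.2.2 z}) ≠ ⊤ := by
    rw [← measure_iUnion₀ hdis fun j => (hmE j).nullMeasurableSet]
    exact measure_ne_top _ _
  have hsum := ENNReal.hasSum_toReal htop
  rw [← ENNReal.tsum_toReal_eq (fun j => measure_ne_top _ _),
    ← measure_iUnion₀ hdis fun j => (hmE j).nullMeasurableSet, ← hU] at hsum
  refine hsum.congr_fun ?_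
  intro j
  exact (hval j).symm

private theorem endab_lam_mono (G : PG (Fin d → ℤ)) {r s : ℕ} (h : r ≤ s) : G.Lam r ⊆ G.Lam s := by
  induction h with
  | refl => exact Finset.Subset.refl _
  | step _ ih => exact ih.trans (G.mono _)

private theorem endab_lam (G : PG (Fin d → ℤ)) (K : Finset (Fin d → ℤ)) : ∃ r₀, ∀ r, r₀ ≤ r → K ⊆ G.Lam r := by
  induction K using Finset.induction_on with
  | empty => exact ⟨0, fun r _ => Finset.empty_subset _⟩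
  | insert a K _ ih =>
    obtain ⟨r₁, h1⟩ := ih
    obtain ⟨r₂, h2⟩ := G.cover a
    refine ⟨max r₁ r₂, fun r hr => ?_⟩
    intro z hz
    rcases Finset.mem_insert.1 hz with rfl | hz
    · exact endab_lam_mono G ((le_max_right _ _).trans hr) h2
    · exact h1 r ((le_max_left _ _).trans hr) hz

private theorem endab_mem_bx {x y : Fin d → ℤ} {s : ℕ} :
    y ∈ bx x s ↔ ∀ i, x i - s ≤ y i ∧ y i ≤ x i + s := by
  unfold bx
  rw [Fintype.mem_piFinset]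
  exact ⟨fun h i => Finset.mem_Icc.1 (h i), fun h i => Finset.mem_Icc.2 (h i)⟩

private theorem endab_bx_mono {x : Fin d → ℤ} {r s : ℕ} (h : r ≤ s) : bx x r ⊆ bx x s := by
  intro y hy
  rw [endab_mem_bx] at hy ⊢
  have h' : (r : ℤ) ≤ s := by exact_mod_cast h
  intro i
  have h1 := hy i
  constructor <;> linarith [h1.1, h1.2]

private theorem endab_tr (F : Finset (Fin d → ℤ)) : ∃ R : ℕ, ∀ x : Fin d → ℤ, tr x F ⊆ bx x R := by
  refine ⟨∑ z ∈ F, ∑ i, (z i).natAbs, fun x y hy => ?_⟩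
  unfold tr at hy
  rw [Finset.mem_image] at hy
  obtain ⟨z, hz, rfl⟩ := hy
  rw [endab_mem_bx]
  intro i
  have h1 : (z i).natAbs ≤ ∑ i, (z i).natAbs :=
    Finset.single_le_sum (f := fun i => (z i).natAbs) (fun _ _ => Nat.zero_le _) (Finset.mem_univ i)
  have h2 : ∑ i, (z i).natAbs ≤ ∑ z ∈ F, ∑ i, (z i).natAbs :=
    Finset.single_le_sum (f := fun z : Fin d → ℤ => ∑ i, (z i).natAbs)
      (fun _ _ => Nat.zero_le _) hz
  have h3 : (x + z) i = x i + z i := rfl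
  rw [h3]
  omega

theorem rob_inf {p : ℝ} (hp : 0 ≤ p) (hp1 : p ≤ 1) {F : Finset (Fin d → ℤ)} (h0 : (0 : Fin d → ℤ) ∈ F)
    {ι : ℝ} (hι : Rob d p F ι) {ε : ℝ} (hε : 0 < ε) :
    ∃ ρ : ℕ, ∀ (S : Finset (Fin d → ℤ)) (v x : Fin d → ℤ), v ∉ S → Disjoint (bx x ρ) S →
      v ∉ bx x ρ →
      |(nu (Fin d → ℤ)).real {U | ∀ z ∈ tr x F, Con (nbZ d) (S : Set (Fin d → ℤ))ᶜ p U v z} -
        ι * (nu (Fin d → ℤ)).real {U | Con (nbZ d) (S : Set (Fin d → ℤ))ᶜ p U v x}| ≤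
      ε * (nu (Fin d → ℤ)).real {U | Con (nbZ d) (S : Set (Fin d → ℤ))ᶜ p U v x} := by
  obtain ⟨ρ₁, hρ₁⟩ := hι ε hε
  obtain ⟨R, hR⟩ := endab_tr F
  refine ⟨max ρ₁ R, ?_⟩
  intro S v x hvS hdisj hvb
  have b1 : bx x ρ₁ ⊆ bx x (max ρ₁ R) := endab_bx_mono (le_max_left _ _)
  have b2 : bx x R ⊆ bx x (max ρ₁ R) := endab_bx_mono (le_max_right _ _)
  obtain ⟨D, hD⟩ : ∃ D : Set (Fin d → ℤ), D = (S : Set (Fin d → ℤ))ᶜ := ⟨_, rfl⟩
  rw [← hD]
  have hbD : ∀ y ∈ bx x (max ρ₁ R), y ∈ D := by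
    intro y hy
    rw [hD, Set.mem_compl_iff, Finset.mem_coe]
    exact Finset.disjoint_left.1 hdisj hy
  have hvD : v ∈ D := by
    rw [hD, Set.mem_compl_iff, Finset.mem_coe]
    exact hvS
  have hF : ((tr x F : Finset (Fin d → ℤ)) : Set (Fin d → ℤ)) ⊆ D := fun y hy =>
    hbD y (b2 (hR x (Finset.mem_coe.1 hy)))
  have hxF : x ∈ tr x F := by
    unfold tr
    rw [Finset.mem_image]
    exact ⟨0, h0, add_zero x⟩
  have hx : (({x} : Finset (Fin d → ℤ)) : Set (Fin d → ℤ)) ⊆ D := by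
    intro y hy
    rw [Finset.mem_coe, Finset.mem_singleton] at hy
    rw [hy]
    exact hF (Finset.mem_coe.2 hxF)
  have hN : Sy (nbZ d) := (Zg d).symm
  have h1 := tendsto_allcon (Zg d) hp hp1 D (tr x F) hF v
  have h2 := tendsto_allcon (Zg d) hp hp1 D {x} hx v
  have e1 : {U : Sym2 (Fin d → ℤ) → ℝ | ∀ f ∈ tr x F, Con (Zg d).nb D p U f v} =
      {U | ∀ z ∈ tr x F, Con (nbZ d) D p U v z} := by
    ext U
    exact ⟨fun h z hz => Con.symm hN (h z hz), fun h z hz => Con.symm hN (h z hz)⟩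
  have e2 : {U : Sym2 (Fin d → ℤ) → ℝ | ∀ f ∈ ({x} : Finset (Fin d → ℤ)), Con (Zg d).nb D p U f v} =
      {U | Con (nbZ d) D p U v x} := by
    ext U
    constructor
    · intro h
      exact Con.symm hN (h x (Finset.mem_singleton_self x))
    · intro h z hz
      rw [Finset.mem_singleton] at hz
      rw [hz]
      exact Con.symm hN h
  rw [e1] at h1
  rw [e2] at h2
  have h3 := (h1.sub (h2.const_mul ι)).abs
  have h4 := h2.const_mul ε
  refine le_of_tendsto_of_tendsto h3 h4 ?_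
  obtain ⟨r₀, hr₀⟩ := endab_lam (Zg d) (insert v (bx x ρ₁))
  filter_upwards [eventually_ge_atTop r₀] with r hr
  have k1 : v ∈ ((Zg d).Lam r).filter fun z => z ∈ D :=
    Finset.mem_filter.2 ⟨hr₀ r hr (Finset.mem_insert_self _ _), hvD⟩
  have k2 : bx x ρ₁ ⊆ ((Zg d).Lam r).filter fun z => z ∈ D := fun y hy =>
    Finset.mem_filter.2 ⟨hr₀ r hr (Finset.mem_insert_of_mem hy), hbD y (b1 hy)⟩
  have k3 := hρ₁ _ v x k1 k2 fun h => hvb (b1 h)
  have k4 : (Zg d).tauD p (((Zg d).Lam r).filter fun z => z ∈ D) x v =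
      Pr p ((Zg d).ein (((Zg d).Lam r).filter fun z => z ∈ D)) (fun ω => AllConn ω {x} v) := by
    unfold PG.tauD
    congr 1
    funext ω
    unfold AllConn
    apply propext
    constructor
    · intro h f hf
      rw [Finset.mem_singleton] at hf
      rw [hf]
      exact h
    · intro h
      exact h x (Finset.mem_singleton_self x)
  rw [k4] at k3
  exact k3

private theorem endac_sy : Sy (nbZ d) := fun x y h => nbZ_symm d x y h

private theorem endac_meas (D : Set (Fin d → ℤ)) (p : ℝ) (F : Finset (Fin d → ℤ)) (v : Fin d → ℤ) :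
    MeasurableSet {U : Sym2 (Fin d → ℤ) → ℝ | ∀ z ∈ F, Con (nbZ d) D p U v z} := by
  have h := meas_allcon (Zg d) D p F v
  have h1 : {U : Sym2 (Fin d → ℤ) → ℝ | ∀ z ∈ F, Con (nbZ d) D p U v z} =
      {U | ∀ f ∈ F, Con (Zg d).nb D p U f v} := by
    ext U
    exact ⟨fun h z hz => Con.symm endac_sy (h z hz), fun h z hz => Con.symm endac_sy (h z hz)⟩
  rw [h1]
  exact h

private theorem endac_box {x a b : Fin d → ℤ} {ρ : ℕ} (hb : b ∈ bx x ρ) (h : b ∈ nbZ d a) :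
    a ∈ bx x (ρ + 1) := by
  obtain ⟨i, s, hs, rfl⟩ := (mem_nbZ d b a).1 (nbZ_symm d a b h)
  unfold bx at hb ⊢
  rw [Fintype.mem_piFinset] at hb ⊢
  intro j
  have h1 := hb j
  rw [Finset.mem_Icc] at h1 ⊢
  push_cast
  by_cases hj : j = i
  · subst hj
    rw [Function.update_self]
    rcases hs with rfl | rfl <;> constructor <;> linarith [h1.1, h1.2]
  · rw [Function.update_of_ne hj]
    constructor <;> linarith [h1.1, h1.2]

private theorem endac_mono {x : Fin d → ℤ} {ρ : ℕ} : bx x ρ ⊆ bx x (ρ + 1) := by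
  intro b hb
  unfold bx at hb ⊢
  rw [Fintype.mem_piFinset] at hb ⊢
  intro j
  have h1 := hb j
  rw [Finset.mem_Icc] at h1 ⊢
  push_cast
  constructor <;> linarith [h1.1, h1.2]

/-- the sum over all the pieces -/
private theorem endac_sum {p : ℝ} {F : Finset (Fin d → ℤ)} (hF : F.Nonempty) :
    HasSum (fun j : Finset (Fin d → ℤ) × ((Fin d → ℤ) × (Fin d → ℤ)) =>
      (nu (Fin d → ℤ)).real {U | Gate (nbZ d) 0 p U j.1 j.2} *
        (nu (Fin d → ℤ)).real {U | ∀ z ∈ F, Con (nbZ d) (j.1 : Set (Fin d → ℤ))ᶜ p U j.2.2 z})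
      ((nu (Fin d → ℤ)).real {U | Same (nbZ d) 0 p U F} -
        (nu (Fin d → ℤ)).real {U | ∀ z ∈ F, Con (nbZ d) Set.univ p U 0 z}) := by
  have h := piece_sum (Zg d) 0 p F hF (fun _ _ => True)
  have h1 : HasSum (fun j : Finset (Fin d → ℤ) × ((Fin d → ℤ) × (Fin d → ℤ)) =>
      (nu (Fin d → ℤ)).real {U | Gate (nbZ d) 0 p U j.1 j.2} *
        (nu (Fin d → ℤ)).real {U | ∀ z ∈ F, Con (nbZ d) (j.1 : Set (Fin d → ℤ))ᶜ p U j.2.2 z})
      ((nu (Fin d → ℤ)).real {U | ∃ S q, True ∧ Gate (Zg d).nb 0 p U S q ∧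
        ∀ z ∈ F, Con (Zg d).nb (S : Set (Fin d → ℤ))ᶜ p U q.2 z}) := by
    simp only [if_true] at h
    exact h
  have h2 : (nu (Fin d → ℤ)).real {U | Same (nbZ d) 0 p U F} =
      (nu (Fin d → ℤ)).real {U | ∀ z ∈ F, Con (nbZ d) Set.univ p U 0 z} +
      (nu (Fin d → ℤ)).real {U | ∃ S q, True ∧ Gate (Zg d).nb 0 p U S q ∧
        ∀ z ∈ F, Con (Zg d).nb (S : Set (Fin d → ℤ))ᶜ p U q.2 z} := by
    rw [← measureReal_union' ?_ (endac_meas Set.univ p F 0)]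
    · congr 1
      ext U
      constructor
      · rintro (h3 | ⟨S, q, h3, h4⟩)
        · exact Or.inl h3
        · exact Or.inr ⟨S, q, trivial, h3, h4⟩
      · rintro (h3 | ⟨S, q, _, h3, h4⟩)
        · exact Or.inl h3
        · exact Or.inr ⟨S, q, h3, h4⟩
    · rw [Set.disjoint_left]
      rintro U h3 ⟨S, q, _, h4, h5⟩
      obtain ⟨z, hz⟩ := hF
      exact piece_excl h4 (h5 z hz) (h3 z hz)
  rw [h2, add_sub_cancel_left]
  exact h1

private theorem endac_num {X Y YF ι ε : ℝ} (hX0 : 0 ≤ X) (hY0 : 0 ≤ Y) (hYF0 : 0 ≤ YF)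
    (hYle : YF ≤ Y) (hε : 0 < ε) (T : Prop) [Decidable T]
    (hT : ¬ T → X = 0 ∨ |YF - ι * Y| ≤ ε * Y) :
    |X * YF - ι * (X * Y)| ≤ ε * (X * Y) + (1 + |ι|) * (if T then X * Y else 0) := by
  have hXY : 0 ≤ X * Y := mul_nonneg hX0 hY0
  by_cases h : T
  · rw [if_pos h]
    have h1 : |X * YF - ι * (X * Y)| ≤ X * YF + |ι| * (X * Y) := by
      refine le_trans (abs_sub _ _) ?_
      rw [abs_mul ι (X * Y), abs_of_nonneg hXY, abs_of_nonneg (mul_nonneg hX0 hYF0)]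
    have h2 : X * YF ≤ X * Y := mul_le_mul_of_nonneg_left hYle hX0
    have h3 : 0 ≤ ε * (X * Y) := mul_nonneg hε.le hXY
    linarith
  · rw [if_neg h, mul_zero, add_zero]
    rcases hT h with h1 | h1
    · rw [h1]
      simp
    · have h2 : X * YF - ι * (X * Y) = X * (YF - ι * Y) := by ring
      rw [h2, abs_mul, abs_of_nonneg hX0]
      calc X * |YF - ι * Y| ≤ X * (ε * Y) := mul_le_mul_of_nonneg_left h1 hX0
        _ = ε * (X * Y) := by ring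

private theorem endac_fin {M f C C1 B S ι ε : ℝ}
    (hup : M - C - ι * (f - C1) ≤ ε * (f - C1) + (1 + |ι|) * B)
    (hlo : -(ε * (f - C1) + (1 + |ι|) * B) ≤ M - C - ι * (f - C1))
    (h00 : |C - ι * C1| ≤ ε * C1) (h3 : (1 + |ι|) * B ≤ (1 + |ι| + ε) * S) :
    |M - ι * f| ≤ ε * f + (1 + |ι| + ε) * S := by
  have h1 := abs_le.1 h00
  rw [abs_le]
  constructor
  · linarith [h1.1, h1.2, hup, hlo, h3]
  · linarith [h1.1, h1.2, hup, hlo, h3]

theorem same_one {p : ℝ} (hfin : ∀ᵐ U ∂(nu (Fin d → ℤ)), Fin1 (nbZ d) p U) (x : Fin d → ℤ) :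
    (nu (Fin d → ℤ)).real {U | Same (nbZ d) 0 p U {x}} = fI (Zg d) 0 x := by
  unfold fI
  apply measureReal_congr
  filter_upwards [hfin, nu_inj (V := Fin d → ℤ)] with U h1 h2
  apply propext
  constructor
  · rintro (h3 | ⟨S, q, h3, h4⟩)
    · exact piece0_mem h1 (h3 x (Finset.mem_singleton_self x))
    · exact piece_mem h1 h3 (h4 x (Finset.mem_singleton_self x))
  · intro h3
    rcases piece_exists h2 h1 h3 with h4 | ⟨S, q, h4, h5⟩
    · left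
      intro z hz
      rw [Finset.mem_singleton.1 hz]
      exact h4
    · right
      refine ⟨S, q, h4, fun z hz => ?_⟩
      rw [Finset.mem_singleton.1 hz]
      exact h5

/-- the bad pieces -/
private theorem endac_bad {p : ℝ} (hfin : ∀ᵐ U ∂(nu (Fin d → ℤ)), Fin1 (nbZ d) p U)
    (x : Fin d → ℤ) (ρ : ℕ) (T : Finset (Fin d → ℤ) → (Fin d → ℤ) × (Fin d → ℤ) → Prop)
    (hT : ∀ S q, T S q ↔ (¬ Disjoint (bx x ρ) S ∨ q.2 ∈ bx x ρ)) :
    (nu (Fin d → ℤ)).real {U | ∃ S q, T S q ∧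
        Gate (Zg d).nb 0 p U S q ∧
        ∀ z ∈ ({x} : Finset (Fin d → ℤ)), Con (Zg d).nb (S : Set (Fin d → ℤ))ᶜ p U q.2 z} ≤
      ∑ w ∈ bx x (ρ + 1),
          (nu (Fin d → ℤ)).real {U | Sep (nbZ d) 0 p U w x ∧ x ∈ ipc (nbZ d) 0 U} := by
  refine le_trans ?_ (measureReal_biUnion_finset_le (bx x (ρ + 1))
    (fun w => {U | Sep (nbZ d) 0 p U w x ∧ x ∈ ipc (nbZ d) 0 U}))
  have h : ({U | ∃ S q, T S q ∧
        Gate (Zg d).nb 0 p U S q ∧
        ∀ z ∈ ({x} : Finset (Fin d → ℤ)), Con (Zg d).nb (S : Set (Fin d → ℤ))ᶜ p U q.2 z} :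
          Set (Sym2 (Fin d → ℤ) → ℝ)) ≤ᵐ[nu (Fin d → ℤ)]
      (⋃ w ∈ bx x (ρ + 1), {U | Sep (nbZ d) 0 p U w x ∧ x ∈ ipc (nbZ d) 0 U}) := by
    filter_upwards [hfin] with U h1
    rintro ⟨S, q, h2, h3, h4⟩
    rw [hT] at h2
    have h5 : Con (nbZ d) (S : Set (Fin d → ℤ))ᶜ p U q.2 x := h4 x (Finset.mem_singleton_self x)
    have h6 : x ∈ ipc (nbZ d) 0 U := piece_mem h1 h3 h5
    have h7 : x ∉ S := h5.mem_right
    obtain ⟨⟨t, ht⟩, hFull, hAm⟩ := h3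
    have key : ∃ w ∈ bx x (ρ + 1), w ∈ S := by
      rcases h2 with h2 | h2
      · rw [Finset.not_disjoint_iff] at h2
        obtain ⟨w, hw, hw'⟩ := h2
        exact ⟨w, endac_mono hw, hw'⟩
      · have h8 := mem_bd.1 hAm.1
        exact ⟨q.1, endac_box h2 h8.2.1, h8.1⟩
    obtain ⟨w, hw, hwS⟩ := key
    have h9 : Sep (nbZ d) 0 p U w x := ⟨t, S, ht, hFull, hwS, h7⟩
    show U ∈ ⋃ w ∈ bx x (ρ + 1), {U | Sep (nbZ d) 0 p U w x ∧ x ∈ ipc (nbZ d) 0 U}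
    rw [Set.mem_iUnion₂]
    exact ⟨w, hw, h9, h6⟩
  exact ENNReal.toReal_mono (measure_ne_top _ _) (measure_mono_ae h)

theorem same_bound {p : ℝ} (hp : 0 ≤ p) (hp1 : p ≤ 1)
    (hfin : ∀ᵐ U ∂(nu (Fin d → ℤ)), Fin1 (nbZ d) p U) {F : Finset (Fin d → ℤ)}
    (h0 : (0 : Fin d → ℤ) ∈ F) {ι : ℝ} (hι : Rob d p F ι) {ε : ℝ} (hε : 0 < ε) :
    ∃ ρ : ℕ, ∀ x : Fin d → ℤ, (0 : Fin d → ℤ) ∉ bx x ρ →
      |(nu (Fin d → ℤ)).real {U | Same (nbZ d) 0 p U (tr x F)} - ι * fI (Zg d) 0 x| ≤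
        ε * fI (Zg d) 0 x + (1 + |ι| + ε) * ∑ w ∈ bx x (ρ + 1),
          (nu (Fin d → ℤ)).real {U | Sep (nbZ d) 0 p U w x ∧ x ∈ ipc (nbZ d) 0 U} := by
  obtain ⟨ρ, hρ⟩ := rob_inf hp hp1 h0 hι hε
  refine ⟨ρ, fun x hx => ?_⟩
  have hxF : x ∈ tr x F := Finset.mem_image.2 ⟨0, h0, add_zero x⟩
  have hA := endac_sum (p := p) (F := tr x F) ⟨x, hxF⟩
  have hB := endac_sum (p := p) (F := {x}) (Finset.singleton_nonempty x)
  obtain ⟨T, hTd⟩ : ∃ T : Finset (Fin d → ℤ) → (Fin d → ℤ) × (Fin d → ℤ) → Prop,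
      ∀ S q, T S q ↔ (¬ Disjoint (bx x ρ) S ∨ q.2 ∈ bx x ρ) := ⟨_, fun _ _ => Iff.rfl⟩
  have hC := piece_sum (Zg d) 0 p {x} (Finset.singleton_nonempty x) T
  have hone := same_one hfin x
  have hbad := endac_bad hfin x ρ T hTd
  have hsing : ∀ (D : Set (Fin d → ℤ)) (v : Fin d → ℤ),
      ({U : Sym2 (Fin d → ℤ) → ℝ | ∀ z ∈ ({x} : Finset (Fin d → ℤ)), Con (nbZ d) D p U v z}) =
      {U | Con (nbZ d) D p U v x} := by
    intro D v
    ext U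
    constructor
    · intro h
      exact h x (Finset.mem_singleton_self x)
    · intro h z hz
      rw [Finset.mem_singleton.1 hz]
      exact h
  have h00 : |(nu (Fin d → ℤ)).real {U | ∀ z ∈ tr x F, Con (nbZ d) Set.univ p U 0 z} -
        ι * (nu (Fin d → ℤ)).real {U | ∀ z ∈ ({x} : Finset (Fin d → ℤ)),
          Con (nbZ d) Set.univ p U 0 z}| ≤
      ε * (nu (Fin d → ℤ)).real {U | ∀ z ∈ ({x} : Finset (Fin d → ℤ)),
          Con (nbZ d) Set.univ p U 0 z} := by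
    have h := hρ ∅ 0 x (Finset.notMem_empty _) (Finset.disjoint_empty_right _) hx
    rw [Finset.coe_empty, Set.compl_empty] at h
    rw [hsing]
    exact h
  have hpt : ∀ j : Finset (Fin d → ℤ) × ((Fin d → ℤ) × (Fin d → ℤ)),
      |(nu (Fin d → ℤ)).real {U | Gate (nbZ d) 0 p U j.1 j.2} *
        (nu (Fin d → ℤ)).real {U | ∀ z ∈ tr x F, Con (nbZ d) (j.1 : Set (Fin d → ℤ))ᶜ p U j.2.2 z} -
        ι * ((nu (Fin d → ℤ)).real {U | Gate (nbZ d) 0 p U j.1 j.2} *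
        (nu (Fin d → ℤ)).real {U | ∀ z ∈ ({x} : Finset (Fin d → ℤ)),
          Con (nbZ d) (j.1 : Set (Fin d → ℤ))ᶜ p U j.2.2 z})| ≤
      ε * ((nu (Fin d → ℤ)).real {U | Gate (nbZ d) 0 p U j.1 j.2} *
        (nu (Fin d → ℤ)).real {U | ∀ z ∈ ({x} : Finset (Fin d → ℤ)),
          Con (nbZ d) (j.1 : Set (Fin d → ℤ))ᶜ p U j.2.2 z}) +
      (1 + |ι|) * (if T j.1 j.2 then
        (nu (Fin d → ℤ)).real {U | Gate (Zg d).nb 0 p U j.1 j.2} *
        (nu (Fin d → ℤ)).real {U | ∀ z ∈ ({x} : Finset (Fin d → ℤ)),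
          Con (Zg d).nb (j.1 : Set (Fin d → ℤ))ᶜ p U j.2.2 z} else 0) := by
    rintro ⟨S, q⟩
    refine endac_num measureReal_nonneg measureReal_nonneg measureReal_nonneg ?_ hε _ ?_
    · refine measureReal_mono ?_
      intro U hU z hz
      rw [Finset.mem_singleton.1 hz]
      exact hU x hxF
    · intro hT
      rw [hTd, not_or, not_not] at hT
      by_cases hqS : q.2 ∈ S
      · left
        have h2 : {U : Sym2 (Fin d → ℤ) → ℝ | Gate (nbZ d) 0 p U S q} = ∅ := by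
          rw [Set.eq_empty_iff_forall_notMem]
          rintro U ⟨_, _, hAm⟩
          exact (mem_bd.1 hAm.1).2.2 hqS
        rw [h2, measureReal_empty]
      · right
        have h := hρ S q.2 x hqS hT.1 hT.2
        rw [hsing]
        exact h
  have hL := hA.sub (hB.mul_left ι)
  have hR := (hB.mul_left ε).add (hC.mul_left (1 + |ι|))
  have hup := hasSum_le (fun j => (abs_le.1 (hpt j)).2) hL hR
  have hlo := hasSum_le (fun j => (abs_le.1 (hpt j)).1) hR.neg hL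
  rw [hone] at hup hlo
  have h2 : (0 : ℝ) ≤ ∑ w ∈ bx x (ρ + 1),
      (nu (Fin d → ℤ)).real {U | Sep (nbZ d) 0 p U w x ∧ x ∈ ipc (nbZ d) 0 U} :=
    Finset.sum_nonneg fun w _ => measureReal_nonneg
  have h3 : (1 + |ι|) * (nu (Fin d → ℤ)).real {U | ∃ S q, T S q ∧
        Gate (Zg d).nb 0 p U S q ∧
        ∀ z ∈ ({x} : Finset (Fin d → ℤ)), Con (Zg d).nb (S : Set (Fin d → ℤ))ᶜ p U q.2 z} ≤
      (1 + |ι| + ε) * ∑ w ∈ bx x (ρ + 1),
          (nu (Fin d → ℤ)).real {U | Sep (nbZ d) 0 p U w x ∧ x ∈ ipc (nbZ d) 0 U} := by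
    have h4 : (0 : ℝ) ≤ 1 + |ι| := by positivity
    calc _ ≤ (1 + |ι|) * ∑ w ∈ bx x (ρ + 1),
          (nu (Fin d → ℤ)).real {U | Sep (nbZ d) 0 p U w x ∧ x ∈ ipc (nbZ d) 0 U} :=
        mul_le_mul_of_nonneg_left hbad h4
      _ ≤ _ := mul_le_mul_of_nonneg_right (by linarith) h2
  exact endac_fin hup hlo h00 h3

private theorem endad_bx_tr (x : Fin d → ℤ) (s : ℕ) : bx x s = (bx 0 s).image fun z => x + z := by
  ext y
  rw [Finset.mem_image]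
  unfold bx
  constructor
  · intro hy
    rw [Fintype.mem_piFinset] at hy
    refine ⟨y - x, ?_, by abel⟩
    rw [Fintype.mem_piFinset]
    intro i
    have h1 := Finset.mem_Icc.1 (hy i)
    have h2 : (y - x) i = y i - x i := rfl
    have h3 : (0 : Fin d → ℤ) i = 0 := rfl
    rw [h2, h3, Finset.mem_Icc]
    constructor <;> linarith [h1.1, h1.2]
  · rintro ⟨z, hz, rfl⟩
    rw [Fintype.mem_piFinset] at hz ⊢
    intro i
    have h1 := Finset.mem_Icc.1 (hz i)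
    have h2 : (x + z) i = x i + z i := rfl
    have h3 : (0 : Fin d → ℤ) i = 0 := rfl
    rw [h3] at h1
    rw [h2, Finset.mem_Icc]
    constructor <;> linarith [h1.1, h1.2]

private theorem endad_fin (s : ℕ) : ∀ᶠ x : Fin d → ℤ in cofinite, (0 : Fin d → ℤ) ∉ bx x s := by
  have h : {x : Fin d → ℤ | ¬ (0 : Fin d → ℤ) ∉ bx x s} ⊆ ((bx 0 s : Finset (Fin d → ℤ)) : Set _) := by
    intro x hx
    have hx' : (0 : Fin d → ℤ) ∈ bx x s := not_not.1 hx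
    rw [Finset.mem_coe]
    unfold bx at hx' ⊢
    rw [Fintype.mem_piFinset] at hx' ⊢
    intro i
    have h1 := Finset.mem_Icc.1 (hx' i)
    have h3 : (0 : Fin d → ℤ) i = 0 := rfl
    rw [h3] at h1 ⊢
    rw [Finset.mem_Icc]
    constructor <;> linarith [h1.1, h1.2]
  exact Filter.eventually_cofinite.2 ((Finset.finite_toSet _).subset h)

theorem same_lim {p : ℝ} (hp : 0 ≤ p) (hp1 : p ≤ 1) (hpos : ∀ x, 0 < fI (Zg d) 0 x) (hd : 1 ≤ d)
    (hfin : ∀ᵐ U ∂(nu (Fin d → ℤ)), Fin1 (nbZ d) p U) {F : Finset (Fin d → ℤ)}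
    (h0 : (0 : Fin d → ℤ) ∈ F) {ι : ℝ} (hι : Rob d p F ι)
    (hsep : ∀ z : Fin d → ℤ, Tendsto (fun x : Fin d → ℤ => (nu (Fin d → ℤ)).real
      {U | Sep (nbZ d) 0 p U (x + z) x ∧ x ∈ ipc (nbZ d) 0 U} / fI (Zg d) 0 x) cofinite (nhds 0)) :
    Tendsto (fun x => (nu (Fin d → ℤ)).real {U | Same (nbZ d) 0 p U (tr x F)} / fI (Zg d) 0 x)
      cofinite (nhds ι) := by
  rw [Metric.tendsto_nhds]
  intro δ hδ
  have hε : 0 < δ / 2 := half_pos hδ
  obtain ⟨ρ, hρ⟩ := same_bound hp hp1 hfin h0 hι hε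
  have h1 : Tendsto (fun x : Fin d → ℤ => (1 + |ι| + δ / 2) * ∑ z ∈ bx (0 : Fin d → ℤ) (ρ + 1),
      ((nu (Fin d → ℤ)).real {U | Sep (nbZ d) 0 p U (x + z) x ∧ x ∈ ipc (nbZ d) 0 U} /
        fI (Zg d) 0 x)) cofinite (nhds 0) := by
    have h2 := tendsto_finsetSum (bx (0 : Fin d → ℤ) (ρ + 1)) (fun z _ => hsep z)
    rw [Finset.sum_const_zero] at h2
    have h3 := h2.const_mul (1 + |ι| + δ / 2)
    rw [mul_zero] at h3
    exact h3
  have h4 := (Metric.tendsto_nhds.1 h1) (δ / 2) hε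
  filter_upwards [endad_fin ρ, h4] with x hx hx4
  have hf := hpos x
  have h5 := hρ x hx
  rw [Real.dist_eq, sub_zero] at hx4
  have h6 := (abs_lt.1 hx4).2
  have h7 : ∑ w ∈ bx x (ρ + 1),
      (nu (Fin d → ℤ)).real {U | Sep (nbZ d) 0 p U w x ∧ x ∈ ipc (nbZ d) 0 U} =
      ∑ z ∈ bx (0 : Fin d → ℤ) (ρ + 1),
        (nu (Fin d → ℤ)).real {U | Sep (nbZ d) 0 p U (x + z) x ∧ x ∈ ipc (nbZ d) 0 U} := by
    rw [endad_bx_tr x (ρ + 1), Finset.sum_image]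
    intro a _ b _ hab
    exact add_left_cancel hab
  rw [h7] at h5
  rw [← Finset.sum_div] at h6
  rw [Real.dist_eq]
  have h8 : (nu (Fin d → ℤ)).real {U | Same (nbZ d) 0 p U (tr x F)} / fI (Zg d) 0 x - ι =
      ((nu (Fin d → ℤ)).real {U | Same (nbZ d) 0 p U (tr x F)} - ι * fI (Zg d) 0 x) /
        fI (Zg d) 0 x := by
    rw [sub_div, mul_div_assoc, div_self hf.ne', mul_one]
  rw [h8, abs_div, abs_of_pos hf, div_lt_iff₀ hf]
  rw [← mul_div_assoc, div_lt_iff₀ hf] at h6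
  linarith

end IPC
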