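import Pool.Agent.Lib.MP_25e40f_pr.G.DetC
import Pool.Agent.Lib.MP_25e40f_pr.G.DetD

/-!
# MP_25e40f_pr, stream G, file MeaA: the product measure, independence (JOB MeaA)

* `nu_eval`: `(nu V).map (fun U => U e) = uni` (`MeasureTheory.Measure.infinitePi_map_eval`), and
  `uni (Set.Iic p) = volume (Set.Iic p ∩ Set.Ioo 0 1)`, which is between `volume (Ioo 0 p)` and `volume (Ioc 0 p)`.
* `nu_inj`: `V` is countable, so it suffices that for `i ≠ j` in `Sym2 V` `nu {U | U i = U j} = 0`
  (`ae_all_iff` twice). By `MeasureTheory.Measure.infinitePi_map_eval_prod` the law of `(U i, U j)` is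
  `uni.prod uni`, and the diagonal has measure `0` (`Measure.measure_prod_null`, `uni {x} = 0`; or
  `MeasureTheory.Measure.prod_apply`, `volume` has no atoms and `uni ≤ volume`). `Countable (Sym2 V)`:
  `Quotient` of a countable type (`inferInstance`, or `Quot.mk_surjective.countable`).
* `nu_indep`. `Dep E A` : `A` depends only on the coordinates in `E`. Let `X e U = U e`. `iIndepFun_infinitePi` gives the
  independence of the family; `A` is of the form `r ⁻¹' A'` with `r : (Sym2 V → ℝ) → (E → ℝ)` the restriction and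
  `A' = {u | ext u ∈ A}`, `ext u e = if h : e ∈ E then u ⟨e, h⟩ else 0`; `ext` is measurable
  (`measurable_pi_iff`), so `A'` is measurable, and `A` is measurable for `⨆ e ∈ E, comap (X e)`
  (`MeasurableSpace.pi` is the supremum of the comaps; `Measurable[⨆ ..] r` by `measurable_pi_iff`).
  The same for `B` and `Eᶜ`. Use `ProbabilityTheory.indep_iSup_of_disjoint` (with `S = E`, `T = Eᶜ`).
  (Alternative: `infinitePi_map_piCurry` / an equivalence with a product measure.)
* `nu_map_inj`: for an injective `φ : V' → V` the map `U ↦ (e ↦ U (Sym2.map φ e))` sends `nu V` to `nu V'`: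
  `MeasureTheory.Measure.map_infinitePi_infinitePi_of_inj`, `Sym2.map.injective`.
* `nu_path` (finite energy). Let `B' = {U | (fun e => if e ∈ P then 0 else U e) ∈ B}`; it is measurable, depends only on
  `Pᶜ`, `B ⊆ B'` up to a null set (weights are a.s. `> 0`: `Low B`, i.e. `B` is closed under lowering the weights;
  a.s. `U e ≥ 0` for all `e ∈ P`) and `{U | ∀ e ∈ P, U e ≤ p} ∩ B' ⊆ B`?  NOT literally: a weight `0` is lower than
  `U e`. Here `B` depends on the weights only through `{e | U e ≤ p}` (hypothesis `hB`), so on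
  `{∀ e ∈ P, U e ≤ p}` the weights `U e` and `0` give the same answer (`0 ≤ p`). So
  `nu (B ∩ {∀ e ∈ P, U e ≤ p}) = nu (B' ∩ ..) = nu B' * nu {∀ e ∈ P, U e ≤ p} ≥ nu B * p ^ P.card`
  (`Measure.infinitePi_pi` for the last factor). `B ⊆ B'` everywhere by monotonicity: `hB` with `U' = 0` on `P`.
-/

set_option autoImplicit false
set_option linter.unusedSectionVars false

noncomputable section

open MeasureTheory
open scoped Classical

namespace IPC

variable {V : Type} [DecidableEq V] [Countable V]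

/-- `A` depends only on the coordinates in `E` -/
def Dep (E : Set (Sym2 V)) (A : Set (Sym2 V → ℝ)) : Prop :=
  ∀ U U' : Sym2 V → ℝ, (∀ e ∈ E, U e = U' e) → U ∈ A → U' ∈ A

theorem Dep.mono {E E' : Set (Sym2 V)} {A : Set (Sym2 V → ℝ)} (h : Dep E A) (hE : E ⊆ E') :
    Dep E' A := fun U U' hU hA => h U U' (fun e he => hU e (hE he)) hA

theorem Dep.inter {E : Set (Sym2 V)} {A B : Set (Sym2 V → ℝ)} (h : Dep E A) (h' : Dep E B) :
    Dep E (A ∩ B) := fun U U' hU hA => ⟨h U U' hU hA.1, h' U U' hU hA.2⟩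

theorem Dep.compl {E : Set (Sym2 V)} {A : Set (Sym2 V → ℝ)} (h : Dep E A) : Dep E Aᶜ :=
  fun U U' hU hA hA' => hA (h U' U (fun e he => (hU e he).symm) hA')

omit [DecidableEq V] [Countable V] in
theorem nu_le (e : Sym2 V) {p : ℝ} (hp : 0 ≤ p) (hp1 : p ≤ 1) :
    nu V {U | U e ≤ p} = ENNReal.ofReal p := by
  have h1 : nu V {U | U e ≤ p} = uni (Set.Iic p) := by
    have h2 := Measure.infinitePi_map_eval (fun _ : Sym2 V => uni) e
    rw [← h2, Measure.map_apply (measurable_pi_apply e) measurableSet_Iic]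
    rfl
  rw [h1]
  unfold uni
  rw [Measure.restrict_apply measurableSet_Iic]
  apply le_antisymm
  · have h3 : Set.Iic p ∩ Set.Ioo 0 1 ⊆ Set.Ioc 0 p := fun x hx => ⟨hx.2.1, hx.1⟩
    refine (measure_mono h3).trans ?_
    rw [Real.volume_Ioc, sub_zero]
  · have h3 : Set.Ioo 0 p ⊆ Set.Iic p ∩ Set.Ioo 0 1 := fun x hx =>
      ⟨hx.2.le, hx.1, lt_of_lt_of_le hx.2 hp1⟩
    refine le_trans ?_ (measure_mono h3)
    rw [Real.volume_Ioo, sub_zero]

omit [DecidableEq V] [Countable V] in
theorem nu_Ioc (e : Sym2 V) {p p' : ℝ} (hp : 0 ≤ p) (hpp : p ≤ p') (hp1 : p' ≤ 1) :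
    nu V {U | p < U e ∧ U e ≤ p'} = ENNReal.ofReal (p' - p) := by
  have h1 : nu V {U | p < U e ∧ U e ≤ p'} = uni (Set.Ioc p p') := by
    have h2 := Measure.infinitePi_map_eval (fun _ : Sym2 V => uni) e
    rw [← h2, Measure.map_apply (measurable_pi_apply e) measurableSet_Ioc]
    rfl
  rw [h1]
  unfold uni
  rw [Measure.restrict_apply measurableSet_Ioc]
  apply le_antisymm
  · refine (measure_mono Set.inter_subset_left).trans ?_
    rw [Real.volume_Ioc]
  · have h3 : Set.Ioo p p' ⊆ Set.Ioc p p' ∩ Set.Ioo 0 1 := fun x hx =>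
      ⟨⟨hx.1, hx.2.le⟩, lt_of_le_of_lt hp hx.1, lt_of_lt_of_le hx.2 hp1⟩
    refine le_trans ?_ (measure_mono h3)
    rw [Real.volume_Ioo]

theorem nu_inj : ∀ᵐ U ∂(nu V), Function.Injective U := by
  have hct : Countable (Sym2 V) := Quot.mk_surjective.countable
  have h1 : ∀ i j : Sym2 V, ∀ᵐ U ∂(nu V), i ≠ j → U i ≠ U j := by
    intro i j
    by_cases hij : i = j
    · exact Filter.Eventually.of_forall fun U h => absurd hij h
    · have hm : MeasurableSet {z : ℝ × ℝ | z.1 = z.2} :=
        measurableSet_eq_fun measurable_fst measurable_snd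
      have h2 := Measure.infinitePi_map_eval_prod (P := fun _ : Sym2 V => uni) hij
      have h3 : nu V {U | U i = U j} = (uni.prod uni) {z : ℝ × ℝ | z.1 = z.2} := by
        rw [← h2, Measure.map_apply (by fun_prop) hm]
        rfl
      have h4 : (uni.prod uni) {z : ℝ × ℝ | z.1 = z.2} = 0 := by
        rw [Measure.measure_prod_null hm]
        refine Filter.Eventually.of_forall fun x => ?_
        have h5 : (Prod.mk x ⁻¹' {z : ℝ × ℝ | z.1 = z.2}) = {x} := by
          ext y
          simp [eq_comm]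
        show uni (Prod.mk x ⁻¹' {z : ℝ × ℝ | z.1 = z.2}) = 0
        rw [h5]
        unfold uni
        have h6 : (volume.restrict (Set.Ioo (0 : ℝ) 1)) {x} ≤ volume {x} :=
          Measure.restrict_apply_le _ _
        rw [Real.volume_singleton] at h6
        exact le_antisymm h6 bot_le
      rw [h4] at h3
      have h7 : ∀ᵐ U ∂(nu V), ¬ (U i = U j) := by
        rw [ae_iff]
        simpa using h3
      filter_upwards [h7] with U hU _ using hU
  have h8 : ∀ᵐ U ∂(nu V), ∀ i j : Sym2 V, i ≠ j → U i ≠ U j :=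
    ae_all_iff.2 fun i => ae_all_iff.2 fun j => h1 i j
  filter_upwards [h8] with U hU i j hij
  by_contra hne
  exact hU i j hne hij

/-- the sigma algebra generated by the coordinates in `E` -/
@[instance_reducible] private def meaab_sig (E : Set (Sym2 V)) : MeasurableSpace (Sym2 V → ℝ) :=
  ⨆ e ∈ E, MeasurableSpace.comap (fun U : Sym2 V → ℝ => U e) inferInstance

omit [DecidableEq V] [Countable V] in
private theorem meaab_meas {E : Set (Sym2 V)} {A : Set (Sym2 V → ℝ)} (hA : MeasurableSet A)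
    (dA : Dep E A) : MeasurableSet[meaab_sig E] A := by
  have h1 : @Measurable _ _ (meaab_sig E) MeasurableSpace.pi
      (fun U : Sym2 V → ℝ => fun e => if e ∈ E then U e else 0) := by
    refine (@measurable_pi_iff _ _ _ (meaab_sig E) _ _).2 fun e => ?_
    by_cases he : e ∈ E
    · simp only [if_pos he]
      exact (comap_measurable (fun U : Sym2 V → ℝ => U e)).mono
        (le_iSup₂ (f := fun (e : Sym2 V) (_ : e ∈ E) =>
          MeasurableSpace.comap (fun U : Sym2 V → ℝ => U e) inferInstance) e he) le_rfl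
    · simp only [if_neg he]
      exact @measurable_const _ _ _ (meaab_sig E) _
  have h2 : (fun U : Sym2 V → ℝ => fun e => if e ∈ E then U e else 0) ⁻¹' A = A := by
    ext U
    rw [Set.mem_preimage]
    constructor
    · exact dA _ _ fun e he => if_pos he
    · exact dA _ _ fun e he => (if_pos he).symm
  rw [← h2]
  exact h1 hA

theorem nu_indep {E : Set (Sym2 V)} {A B : Set (Sym2 V → ℝ)} (hA : MeasurableSet A)
    (hB : MeasurableSet B) (dA : Dep E A) (dB : Dep Eᶜ B) :
    nu V (A ∩ B) = nu V A * nu V B := by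
  have h1 : ProbabilityTheory.iIndepFun (fun (e : Sym2 V) (U : Sym2 V → ℝ) => U e) (nu V) := by
    unfold nu
    exact ProbabilityTheory.iIndepFun_infinitePi (X := fun _ u => u) (fun _ => measurable_id)
  have h2 := (ProbabilityTheory.iIndepFun_iff_iIndep _ _ _).1 h1
  have h3 := ProbabilityTheory.indep_iSup_of_disjoint (S := E) (T := Eᶜ)
    (fun e => (measurable_pi_apply e).comap_le) h2 disjoint_compl_right
  exact (ProbabilityTheory.Indep_iff _ _ _).1 h3 A B (meaab_meas hA dA) (meaab_meas hB dB)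

omit [Countable V] in
theorem nu_map_inj {V' : Type} (φ : V' → V) (hφ : Function.Injective φ) :
    (nu V).map (fun U e => U (Sym2.map φ e)) = nu V' := by
  exact Measure.map_infinitePi_infinitePi_of_inj (P := fun _ : Sym2 V => uni)
    (Sym2.map.injective hφ)

theorem nu_path {p : ℝ} (hp : 0 ≤ p) (hp1 : p ≤ 1) (P : Finset (Sym2 V)) {B : Set (Sym2 V → ℝ)}
    (hBm : MeasurableSet B) (hB : ∀ U U' : Sym2 V → ℝ, (∀ e, U e ≤ p → U' e ≤ p) → U ∈ B → U' ∈ B) :
    ENNReal.ofReal p ^ P.card * nu V B ≤ nu V (B ∩ {U | ∀ e ∈ P, U e ≤ p}) := by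
  set r : (Sym2 V → ℝ) → (Sym2 V → ℝ) := fun U e => if e ∈ P then 0 else U e with hr
  have hrm : Measurable r := by
    refine measurable_pi_iff.2 fun e => ?_
    by_cases he : e ∈ P
    · simp only [hr, if_pos he]
      exact measurable_const
    · simp only [hr, if_neg he]
      exact measurable_pi_apply e
  have hB' : MeasurableSet (r ⁻¹' B) := hrm hBm
  have hsub : B ⊆ r ⁻¹' B := by
    intro U hU
    refine hB U (r U) (fun e he => ?_) hU
    show (if e ∈ P then 0 else U e) ≤ p
    split_ifs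
    · exact hp
    · exact he
  have hEm : MeasurableSet {U : Sym2 V → ℝ | ∀ e ∈ P, U e ≤ p} := by
    have e1 : {U : Sym2 V → ℝ | ∀ e ∈ P, U e ≤ p} = ⋂ e ∈ P, {U : Sym2 V → ℝ | U e ≤ p} := by
      ext U
      simp
    rw [e1]
    exact Finset.measurableSet_biInter _ fun e _ =>
      measurableSet_le (measurable_pi_apply e) measurable_const
  have heq : r ⁻¹' B ∩ {U | ∀ e ∈ P, U e ≤ p} ⊆ B ∩ {U | ∀ e ∈ P, U e ≤ p} := by
    rintro U ⟨h1, h2⟩
    refine ⟨hB (r U) U (fun e he => ?_) h1, h2⟩
    by_cases heP : e ∈ P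
    · exact h2 e heP
    · have h3 : (if e ∈ P then 0 else U e) ≤ p := he
      rwa [if_neg heP] at h3
  have hdep : Dep ((P : Set (Sym2 V))ᶜ) (r ⁻¹' B) := by
    intro U U' hU h1
    have e1 : r U' = r U := by
      funext e
      show (if e ∈ P then 0 else U' e) = (if e ∈ P then 0 else U e)
      split_ifs with he
      · rfl
      · exact (hU e (by simpa using he)).symm
    show r U' ∈ B
    rw [e1]
    exact h1
  have hdepE : Dep (((P : Set (Sym2 V))ᶜ)ᶜ) {U : Sym2 V → ℝ | ∀ e ∈ P, U e ≤ p} := by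
    intro U U' hU h1 e he
    rw [← hU e (by simpa using he)]
    exact h1 e he
  have hind := nu_indep hB' hEm hdep hdepE
  have hE : nu V {U : Sym2 V → ℝ | ∀ e ∈ P, U e ≤ p} = ENNReal.ofReal p ^ P.card := by
    have e1 : {U : Sym2 V → ℝ | ∀ e ∈ P, U e ≤ p} = Set.pi (P : Set (Sym2 V)) fun _ => Set.Iic p := by
      ext U
      simp [Set.mem_pi]
    have e2 := Measure.infinitePi_pi (μ := fun _ : Sym2 V => uni) (s := P)
      (t := fun _ => Set.Iic p) (fun _ _ => measurableSet_Iic)
    have e3 : uni (Set.Iic p) = ENNReal.ofReal p := by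
      unfold uni
      rw [Measure.restrict_apply measurableSet_Iic]
      apply le_antisymm
      · have h3 : Set.Iic p ∩ Set.Ioo 0 1 ⊆ Set.Ioc 0 p := fun x hx => ⟨hx.2.1, hx.1⟩
        refine (measure_mono h3).trans ?_
        rw [Real.volume_Ioc, sub_zero]
      · have h3 : Set.Ioo 0 p ⊆ Set.Iic p ∩ Set.Ioo 0 1 := fun x hx =>
          ⟨hx.2.le, hx.1, lt_of_lt_of_le hx.2 hp1⟩
        refine le_trans ?_ (measure_mono h3)
        rw [Real.volume_Ioo, sub_zero]
    rw [e1]
    unfold nu
    rw [e2, e3, Finset.prod_const]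
  calc ENNReal.ofReal p ^ P.card * nu V B ≤ ENNReal.ofReal p ^ P.card * nu V (r ⁻¹' B) := by
        gcongr
    _ = nu V (r ⁻¹' B ∩ {U | ∀ e ∈ P, U e ≤ p}) := by rw [hind, hE, mul_comm]
    _ ≤ nu V (B ∩ {U | ∀ e ∈ P, U e ≤ p}) := measure_mono heq

end IPC
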