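import Pool.Agent.Lib.MP_25e40f_pr.G.MeaA

/-!
# MP_25e40f_pr, stream G, file MeaB: finite percolation and the product measure; measurability (JOBS MeaB1, MeaB2)

JOB MeaB1: `meas_fin`, `nu_fin`, `meas_inv`, `meas_full`, `meas_amin`, `meas_gate`, `meas_ff`, `meas_ipc`, `meas_exits`, `meas_sep`.
* `meas_fin`: finite union over `ω ∈ E.powerset` with `A ω` of `{U | E.filter (U · ≤ p) = ω}`, and each of these sets is
  `⋂ e ∈ E, {U | U e ≤ p}` or its complement (`measurableSet_le (measurable_pi_apply e) measurable_const`).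
* `nu_fin`: `{U | A (E.filter ..)}` is the disjoint union over `ω ⊆ E` with `A ω` of the boxes
  `Set.pi E (fun e => if e ∈ ω then Iic p else Ioi p)`; each has measure `p ^ ω.card * (1 - p) ^ (E \ ω).card`
  by `Measure.infinitePi_pi` and `uni (Iic p) = p`, `uni (Ioi p) = 1 - p` (`0 ≤ p ≤ 1`).
  `Pr p E A = ∑ ω ∈ E.powerset, p ^ .. * (1 - p) ^ .. * ind (A ω)`.
* `meas_inv`: induction on `t`, for all `A`. `{U | Inv N o U 0 A}` is `univ` or `∅`. `Inv N o U (t + 1) B` iff there are
  `A ∈ B.powerset`, `q ∈ bd N A` with `Inv N o U t A`, `∀ r ∈ bd N A, U s(q) ≤ U s(r)`, `B = insert q.2 A`: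
  a finite union of finite intersections. The others are countable unions / finite intersections
  (`Finset V` is countable: `inferInstance`, `Countable V`).

JOB MeaB2: `conn_iff`, `con_iff_exists`, `meas_con`, `meas_allcon`, `meas_clu_inf`, `dep_con`.
* `conn_iff`: for a finite `D`, `Con G.nb D p U x y ↔ x ∈ D ∧ Conn ((G.ein D).filter (U · ≤ p)) x y`. The relations are
  the same: `s(a, b) ∈ G.ein D ↔ a ∈ D ∧ b ∈ D ∧ b ∈ G.nb a` (use `G.symm` for the swapped edge).
* `con_iff_exists`: the finite path stays in some `G.Lam r` (`G.cover`, monotone by `G.mono`): induction on the path.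
* `meas_con`: by the two previous points a countable union of sets as in `meas_fin`.
* `meas_clu_inf`: `(clu ..).Infinite ↔ ∀ r, ∃ y ∉ G.Lam r, Con .. x y` (a finite set is contained in some `G.Lam r`; the
  `G.Lam r` are finite): countable intersection of countable unions.
-/

set_option autoImplicit false
set_option linter.unusedSectionVars false

noncomputable section

open MeasureTheory
open scoped Classical

namespace IPC

variable {V : Type} [DecidableEq V] [Countable V]

private theorem meaba_set_eq {p : ℝ} {E : Finset (Sym2 V)} {ω : Finset (Sym2 V)} (hω : ω ⊆ E) (U : Sym2 V → ℝ) :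
    (E.filter fun e => U e ≤ p) = ω ↔ ∀ e ∈ E, (U e ≤ p ↔ e ∈ ω) := by
  constructor
  · rintro rfl e he
    rw [Finset.mem_filter]
    exact ⟨fun h => ⟨he, h⟩, fun h => h.2⟩
  · intro h
    ext e
    rw [Finset.mem_filter]
    constructor
    · rintro ⟨he, h1⟩
      exact (h e he).1 h1
    · intro he
      exact ⟨hω he, (h e (hω he)).2 he⟩

private theorem meaba_box (p : ℝ) (E ω : Finset (Sym2 V)) :
    {U : Sym2 V → ℝ | ∀ e ∈ E, (U e ≤ p ↔ e ∈ ω)} =
      Set.pi (E : Set (Sym2 V)) (fun e => if e ∈ ω then Set.Iic p else Set.Ioi p) := by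
  ext U
  simp only [Set.mem_ofPred_eq, Set.mem_pi, Finset.mem_coe]
  refine forall₂_congr fun e _ => ?_
  by_cases h : e ∈ ω
  · simp [h]
  · simp [h]

private theorem meaba_boxm (p : ℝ) (ω : Finset (Sym2 V)) (e : Sym2 V) :
    MeasurableSet (if e ∈ ω then Set.Iic p else Set.Ioi p : Set ℝ) := by
  by_cases h : e ∈ ω
  · rw [if_pos h]
    exact measurableSet_Iic
  · rw [if_neg h]
    exact measurableSet_Ioi

private theorem meaba_meas (p : ℝ) (E ω : Finset (Sym2 V)) :
    MeasurableSet {U : Sym2 V → ℝ | ∀ e ∈ E, (U e ≤ p ↔ e ∈ ω)} := by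
  rw [meaba_box]
  exact MeasurableSet.pi (Finset.countable_toSet E) fun e _ => meaba_boxm p ω e

private theorem meaba_union (p : ℝ) (E : Finset (Sym2 V)) (A : Finset (Sym2 V) → Prop) :
    {U : Sym2 V → ℝ | A (E.filter fun e => U e ≤ p)} =
      ⋃ ω ∈ E.powerset.filter A, {U : Sym2 V → ℝ | ∀ e ∈ E, (U e ≤ p ↔ e ∈ ω)} := by
  ext U
  simp only [Set.mem_ofPred_eq, Set.mem_iUnion, Finset.mem_filter, Finset.mem_powerset, exists_prop]
  constructor
  · intro h
    exact ⟨_, ⟨Finset.filter_subset _ _, h⟩, (meaba_set_eq (Finset.filter_subset _ _) U).1 rfl⟩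
  · rintro ⟨ω, ⟨hω, h1⟩, h2⟩
    rw [(meaba_set_eq hω U).2 h2]
    exact h1

private theorem meaba_uni_Iic {p : ℝ} (hp : 0 ≤ p) (hp1 : p ≤ 1) : uni (Set.Iic p) = ENNReal.ofReal p := by
  unfold uni
  rw [Measure.restrict_apply measurableSet_Iic]
  refine le_antisymm ?_ ?_
  · have h1 : Set.Iic p ∩ Set.Ioo 0 1 ⊆ Set.Ioc 0 p := fun x hx => ⟨hx.2.1, hx.1⟩
    refine (measure_mono h1).trans (le_of_eq ?_)
    rw [Real.volume_Ioc, sub_zero]
  · have h1 : Set.Ioo 0 p ⊆ Set.Iic p ∩ Set.Ioo 0 1 := fun x hx => ⟨hx.2.le, hx.1, hx.2.trans_le hp1⟩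
    refine le_trans (le_of_eq ?_) (measure_mono h1)
    rw [Real.volume_Ioo, sub_zero]

private theorem meaba_real {p : ℝ} (hp : 0 ≤ p) (hp1 : p ≤ 1) (ω : Finset (Sym2 V)) (e : Sym2 V) :
    uni.real (if e ∈ ω then Set.Iic p else Set.Ioi p) = if e ∈ ω then p else 1 - p := by
  have h1 : uni.real (Set.Iic p) = p := by
    unfold Measure.real
    rw [meaba_uni_Iic hp hp1, ENNReal.toReal_ofReal hp]
  by_cases h : e ∈ ω
  · rw [if_pos h, if_pos h, h1]
  · rw [if_neg h, if_neg h, ← Set.compl_Iic, probReal_compl_eq_one_sub measurableSet_Iic, h1]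

private theorem meaba_nu {p : ℝ} (hp : 0 ≤ p) (hp1 : p ≤ 1) {E ω : Finset (Sym2 V)} (hω : ω ⊆ E) :
    (nu V).real {U : Sym2 V → ℝ | ∀ e ∈ E, (U e ≤ p ↔ e ∈ ω)} = p ^ ω.card * (1 - p) ^ (E \ ω).card := by
  rw [meaba_box]
  unfold Measure.real nu
  rw [Measure.infinitePi_pi (μ := fun _ : Sym2 V => uni) (fun e _ => meaba_boxm p ω e), ENNReal.toReal_prod]
  have h1 : ∏ e ∈ E, (uni (if e ∈ ω then Set.Iic p else Set.Ioi p)).toReal = ∏ e ∈ E, (if e ∈ ω then p else 1 - p) :=
    Finset.prod_congr rfl fun e _ => meaba_real hp hp1 ω e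
  rw [h1, Finset.prod_ite, Finset.prod_const, Finset.prod_const]
  have h2 : E.filter (fun e => e ∈ ω) = ω := by
    ext e
    rw [Finset.mem_filter]
    exact ⟨fun h => h.2, fun h => ⟨hω h, h⟩⟩
  have h3 : E.filter (fun e => ¬ e ∈ ω) = E \ ω := by
    ext e
    rw [Finset.mem_filter, Finset.mem_sdiff]
  rw [h2, h3]

theorem meas_fin (p : ℝ) (E : Finset (Sym2 V)) (A : Finset (Sym2 V) → Prop) :
    MeasurableSet {U : Sym2 V → ℝ | A (E.filter fun e => U e ≤ p)} := by
  rw [meaba_union]
  exact Finset.measurableSet_biUnion _ fun ω _ => meaba_meas p E ω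

theorem nu_fin {p : ℝ} (hp : 0 ≤ p) (hp1 : p ≤ 1) (E : Finset (Sym2 V)) (A : Finset (Sym2 V) → Prop) :
    (nu V).real {U : Sym2 V → ℝ | A (E.filter fun e => U e ≤ p)} = Pr p E A := by
  rw [meaba_union, measureReal_biUnion_finset]
  · unfold Pr EE ind
    simp only [mul_ite, mul_one, mul_zero]
    rw [← Finset.sum_filter]
    refine Finset.sum_congr rfl fun ω hω => ?_
    exact meaba_nu hp hp1 (Finset.mem_powerset.1 (Finset.mem_filter.1 hω).1)
  · intro ω hω ω' hω' hne
    rw [Function.onFun, Set.disjoint_left]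
    intro U h1 h2
    have h3 := Finset.mem_powerset.1 (Finset.mem_filter.1 (Finset.mem_coe.1 hω)).1
    have h4 := Finset.mem_powerset.1 (Finset.mem_filter.1 (Finset.mem_coe.1 hω')).1
    exact hne (((meaba_set_eq h3 U).2 h1).symm.trans ((meaba_set_eq h4 U).2 h2))
  · exact fun ω _ => meaba_meas p E ω

private theorem meabb_imp {P Q : (Sym2 V → ℝ) → Prop} (hP : MeasurableSet {U | P U})
    (hQ : MeasurableSet {U | Q U}) : MeasurableSet {U | P U → Q U} := by
  have h : {U | P U → Q U} = {U | P U}ᶜ ∪ {U | Q U} := by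
    ext U
    simp only [Set.mem_setOf_eq, Set.mem_union, Set.mem_compl_iff]
    tauto
  rw [h]
  exact hP.compl.union hQ

private theorem meabb_and {P Q : (Sym2 V → ℝ) → Prop} (hP : MeasurableSet {U | P U})
    (hQ : MeasurableSet {U | Q U}) : MeasurableSet {U | P U ∧ Q U} := hP.inter hQ

private theorem meabb_ex {ι : Sort*} [Countable ι] {P : ι → (Sym2 V → ℝ) → Prop}
    (hP : ∀ i, MeasurableSet {U | P i U}) : MeasurableSet {U | ∃ i, P i U} := by
  rw [Set.setOf_exists]
  exact MeasurableSet.iUnion hP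

private theorem meabb_all {ι : Sort*} [Countable ι] {P : ι → (Sym2 V → ℝ) → Prop}
    (hP : ∀ i, MeasurableSet {U | P i U}) : MeasurableSet {U | ∀ i, P i U} := by
  rw [Set.setOf_forall]
  exact MeasurableSet.iInter hP

private theorem meabb_min (N : V → Finset V) (A : Finset V) (q : V × V) :
    MeasurableSet {U : Sym2 V → ℝ | ∀ r ∈ bd N A, U s(q.1, q.2) ≤ U s(r.1, r.2)} := by
  refine meabb_all fun r => meabb_all fun _ => ?_
  exact measurableSet_le (measurable_pi_apply _) (measurable_pi_apply _)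

theorem meas_inv (N : V → Finset V) (o : V) (t : ℕ) (A : Finset V) :
    MeasurableSet {U : Sym2 V → ℝ | Inv N o U t A} := by
  induction t generalizing A with
  | zero =>
    have h : {U : Sym2 V → ℝ | Inv N o U 0 A} = {_U | A = {o}} := by
      ext U
      simp only [Set.mem_setOf_eq]
      constructor
      · intro h
        cases h
        rfl
      · intro h
        rw [h]
        exact Inv.zero
    rw [h]
    exact MeasurableSet.const _
  | succ t ih =>
    have h : {U : Sym2 V → ℝ | Inv N o U (t + 1) A} =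
        {U : Sym2 V → ℝ | ∃ B : Finset V, ∃ q : V × V, (q ∈ bd N B ∧ A = insert q.2 B) ∧
          Inv N o U t B ∧ ∀ r ∈ bd N B, U s(q.1, q.2) ≤ U s(r.1, r.2)} := by
      ext U
      simp only [Set.mem_setOf_eq]
      constructor
      · intro h
        cases h with
        | step _ B q hB hq hm => exact ⟨B, q, ⟨hq, rfl⟩, hB, hm⟩
      · rintro ⟨B, q, ⟨hq, rfl⟩, hB, hm⟩
        exact Inv.step t B q hB hq hm
    rw [h]
    refine meabb_ex fun B => meabb_ex fun q => ?_
    exact meabb_and (MeasurableSet.const _) (meabb_and (ih B) (meabb_min N B q))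

theorem meas_full (N : V → Finset V) (p : ℝ) (A : Finset V) :
    MeasurableSet {U : Sym2 V → ℝ | Full N p U A} := by
  refine meabb_all fun q => meabb_all fun _ => ?_
  exact measurableSet_lt measurable_const (measurable_pi_apply _)

theorem meas_amin (N : V → Finset V) (A : Finset V) (q : V × V) :
    MeasurableSet {U : Sym2 V → ℝ | Amin N U A q} := by
  exact meabb_and (MeasurableSet.const _) (meabb_min N A q)

theorem meas_gate (N : V → Finset V) (o : V) (p : ℝ) (A : Finset V) (q : V × V) :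
    MeasurableSet {U : Sym2 V → ℝ | Gate N o p U A q} := by
  exact meabb_and (meabb_ex fun t => meas_inv N o t A) (meabb_and (meas_full N p A) (meas_amin N A q))

theorem meas_ff (N : V → Finset V) (o : V) (p : ℝ) (S : Finset V) (x : V) :
    MeasurableSet {U : Sym2 V → ℝ | FirstFull N o p U S x} := by
  refine meabb_and (meabb_ex fun t => meas_inv N o t S) (meabb_and (meas_full N p S)
    (meabb_and (MeasurableSet.const _) ?_))
  refine meabb_all fun A => meabb_imp (MeasurableSet.const _) ?_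
  exact meabb_imp (meabb_ex fun t => meas_inv N o t A)
    (meabb_imp (meas_full N p A) (MeasurableSet.const _))

theorem meas_ipc (N : V → Finset V) (o x : V) :
    MeasurableSet {U : Sym2 V → ℝ | x ∈ ipc N o U} := by
  exact meabb_ex fun t => meabb_ex fun A => meabb_and (meas_inv N o t A) (MeasurableSet.const _)

theorem meas_exits (N : V → Finset V) (o : V) (H : Set V) (A : Finset V) (q : V × V) :
    MeasurableSet {U : Sym2 V → ℝ | Exits N o U H A q} := by
  exact meabb_and (meabb_ex fun t => meas_inv N o t A) (meabb_and (MeasurableSet.const _)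
    (meabb_and (meas_amin N A q) (MeasurableSet.const _)))

theorem meas_sep (N : V → Finset V) (o : V) (p : ℝ) (x y : V) :
    MeasurableSet {U : Sym2 V → ℝ | Sep N o p U x y} := by
  exact meabb_ex fun t => meabb_ex fun A => meabb_and (meas_inv N o t A)
    (meabb_and (meas_full N p A) (MeasurableSet.const _))

private theorem meabc_mem_ein (G : PG V) (D : Finset V) (a b : V) :
    s(a, b) ∈ G.ein D ↔ a ∈ D ∧ b ∈ D ∧ b ∈ G.nb a := by
  unfold PG.ein
  rw [Finset.mem_biUnion]
  constructor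
  · rintro ⟨a', ha', h⟩
    rw [Finset.mem_image] at h
    obtain ⟨b', hb', h⟩ := h
    rw [Finset.mem_inter] at hb'
    rw [Sym2.eq_iff] at h
    rcases h with ⟨rfl, rfl⟩ | ⟨rfl, rfl⟩
    · exact ⟨ha', hb'.2, hb'.1⟩
    · exact ⟨hb'.2, ha', G.symm _ _ hb'.1⟩
  · rintro ⟨h1, h2, h3⟩
    exact ⟨a, h1, Finset.mem_image.2 ⟨b, Finset.mem_inter.2 ⟨h3, h2⟩, rfl⟩⟩

private theorem meabc_mono (G : PG V) {r s : ℕ} (h : r ≤ s) : G.Lam r ⊆ G.Lam s :=
  monotone_nat_of_le_succ G.mono h

theorem conn_iff (G : PG V) (D : Finset V) (p : ℝ) (U : Sym2 V → ℝ) (x y : V) :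
    Con G.nb (D : Set V) p U x y ↔ x ∈ D ∧ Conn ((G.ein D).filter fun e => U e ≤ p) x y := by
  have h : (fun a b : V => a ∈ (D : Set V) ∧ b ∈ (D : Set V) ∧ b ∈ G.nb a ∧ U s(a, b) ≤ p) =
      (fun a b : V => s(a, b) ∈ (G.ein D).filter fun e => U e ≤ p) := by
    funext a b
    apply propext
    rw [Finset.mem_filter, meabc_mem_ein, Finset.mem_coe, Finset.mem_coe]
    tauto
  unfold Con Conn
  rw [h, Finset.mem_coe]

theorem con_iff_exists (G : PG V) (D : Set V) (p : ℝ) (U : Sym2 V → ℝ) (x y : V) :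
    Con G.nb D p U x y ↔
      ∃ r, Con G.nb ((((G.Lam r).filter fun z => z ∈ D : Finset V)) : Set V) p U x y := by
  constructor
  · rintro ⟨hx, h⟩
    induction h with
    | refl =>
      obtain ⟨r, hr⟩ := G.cover x
      refine ⟨r, ?_, Relation.ReflTransGen.refl⟩
      rw [Finset.mem_coe, Finset.mem_filter]
      exact ⟨hr, hx⟩
    | tail _ hbc ih =>
      rename_i b c _
      obtain ⟨r, hr⟩ := ih
      obtain ⟨r', hr'⟩ := G.cover c
      have h1 : ((((G.Lam r).filter fun z => z ∈ D : Finset V)) : Set V) ⊆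
          ((((G.Lam (max r r')).filter fun z => z ∈ D : Finset V)) : Set V) := by
        intro z hz
        rw [Finset.mem_coe, Finset.mem_filter] at hz ⊢
        exact ⟨meabc_mono G (le_max_left r r') hz.1, hz.2⟩
      have h2 := Con.mono h1 (le_refl p) hr
      refine ⟨max r r', h2.1, h2.2.tail ⟨h2.mem_right, ?_, hbc.2.2⟩⟩
      rw [Finset.mem_coe, Finset.mem_filter]
      exact ⟨meabc_mono G (le_max_right r r') hr', hbc.2.1⟩
  · rintro ⟨r, hr⟩
    refine Con.mono ?_ (le_refl p) hr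
    intro z hz
    rw [Finset.mem_coe, Finset.mem_filter] at hz
    exact hz.2

theorem meas_con (G : PG V) (D : Set V) (p : ℝ) (x y : V) :
    MeasurableSet {U : Sym2 V → ℝ | Con G.nb D p U x y} := by
  have h : {U : Sym2 V → ℝ | Con G.nb D p U x y} =
      ⋃ r, {U : Sym2 V → ℝ | x ∈ (G.Lam r).filter (fun z => z ∈ D) ∧
        Conn ((G.ein ((G.Lam r).filter fun z => z ∈ D)).filter fun e => U e ≤ p) x y} := by
    ext U
    rw [Set.mem_iUnion]
    constructor
    · intro hU
      obtain ⟨r, hr⟩ := (con_iff_exists G D p U x y).1 hU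
      exact ⟨r, (conn_iff G _ p U x y).1 hr⟩
    · rintro ⟨r, hr⟩
      exact (con_iff_exists G D p U x y).2 ⟨r, (conn_iff G _ p U x y).2 hr⟩
  rw [h]
  exact MeasurableSet.iUnion fun r => meas_fin p (G.ein ((G.Lam r).filter fun z => z ∈ D))
    (fun ω => x ∈ (G.Lam r).filter (fun z => z ∈ D) ∧ Conn ω x y)

theorem meas_allcon (G : PG V) (D : Set V) (p : ℝ) (F : Finset V) (y : V) :
    MeasurableSet {U : Sym2 V → ℝ | ∀ f ∈ F, Con G.nb D p U f y} := by
  have h : {U : Sym2 V → ℝ | ∀ f ∈ F, Con G.nb D p U f y} =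
      ⋂ f ∈ F, {U : Sym2 V → ℝ | Con G.nb D p U f y} := by
    ext U
    rw [Set.mem_iInter₂]
    exact Iff.rfl
  rw [h]
  exact F.measurableSet_biInter fun f _ => meas_con G D p f y

theorem clu_inf_iff (G : PG V) (D : Set V) (p : ℝ) (U : Sym2 V → ℝ) (x : V) :
    (clu G.nb D p U x).Infinite ↔ ∀ r, ∃ y, y ∉ G.Lam r ∧ Con G.nb D p U x y := by
  constructor
  · intro h r
    obtain ⟨y, hy, hy'⟩ := h.exists_notMem_finset (G.Lam r)
    exact ⟨y, hy', hy⟩
  · intro h hfin
    choose f hf using G.cover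
    obtain ⟨y, hy, hy'⟩ := h (hfin.toFinset.sup f)
    apply hy
    have h1 : y ∈ hfin.toFinset := hfin.mem_toFinset.2 hy'
    exact meabc_mono G (Finset.le_sup (f := f) h1) (hf y)

theorem meas_clu_inf (G : PG V) (D : Set V) (p : ℝ) (x : V) :
    MeasurableSet {U : Sym2 V → ℝ | (clu G.nb D p U x).Infinite} := by
  have h : {U : Sym2 V → ℝ | (clu G.nb D p U x).Infinite} =
      ⋂ r : ℕ, ⋃ y : V, ({U : Sym2 V → ℝ | y ∉ G.Lam r} ∩ {U : Sym2 V → ℝ | Con G.nb D p U x y}) := by
    ext U
    rw [Set.mem_iInter]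
    constructor
    · intro hU r
      obtain ⟨y, hy⟩ := (clu_inf_iff G D p U x).1 hU r
      exact Set.mem_iUnion.2 ⟨y, hy⟩
    · intro hU
      exact (clu_inf_iff G D p U x).2 fun r => by
        obtain ⟨y, hy⟩ := Set.mem_iUnion.1 (hU r)
        exact ⟨y, hy⟩
  rw [h]
  exact MeasurableSet.iInter fun r => MeasurableSet.iUnion fun y =>
    (MeasurableSet.const _).inter (meas_con G D p x y)

/-- the event of a connection in `D` depends only on the edges inside `D` -/
theorem dep_allcon (G : PG V) (D : Set V) (p : ℝ) (F : Finset V) (y : V) :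
    Dep {e : Sym2 V | ∀ a ∈ e, a ∈ D} {U : Sym2 V → ℝ | ∀ f ∈ F, Con G.nb D p U f y} := by
  intro U U' hE h f hf
  exact (h f hf).congr fun a ha b hb => hE s(a, b) (by
    intro c hc
    rw [Sym2.mem_iff] at hc
    rcases hc with rfl | rfl
    · exact ha
    · exact hb)

theorem dep_clu_inf (G : PG V) (D : Set V) (p : ℝ) (x : V) :
    Dep {e : Sym2 V | ∀ a ∈ e, a ∈ D} {U : Sym2 V → ℝ | (clu G.nb D p U x).Infinite} := by
  intro U U' hE h
  have h1 : clu G.nb D p U x ⊆ clu G.nb D p U' x := fun y hy => Con.congr hy fun a ha b hb => hE s(a, b) (by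
    intro c hc
    rw [Sym2.mem_iff] at hc
    rcases hc with rfl | rfl
    · exact ha
    · exact hb)
  exact Set.Infinite.mono h1 h

end IPC
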