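import Pool.Agent.Lib.MP_25e40f_pr.G.MeaB

/-!
# MP_25e40f_pr, stream G, file MeaC: limits of finite domains (JOB MeaC)

* `tendsto_allcon`: by `conn_iff` the event for the finite domain `D_r = (G.Lam r).filter (· ∈ D)` is of the form of
  `nu_fin` (with `E = G.ein D_r`) as soon as `F ⊆ D_r`; the sets `{U | ∀ f ∈ F, Con G.nb D_r p U f y}` increase with `r`
  (`Con.mono`, `G.mono`) and their union is `{U | ∀ f ∈ F, Con G.nb D p U f y}` (`con_iff_exists`, `F` finite);
  `tendsto_measure_iUnion_atTop`, and eventually `F ⊆ D_r` (`G.cover`). (If `F ⊄ D`: not needed, hypothesis `hF`.)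
* `tau_eq`: the supremum of a bounded increasing sequence is its limit (`tendsto_atTop_ciSup`), the case `F = {x}`,
  `D = univ` of the previous point (`Pr ≤ 1` because it is a probability by `nu_fin`).
* `arm_eq`: for `x ∈ G.Lam r`: `G.arm p x r = (nu V).real {U | ∃ y ∉ G.Lam r, Con G.nb univ p U x y}`: `nu_fin` with
  `E = G.ein (G.Lam (r + 1))`; a path from `x` to a vertex outside of `G.Lam r` has a first vertex outside of `G.Lam r`, which is
  in `G.Lam (r + 1)` (`G.step`), and the path up to this vertex stays in `G.Lam (r + 1)`.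
* `arm_tendsto`: `G.arm p x r → (nu V).real {U | (clu G.nb univ p U x).Infinite}`: the events of `arm_eq` decrease and their
  intersection is this event (`clu_inf_iff`); `tendsto_measure_iInter_atTop`.
* `noPerc_iff`, `fin1_ae` are consequences (uniqueness of limits; `ae_all_iff`).
* `tau_symm'`: `Con.symm`.
-/

set_option autoImplicit false
set_option linter.unusedSectionVars false

noncomputable section

open MeasureTheory Filter
open scoped Classical

namespace IPC

variable {V : Type} [DecidableEq V] [Countable V]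

omit [Countable V] in
private theorem meac_mono (G : PG V) : Monotone G.Lam := monotone_nat_of_le_succ G.mono

omit [Countable V] in
private theorem meac_fmono (G : PG V) (D : Set V) {r s : ℕ} (h : r ≤ s) :
    ((((G.Lam r).filter fun z => z ∈ D : Finset V)) : Set V) ⊆
      ((((G.Lam s).filter fun z => z ∈ D : Finset V)) : Set V) := by
  intro z hz
  rw [Finset.mem_coe, Finset.mem_filter] at hz ⊢
  exact ⟨meac_mono G h hz.1, hz.2⟩

omit [Countable V] in
private theorem meac_fsub (G : PG V) (D : Set V) (r : ℕ) :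
    ((((G.Lam r).filter fun z => z ∈ D : Finset V)) : Set V) ⊆ D := by
  intro z hz
  rw [Finset.mem_coe, Finset.mem_filter] at hz
  exact hz.2

omit [Countable V] in
private theorem meac_sub (G : PG V) (F : Finset V) : ∃ R, ∀ r ≥ R, F ⊆ G.Lam r := by
  choose f hf using G.cover
  refine ⟨F.sup f, fun r hr x hx => ?_⟩
  exact meac_mono G ((Finset.le_sup hx).trans hr) (hf x)

private theorem meac_union (G : PG V) (D : Set V) (p : ℝ) (F : Finset V) (y : V) :
    ⋃ r, {U : Sym2 V → ℝ | ∀ f ∈ F,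
      Con G.nb ((((G.Lam r).filter fun z => z ∈ D : Finset V)) : Set V) p U f y} =
      {U : Sym2 V → ℝ | ∀ f ∈ F, Con G.nb D p U f y} := by
  ext U
  rw [Set.mem_iUnion]
  constructor
  · rintro ⟨r, hr⟩ f hf
    exact (hr f hf).mono (meac_fsub G D r) le_rfl
  · intro h
    have h1 : ∀ f, ∃ r, f ∈ F →
        Con G.nb ((((G.Lam r).filter fun z => z ∈ D : Finset V)) : Set V) p U f y := by
      intro f
      by_cases hf : f ∈ F
      · obtain ⟨r, hr⟩ := (con_iff_exists G D p U f y).1 (h f hf)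
        exact ⟨r, fun _ => hr⟩
      · exact ⟨0, fun h2 => absurd h2 hf⟩
    choose g hg using h1
    refine ⟨F.sup g, fun f hf => ?_⟩
    exact (hg f hf).mono (meac_fmono G D (Finset.le_sup hf)) le_rfl

omit [Countable V] in
private theorem meac_ein (G : PG V) {D D' : Finset V} (h : D ⊆ D') : G.ein D ⊆ G.ein D' := by
  intro e he
  unfold PG.ein at he ⊢
  rw [Finset.mem_biUnion] at he ⊢
  obtain ⟨a, ha, he⟩ := he
  rw [Finset.mem_image] at he
  obtain ⟨b, hb, rfl⟩ := he
  rw [Finset.mem_inter] at hb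
  exact ⟨a, h ha, Finset.mem_image.2 ⟨b, Finset.mem_inter.2 ⟨hb.1, h hb.2⟩, rfl⟩⟩

omit [Countable V] in
private theorem meac_conn {ω ω' : Finset (Sym2 V)} (h : ω ⊆ ω') {x y : V} (hc : Conn ω x y) :
    Conn ω' x y :=
  Relation.ReflTransGen.mono (fun _ _ hab => h hab) _ _ hc

omit [Countable V] in
private theorem meac_exit (G : PG V) (p : ℝ) (U : Sym2 V → ℝ) (x y : V) (r : ℕ) (hx : x ∈ G.Lam r)
    (h : Con G.nb Set.univ p U x y) :
    Con G.nb (G.Lam r : Set V) p U x y ∨
      ∃ z, z ∈ G.Lam (r + 1) \ G.Lam r ∧ Con G.nb (G.Lam (r + 1) : Set V) p U x z := by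
  obtain ⟨_, h⟩ := h
  induction h with
  | refl => exact Or.inl ⟨hx, Relation.ReflTransGen.refl⟩
  | @tail b c hb hbc ih =>
    rcases ih with h1 | h1
    · have hbm : b ∈ G.Lam r := h1.mem_right
      by_cases hc : c ∈ G.Lam r
      · exact Or.inl ⟨hx, h1.2.tail ⟨hbm, hc, hbc.2.2.1, hbc.2.2.2⟩⟩
      · have hc' : c ∈ G.Lam (r + 1) := G.step r b hbm hbc.2.2.1
        have h2 : Con G.nb (G.Lam (r + 1) : Set V) p U x b :=
          h1.mono (Finset.coe_subset.2 (G.mono r)) le_rfl
        refine Or.inr ⟨c, Finset.mem_sdiff.2 ⟨hc', hc⟩, h2.1, ?_⟩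
        exact h2.2.tail ⟨G.mono r hbm, hc', hbc.2.2.1, hbc.2.2.2⟩
    · exact Or.inr h1

private theorem meac_meas (G : PG V) (p : ℝ) (x : V) (r : ℕ) :
    MeasurableSet {U : Sym2 V → ℝ | ∃ y, y ∉ G.Lam r ∧ Con G.nb Set.univ p U x y} := by
  have h1 : {U : Sym2 V → ℝ | ∃ y, y ∉ G.Lam r ∧ Con G.nb Set.univ p U x y} =
      ⋃ y, {U : Sym2 V → ℝ | y ∉ G.Lam r ∧ Con G.nb Set.univ p U x y} := by
    ext U
    rw [Set.mem_iUnion]
    rfl
  rw [h1]
  refine MeasurableSet.iUnion fun y => ?_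
  by_cases hy : y ∉ G.Lam r
  · have h2 : {U : Sym2 V → ℝ | y ∉ G.Lam r ∧ Con G.nb Set.univ p U x y} =
        {U : Sym2 V → ℝ | Con G.nb Set.univ p U x y} := by
      ext U
      exact ⟨fun h => h.2, fun h => ⟨hy, h⟩⟩
    rw [h2]
    exact meas_con G Set.univ p x y
  · have h2 : {U : Sym2 V → ℝ | y ∉ G.Lam r ∧ Con G.nb Set.univ p U x y} = ∅ := by
      ext U
      exact ⟨fun h => absurd h.1 hy, fun h => absurd h (Set.notMem_empty U)⟩
    rw [h2]
    exact MeasurableSet.empty

theorem tendsto_allcon (G : PG V) {p : ℝ} (hp : 0 ≤ p) (hp1 : p ≤ 1) (D : Set V) (F : Finset V)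
    (hF : (F : Set V) ⊆ D) (y : V) :
    Tendsto (fun r => Pr p (G.ein ((G.Lam r).filter fun z => z ∈ D)) (fun ω => AllConn ω F y))
      atTop (nhds ((nu V).real {U | ∀ f ∈ F, Con G.nb D p U f y})) := by
  have hmono : Monotone fun r => {U : Sym2 V → ℝ | ∀ f ∈ F,
      Con G.nb ((((G.Lam r).filter fun z => z ∈ D : Finset V)) : Set V) p U f y} := by
    intro r s hrs U hU f hf
    exact (hU f hf).mono (meac_fmono G D hrs) le_rfl
  have h1 := tendsto_measure_iUnion_atTop (μ := nu V) hmono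
  rw [meac_union] at h1
  have h2 := (ENNReal.tendsto_toReal (measure_ne_top (nu V) _)).comp h1
  obtain ⟨R, hR⟩ := meac_sub G F
  refine Tendsto.congr' ?_ h2
  filter_upwards [eventually_ge_atTop R] with r hr
  show (nu V).real {U : Sym2 V → ℝ | ∀ f ∈ F,
      Con G.nb ((((G.Lam r).filter fun z => z ∈ D : Finset V)) : Set V) p U f y} = _
  rw [← nu_fin hp hp1]
  congr 1
  ext U
  show (∀ f ∈ F, Con G.nb ((((G.Lam r).filter fun z => z ∈ D : Finset V)) : Set V) p U f y) ↔
    ∀ f ∈ F, Conn ((G.ein ((G.Lam r).filter fun z => z ∈ D)).filter fun e => U e ≤ p) f y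
  refine forall_congr' fun f => forall_congr' fun hf => ?_
  rw [conn_iff]
  refine and_iff_right ?_
  rw [Finset.mem_filter]
  exact ⟨hR r hr hf, hF hf⟩

theorem tau_eq (G : PG V) {p : ℝ} (hp : 0 ≤ p) (hp1 : p ≤ 1) (x y : V) :
    G.tau p x y = (nu V).real {U | Con G.nb Set.univ p U x y} := by
  have h1 := tendsto_allcon G hp hp1 Set.univ {x} (Set.subset_univ _) y
  have h5 : Tendsto (fun r => G.tauD p (G.Lam r) x y) atTop
      (nhds ((nu V).real {U | ∀ f ∈ ({x} : Finset V), Con G.nb Set.univ p U f y})) := by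
    refine h1.congr fun r => ?_
    have e2 : (fun ω : Finset (Sym2 V) => AllConn ω {x} y) = fun ω => Conn ω x y := by
      funext ω
      unfold AllConn
      rw [eq_iff_iff]
      constructor
      · intro h
        exact h x (Finset.mem_singleton_self x)
      · intro h f hf
        rw [Finset.mem_singleton] at hf
        rw [hf]
        exact h
    have e1 : ∀ inst : DecidablePred (fun z : V => z ∈ (Set.univ : Set V)),
        @Finset.filter V (fun z => z ∈ (Set.univ : Set V)) inst (G.Lam r) = G.Lam r := by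
      intro inst
      ext z
      rw [Finset.mem_filter]
      exact and_iff_left (Set.mem_univ z)
    rw [e1, e2]
    rfl
  have h3 : {U : Sym2 V → ℝ | ∀ f ∈ ({x} : Finset V), Con G.nb Set.univ p U f y} =
      {U : Sym2 V → ℝ | Con G.nb Set.univ p U x y} := by
    ext U
    constructor
    · intro h
      exact h x (Finset.mem_singleton_self x)
    · intro h f hf
      rw [Finset.mem_singleton] at hf
      rw [hf]
      exact h
  rw [h3] at h5
  have h4 : ∀ r, G.tauD p (G.Lam r) x y =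
      (nu V).real {U : Sym2 V → ℝ | Conn ((G.ein (G.Lam r)).filter fun e => U e ≤ p) x y} := by
    intro r
    unfold PG.tauD
    rw [← nu_fin hp hp1]
  have hmono : Monotone fun r => G.tauD p (G.Lam r) x y := by
    intro r s hrs
    show G.tauD p (G.Lam r) x y ≤ G.tauD p (G.Lam s) x y
    rw [h4, h4]
    refine measureReal_mono ?_ (measure_ne_top _ _)
    intro U hU
    exact meac_conn (Finset.filter_subset_filter _ (meac_ein G (meac_mono G hrs))) hU
  have hbdd : BddAbove (Set.range fun r => G.tauD p (G.Lam r) x y) := by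
    refine ⟨1, ?_⟩
    rintro _ ⟨r, rfl⟩
    show G.tauD p (G.Lam r) x y ≤ 1
    rw [h4]
    exact measureReal_le_one
  exact tendsto_nhds_unique (tendsto_atTop_ciSup hmono hbdd) h5

theorem arm_eq (G : PG V) {p : ℝ} (hp : 0 ≤ p) (hp1 : p ≤ 1) (x : V) (r : ℕ) (hx : x ∈ G.Lam r) :
    G.arm p x r = (nu V).real {U | ∃ y, y ∉ G.Lam r ∧ Con G.nb Set.univ p U x y} := by
  unfold PG.arm
  rw [← nu_fin hp hp1]
  congr 1
  ext U
  show (∃ y ∈ G.Lam (r + 1) \ G.Lam r,
      Conn ((G.ein (G.Lam (r + 1))).filter fun e => U e ≤ p) x y) ↔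
    ∃ y, y ∉ G.Lam r ∧ Con G.nb Set.univ p U x y
  constructor
  · rintro ⟨y, hy, hc⟩
    rw [Finset.mem_sdiff] at hy
    refine ⟨y, hy.2, ?_⟩
    have h1 := (conn_iff G (G.Lam (r + 1)) p U x y).2 ⟨G.mono r hx, hc⟩
    exact h1.mono (Set.subset_univ _) le_rfl
  · rintro ⟨y, hy, hc⟩
    rcases meac_exit G p U x y r hx hc with h1 | ⟨z, hz, h1⟩
    · exact absurd h1.mem_right hy
    · exact ⟨z, hz, ((conn_iff G (G.Lam (r + 1)) p U x z).1 h1).2⟩

theorem arm_tendsto (G : PG V) {p : ℝ} (hp : 0 ≤ p) (hp1 : p ≤ 1) (x : V) :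
    Tendsto (G.arm p x) atTop (nhds ((nu V).real {U | (clu G.nb Set.univ p U x).Infinite})) := by
  have hanti : Antitone fun r => {U : Sym2 V → ℝ | ∃ y, y ∉ G.Lam r ∧ Con G.nb Set.univ p U x y} := by
    intro r s hrs U hU
    obtain ⟨y, hy, hc⟩ := hU
    exact ⟨y, fun h => hy (meac_mono G hrs h), hc⟩
  have h1 := tendsto_measure_iInter_atTop (μ := nu V)
    (fun r => (meac_meas G p x r).nullMeasurableSet) hanti ⟨0, measure_ne_top _ _⟩
  have h2 : ⋂ r, {U : Sym2 V → ℝ | ∃ y, y ∉ G.Lam r ∧ Con G.nb Set.univ p U x y} =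
      {U : Sym2 V → ℝ | (clu G.nb Set.univ p U x).Infinite} := by
    ext U
    rw [Set.mem_iInter]
    exact (clu_inf_iff G Set.univ p U x).symm
  rw [h2] at h1
  have h3 := (ENNReal.tendsto_toReal (measure_ne_top (nu V) _)).comp h1
  obtain ⟨R, hR⟩ := G.cover x
  refine Tendsto.congr' ?_ h3
  filter_upwards [eventually_ge_atTop R] with r hr
  rw [arm_eq G hp hp1 x r (meac_mono G hr hR)]
  rfl

theorem noPerc_iff (G : PG V) {p : ℝ} (hp : 0 ≤ p) (hp1 : p ≤ 1) :
    G.NoPerc p ↔ ∀ x, nu V {U | (clu G.nb Set.univ p U x).Infinite} = 0 := by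
  unfold PG.NoPerc
  refine forall_congr' fun x => ?_
  have h1 := arm_tendsto G hp hp1 x
  constructor
  · intro h
    have h2 := tendsto_nhds_unique h1 h
    rw [Measure.real, ENNReal.toReal_eq_zero_iff] at h2
    rcases h2 with h2 | h2
    · exact h2
    · exact absurd h2 (measure_ne_top _ _)
  · intro h
    rw [Measure.real, h, ENNReal.toReal_zero] at h1
    exact h1

theorem fin1_ae (G : PG V) {p : ℝ} (hp : 0 ≤ p) (hp1 : p ≤ 1) (h : G.NoPerc p) :
    ∀ᵐ U ∂(nu V), Fin1 G.nb p U := by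
  unfold Fin1
  rw [ae_all_iff]
  intro v
  rw [ae_iff]
  exact (noPerc_iff G hp hp1).1 h v

end IPC
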