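import Pool.Agent.Lib.MP_25e40f_pr.G.MeaC

/-!
# MP_25e40f_pr, stream G, file SlabA: independent trials in slabs (JOBS SlabAa, SlabAb)

JOB SlabAa: `slab_fail`. Let `B_m` be the event `{U | ∀ n ∈ Icc 1 m, ∃ A q, ...}` (measurable: countable unions of
`meas_exits`, `meas_clu_inf (Zg d)`, `Finset V` and `V × V` are countable). Induction on `m`; `m = 0`: probability `≤ 1`.
`B_{m+1}` is the union over `(A, q)` of `B_m ∩ X_{A,q} ∩ Y_q`, `X_{A,q} = {Exits N 0 U (hs i σ ((m+1) L)) A q}`,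
`Y_q = {the cluster of q.2 in sl i σ L (m+1) is finite}`. If `X_{A,q}` is not empty then `σ * q.2 i = (m+1) L`:
`q.2 ∉ hs` so `σ * q.2 i ≥ (m+1) L`, and `q.1 ∈ A ⊆ hs`, `q.2 ∈ nbZ d q.1` (`mem_nbZ`: the coordinates differ by at most one)
so `σ * q.2 i ≤ (m+1) L`. `B_m ∩ X_{A,q}` depends only on `tch (hs i σ ((m+1) L))`: `Exits.congr`, `A ⊆ hs ..`,
`hs .. (n L) ⊆ hs .. ((m+1) L)`, and by `dep_clu_inf` the cluster in `sl n` (`n ≤ m`) depends only on the edges with all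
endpoints in `sl n ⊆ hs ((n+1) L) ⊆ hs ((m+1) L)` (every `e : Sym2 V` has an endpoint). `Y_q` depends only on the edges with all
endpoints in `sl (m+1)`, which is disjoint from `hs ((m+1) L)`, so these edges are in the complement of `tch (hs ((m+1) L))`.
`nu_indep`: `nu (B_m ∩ X ∩ Y) = nu (B_m ∩ X) * nu Y ≤ nu (B_m ∩ X) * (1 - θ)`. The `X_{A,q}` are a.e. pairwise
disjoint (`exits_unique`, `nu_inj`), so the sum over `(A, q)` of `nu (B_m ∩ X_{A,q})` is at most `nu B_m`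
(`measure_iUnion₀` with `AEDisjoint`, in ENNReal, then `toReal`).

JOB SlabAb: `slab_event`. For a.e. `U` (`nu_inj`) the event is contained in `B_m`: let `n ∈ Icc 1 m` and suppose that no
`A, q` as in `B_m` exists for `n`, i.e. for all `A q` with `Exits N 0 U (hs i σ (n L)) A q` the cluster of `q.2` in
`sl i σ L n` is infinite. `0 ∈ hs i σ (n L)` (`0 < n L`), `x ∉ hs i σ (n L)` (`n L ≤ m L ≤ σ * x i`), so `exit_le`
gives `r ∈ bd N A` with `U r ≤ p'`, but `U r > p'`: contradiction.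
`slab_small`: the sup norm is attained (`d ≥ 1`): there are `i` and `σ = ± 1` with `‖x‖ = σ * x i` (as reals); let `m : ℕ` be
`⌊‖x‖ / L⌋₊`, so `m L ≤ σ * x i`, and `slab_event` bounds the probability by `(1 - θ) ^ m` with `m ≥ ‖x‖ / L - 1`. So the product is
at most `h ⌊‖x‖ / L⌋₊` with `h m = (1 - θ) ^ m * (1 + L (m + 1)) ^ β → 0` as `m → ∞` (geometric against polynomial:
`tendsto_pow_const_mul_const_pow_of_abs_lt_one`, `0 ≤ 1 - θ < 1`), and `‖x‖ → ∞` along `cofinite` on `Fin d → ℤ` (the balls are finite: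
contained in `Fintype.piFinset fun _ => Finset.Icc (-R) R`), so `⌊‖x‖ / L⌋₊ → ∞`. `squeeze_zero`.
-/

set_option autoImplicit false
set_option linter.unusedSectionVars false

noncomputable section

open MeasureTheory Filter
open scoped Classical

namespace IPC

variable {d : ℕ}

/-- half space -/
def hs (i : Fin d) (σ m : ℤ) : Set (Fin d → ℤ) := {y | σ * y i < m}

/-- slab number `n` of width `L` -/
def sl (i : Fin d) (σ : ℤ) (L n : ℕ) : Set (Fin d → ℤ) :=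
  {y | (n : ℤ) * L ≤ σ * y i ∧ σ * y i < ((n : ℤ) + 1) * L}

/-- the slabs of width `L` percolate with probability at least `θ` from their bottom layer -/
def SlabP (d : ℕ) (p' : ℝ) (L : ℕ) (θ : ℝ) : Prop :=
  ∀ (i : Fin d) (σ : ℤ), (σ = 1 ∨ σ = -1) → ∀ (n : ℕ) (y : Fin d → ℤ), σ * y i = (n : ℤ) * L →
    θ ≤ (nu (Fin d → ℤ)).real {U | (clu (nbZ d) (sl i σ L n) p' U y).Infinite}

/-- the event that the first `m` slabs fail -/
private def slabaa_B (d : ℕ) (i : Fin d) (σ : ℤ) (L : ℕ) (p' : ℝ) (m : ℕ) :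
    Set (Sym2 (Fin d → ℤ) → ℝ) :=
  {U | ∀ n ∈ Finset.Icc 1 m, ∃ A q,
      Exits (nbZ d) 0 U (hs i σ ((n : ℤ) * L)) A q ∧ ¬ (clu (nbZ d) (sl i σ L n) p' U q.2).Infinite}

private theorem slabaa_meas (i : Fin d) (σ : ℤ) (L : ℕ) (p' : ℝ) (m : ℕ) :
    MeasurableSet (slabaa_B d i σ L p' m) := by
  have e : slabaa_B d i σ L p' m = ⋂ n ∈ Finset.Icc 1 m, ⋃ A, ⋃ q : (Fin d → ℤ) × (Fin d → ℤ),
      ({U | Exits (nbZ d) 0 U (hs i σ ((n : ℤ) * L)) A q} ∩
        {U | (clu (nbZ d) (sl i σ L n) p' U q.2).Infinite}ᶜ) := by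
    ext U
    simp only [slabaa_B, Set.mem_setOf_eq, Set.mem_iInter, Set.mem_iUnion, Set.mem_inter_iff,
      Set.mem_compl_iff]
  rw [e]
  refine Finset.measurableSet_biInter _ fun n _ => MeasurableSet.iUnion fun A =>
    MeasurableSet.iUnion fun q => ?_
  exact (meas_exits _ _ _ _ _).inter (meas_clu_inf (Zg d) _ _ _).compl

private theorem slabaa_edge {S : Set (Fin d → ℤ)} {e : Sym2 (Fin d → ℤ)} (he : ∀ a ∈ e, a ∈ S) :
    e ∈ tch S := by
  induction e using Sym2.ind with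
  | _ a b => exact ⟨a, he a (Sym2.mem_mk_left a b), Sym2.mem_mk_left a b⟩

private theorem slabaa_hs {i : Fin d} {σ a b : ℤ} (h : a ≤ b) : hs i σ a ⊆ hs i σ b :=
  fun _ hy => lt_of_lt_of_le hy h

private theorem slabaa_dep (i : Fin d) (σ : ℤ) (L : ℕ) (p' : ℝ) (m : ℕ) :
    Dep (tch (hs i σ (((m + 1 : ℕ) : ℤ) * L))) (slabaa_B d i σ L p' m) := by
  intro U U' hE hU n hn
  obtain ⟨A, q, hX, hY⟩ := hU n hn
  have hn' := Finset.mem_Icc.1 hn
  have hL0 : (0 : ℤ) ≤ L := by positivity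
  have h1 : hs i σ ((n : ℤ) * L) ⊆ hs i σ (((m + 1 : ℕ) : ℤ) * L) := by
    refine slabaa_hs (mul_le_mul_of_nonneg_right ?_ hL0)
    have := hn'.2
    push_cast
    omega
  have h2 : sl i σ L n ⊆ hs i σ (((m + 1 : ℕ) : ℤ) * L) := by
    intro y hy
    refine lt_of_lt_of_le hy.2 (mul_le_mul_of_nonneg_right ?_ hL0)
    have := hn'.2
    push_cast
    omega
  refine ⟨A, q, hX.congr fun e he => hE e (tch_mono (hX.2.1.trans h1) he), ?_⟩
  exact (dep_clu_inf (Zg d) (sl i σ L n) p' q.2).compl U U'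
    (fun e he => hE e (slabaa_edge fun a ha => h2 (he a ha))) hY

private theorem slabaa_coord {i : Fin d} {σ : ℤ} (hσ : σ = 1 ∨ σ = -1) {M : ℤ}
    {U : Sym2 (Fin d → ℤ) → ℝ} {A : Finset (Fin d → ℤ)} {q : (Fin d → ℤ) × (Fin d → ℤ)}
    (h : Exits (nbZ d) 0 U (hs i σ M) A q) : σ * q.2 i = M := by
  have hb := mem_bd.1 h.2.2.1.1
  have h1 : σ * q.1 i < M := h.2.1 (Finset.mem_coe.2 hb.1)
  have h2 : ¬ σ * q.2 i < M := h.2.2.2
  obtain ⟨j, s, hs', hq⟩ := (mem_nbZ d q.1 q.2).1 hb.2.1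
  by_cases hij : i = j
  · subst hij
    rw [hq, Function.update_self] at h2 ⊢
    rcases hσ with rfl | rfl <;> rcases hs' with rfl | rfl <;> omega
  · rw [hq, Function.update_of_ne hij] at h2
    exact absurd h1 h2

private theorem slabaa_step {p' θ : ℝ} {L : ℕ} (hθ : θ ≤ 1) (hS : SlabP d p' L θ) (i : Fin d)
    (σ : ℤ) (hσ : σ = 1 ∨ σ = -1) (m : ℕ) :
    nu (Fin d → ℤ) (slabaa_B d i σ L p' (m + 1)) ≤
      ENNReal.ofReal (1 - θ) * nu (Fin d → ℤ) (slabaa_B d i σ L p' m) := by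
  set H : Set (Fin d → ℤ) := hs i σ (((m + 1 : ℕ) : ℤ) * L) with hH
  set X : Finset (Fin d → ℤ) × ((Fin d → ℤ) × (Fin d → ℤ)) → Set (Sym2 (Fin d → ℤ) → ℝ) :=
    fun j => {U | Exits (nbZ d) 0 U H j.1 j.2} with hX
  set Y : Finset (Fin d → ℤ) × ((Fin d → ℤ) × (Fin d → ℤ)) → Set (Sym2 (Fin d → ℤ) → ℝ) :=
    fun j => {U | (clu (nbZ d) (sl i σ L (m + 1)) p' U j.2.2).Infinite} with hY
  set B := slabaa_B d i σ L p' m with hB
  have mX : ∀ j, MeasurableSet (X j) := fun j => meas_exits _ _ _ _ _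
  have mY : ∀ j, MeasurableSet (Y j) := fun j => meas_clu_inf (Zg d) _ _ _
  have mB : MeasurableSet B := slabaa_meas i σ L p' m
  have hsub : slabaa_B d i σ L p' (m + 1) ⊆ ⋃ j, (B ∩ X j) ∩ (Y j)ᶜ := by
    intro U hU
    obtain ⟨A, q, h1, h2⟩ := hU (m + 1) (Finset.mem_Icc.2 ⟨by omega, le_rfl⟩)
    refine Set.mem_iUnion.2 ⟨(A, q), ⟨fun n hn => hU n ?_, h1⟩, h2⟩
    have := Finset.mem_Icc.1 hn
    exact Finset.mem_Icc.2 ⟨this.1, by omega⟩
  have hterm : ∀ j, nu (Fin d → ℤ) ((B ∩ X j) ∩ (Y j)ᶜ) ≤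
      nu (Fin d → ℤ) (B ∩ X j) * ENNReal.ofReal (1 - θ) := by
    intro j
    rcases Set.eq_empty_or_nonempty (X j) with he | ⟨U₀, hU₀⟩
    · rw [he, Set.inter_empty, Set.empty_inter, measure_empty, zero_mul]
    · have hc := slabaa_coord hσ hU₀
      have d1 : Dep (tch H) (B ∩ X j) := by
        refine (slabaa_dep i σ L p' m).inter ?_
        intro U U' hE hU
        exact Exits.congr hU fun e he => hE e (tch_mono hU.2.1 he)
      have d2 : Dep (tch H)ᶜ (Y j)ᶜ := by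
        refine ((dep_clu_inf (Zg d) (sl i σ L (m + 1)) p' j.2.2).compl).mono ?_
        intro e he hc'
        obtain ⟨x, hx, hxe⟩ := hc'
        have h3 := (he x hxe).1
        have h4 : σ * x i < ((m + 1 : ℕ) : ℤ) * L := hx
        exact absurd h4 (not_lt.2 h3)
      rw [nu_indep (mB.inter (mX j)) (mY j).compl d1 d2]
      gcongr
      have h5 := hS i σ hσ (m + 1) j.2.2 hc
      have h6 : (nu (Fin d → ℤ)).real (Y j)ᶜ ≤ 1 - θ := by
        rw [probReal_compl_eq_one_sub (mY j)]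
        have h7 : θ ≤ (nu (Fin d → ℤ)).real (Y j) := h5
        linarith
      rw [← ofReal_measureReal]
      exact ENNReal.ofReal_le_ofReal h6
  have hdisj : Pairwise (Function.onFun (AEDisjoint (nu (Fin d → ℤ))) fun j => B ∩ X j) := by
    intro j j' hjj
    have h1 : (B ∩ X j) ∩ (B ∩ X j') ⊆ {U | ¬ Function.Injective U} := by
      rintro U ⟨⟨-, hU1⟩, ⟨-, hU2⟩⟩ hinj
      obtain ⟨e1, e2⟩ := exits_unique hinj hU1 hU2
      exact hjj (Prod.ext e1 e2)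
    exact measure_mono_null h1 (ae_iff.1 nu_inj)
  have hsum := tsum_meas_le_meas_iUnion_of_disjoint₀ (nu (Fin d → ℤ)) (As := fun j => B ∩ X j)
    (fun j => (mB.inter (mX j)).nullMeasurableSet) hdisj
  calc nu (Fin d → ℤ) (slabaa_B d i σ L p' (m + 1))
      ≤ nu (Fin d → ℤ) (⋃ j, (B ∩ X j) ∩ (Y j)ᶜ) := measure_mono hsub
    _ ≤ ∑' j, nu (Fin d → ℤ) ((B ∩ X j) ∩ (Y j)ᶜ) := measure_iUnion_le _
    _ ≤ ∑' j, nu (Fin d → ℤ) (B ∩ X j) * ENNReal.ofReal (1 - θ) := ENNReal.tsum_le_tsum hterm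
    _ = (∑' j, nu (Fin d → ℤ) (B ∩ X j)) * ENNReal.ofReal (1 - θ) := ENNReal.tsum_mul_right
    _ ≤ nu (Fin d → ℤ) B * ENNReal.ofReal (1 - θ) := by
        gcongr
        refine hsum.trans (measure_mono ?_)
        exact Set.iUnion_subset fun j => Set.inter_subset_left
    _ = ENNReal.ofReal (1 - θ) * nu (Fin d → ℤ) B := mul_comm _ _

theorem slab_fail {p' θ : ℝ} {L : ℕ} (hL : 1 ≤ L) (hθ : θ ≤ 1) (hS : SlabP d p' L θ) (i : Fin d)
    (σ : ℤ) (hσ : σ = 1 ∨ σ = -1) (m : ℕ) :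
    (nu (Fin d → ℤ)).real {U | ∀ n ∈ Finset.Icc 1 m, ∃ A q,
      Exits (nbZ d) 0 U (hs i σ ((n : ℤ) * L)) A q ∧ ¬ (clu (nbZ d) (sl i σ L n) p' U q.2).Infinite} ≤
      (1 - θ) ^ m := by
  have key : ∀ m : ℕ, nu (Fin d → ℤ) (slabaa_B d i σ L p' m) ≤ ENNReal.ofReal (1 - θ) ^ m := by
    intro m
    induction m with
    | zero =>
      rw [pow_zero]
      exact prob_le_one
    | succ m ih =>
      refine (slabaa_step hθ hS i σ hσ m).trans ?_
      rw [pow_succ, mul_comm]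
      gcongr
  have h1 := ENNReal.toReal_mono (ENNReal.pow_ne_top ENNReal.ofReal_ne_top) (key m)
  rw [ENNReal.toReal_pow, ENNReal.toReal_ofReal (by linarith)] at h1
  exact h1

theorem slab_event {p' θ : ℝ} {L : ℕ} (hL : 1 ≤ L) (hθ : θ ≤ 1) (hS : SlabP d p' L θ) (i : Fin d)
    (σ : ℤ) (hσ : σ = 1 ∨ σ = -1) (m : ℕ) (x : Fin d → ℤ) (hx : (m : ℤ) * L ≤ σ * x i) :
    (nu (Fin d → ℤ)).real {U | ∃ t A, Inv (nbZ d) 0 U t A ∧ x ∈ A ∧
      ∀ r ∈ bd (nbZ d) A, p' < U s(r.1, r.2)} ≤ (1 - θ) ^ m := by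
  refine le_trans ?_ (slab_fail hL hθ hS i σ hσ m)
  unfold Measure.real
  refine ENNReal.toReal_mono (measure_ne_top _ _) (measure_mono_ae ?_)
  filter_upwards [nu_inj (V := Fin d → ℤ)] with U hU
  rintro ⟨t, A, hInv, hxA, hb⟩
  intro n hn
  by_contra hcon
  push Not at hcon
  rw [Finset.mem_Icc] at hn
  have hL' : (1 : ℤ) ≤ L := by exact_mod_cast hL
  have hn1 : (1 : ℤ) ≤ n := by exact_mod_cast hn.1
  have hnm : (n : ℤ) ≤ m := by exact_mod_cast hn.2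
  have h0 : (0 : Fin d → ℤ) ∈ hs i σ ((n : ℤ) * L) := by
    show σ * (0 : Fin d → ℤ) i < (n : ℤ) * L
    rw [Pi.zero_apply, mul_zero]
    positivity
  have h1 : x ∉ hs i σ ((n : ℤ) * L) := by
    intro h
    have h' : σ * x i < (n : ℤ) * L := h
    have h2 : (n : ℤ) * L ≤ (m : ℤ) * L := mul_le_mul_of_nonneg_right hnm (by linarith)
    linarith
  obtain ⟨r, hr, hr2⟩ := exit_le hU (D := sl i σ L n) (p' := p') h0 h1 (fun A q hq => hcon A q hq) hInv hxA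
  exact absurd hr2 (not_le.2 (hb r hr))

private theorem slabab_tendsto {θ : ℝ} (hθ0 : 0 < θ) (hθ : θ ≤ 1) (L β : ℕ) :
    Tendsto (fun m : ℕ => (1 - θ) ^ m * (1 + (L : ℝ) * (m + 1)) ^ β) atTop (nhds 0) := by
  have h1 : |1 - θ| < 1 := by
    rw [abs_of_nonneg (by linarith)]
    linarith
  have h2 := (tendsto_pow_const_mul_const_pow_of_abs_lt_one β h1).const_mul ((1 + 2 * (L : ℝ)) ^ β)
  rw [mul_zero] at h2
  have h0 : (0 : ℝ) ≤ 1 - θ := by linarith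
  refine squeeze_zero' ?_ ?_ h2
  · exact Eventually.of_forall fun m => by positivity
  · filter_upwards [eventually_ge_atTop 1] with m hm
    have hm' : (1 : ℝ) ≤ m := by exact_mod_cast hm
    have hL0 : (0 : ℝ) ≤ L := Nat.cast_nonneg L
    have h3 : 1 + (L : ℝ) * (m + 1) ≤ (1 + 2 * (L : ℝ)) * m := by nlinarith
    have h4 : (1 + (L : ℝ) * (m + 1)) ^ β ≤ ((1 + 2 * (L : ℝ)) * m) ^ β :=
      pow_le_pow_left₀ (by positivity) h3 β
    calc (1 - θ) ^ m * (1 + (L : ℝ) * (m + 1)) ^ β ≤ (1 - θ) ^ m * ((1 + 2 * (L : ℝ)) * m) ^ β :=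
          mul_le_mul_of_nonneg_left h4 (by positivity)
      _ = (1 + 2 * (L : ℝ)) ^ β * ((m : ℝ) ^ β * (1 - θ) ^ m) := by rw [mul_pow]; ring

private theorem slabab_norm {d : ℕ} (hd : 1 ≤ d) (x : Fin d → ℤ) :
    ∃ (i : Fin d) (σ : ℤ), (σ = 1 ∨ σ = -1) ∧ ‖x‖ = ((σ * x i : ℤ) : ℝ) := by
  have : Nonempty (Fin d) := ⟨⟨0, hd⟩⟩
  obtain ⟨i, hi⟩ := Finite.exists_max (fun j => ‖x j‖)
  have h1 : ‖x‖ = ‖x i‖ :=
    le_antisymm ((pi_norm_le_iff_of_nonneg (norm_nonneg _)).2 hi) (norm_le_pi_norm x i)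
  rcases le_total 0 (x i) with h | h
  · refine ⟨i, 1, Or.inl rfl, ?_⟩
    rw [h1, Int.norm_eq_abs, one_mul, abs_of_nonneg (by exact_mod_cast h)]
  · refine ⟨i, -1, Or.inr rfl, ?_⟩
    rw [h1, Int.norm_eq_abs, abs_of_nonpos (by exact_mod_cast h)]
    push_cast
    ring

/-- the event that an edge of weight larger than `p'` is used after `x` has been invaded is small compared with any
power of `1 + |x|` (here `‖x‖` is the sup norm of `x : Fin d → ℤ`) -/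
theorem slab_small {p' θ : ℝ} {L : ℕ} (hd : 1 ≤ d) (hL : 1 ≤ L) (hθ0 : 0 < θ) (hθ : θ ≤ 1)
    (hS : SlabP d p' L θ) (β : ℕ) :
    Tendsto (fun x : Fin d → ℤ => (nu (Fin d → ℤ)).real {U | ∃ t A, Inv (nbZ d) 0 U t A ∧ x ∈ A ∧
      ∀ r ∈ bd (nbZ d) A, p' < U s(r.1, r.2)} * (1 + ‖x‖) ^ β) cofinite (nhds 0) := by
  have hL0 : (0 : ℝ) < L := by exact_mod_cast hL
  have hcof : Tendsto (fun x : Fin d → ℤ => ‖x‖) cofinite atTop := by
    rw [← Filter.cocompact_eq_cofinite]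
    exact tendsto_norm_cocompact_atTop
  have hfl : Tendsto (fun x : Fin d → ℤ => ⌊‖x‖ / L⌋₊) cofinite atTop :=
    tendsto_nat_floor_atTop.comp (hcof.atTop_div_const hL0)
  have hlim := (slabab_tendsto hθ0 hθ L β).comp hfl
  refine squeeze_zero ?_ ?_ hlim
  · intro x
    exact mul_nonneg measureReal_nonneg (by positivity)
  · intro x
    obtain ⟨i, σ, hσ, hx⟩ := slabab_norm hd x
    set m : ℕ := ⌊‖x‖ / L⌋₊ with hm
    have h1 : (m : ℝ) ≤ ‖x‖ / L := Nat.floor_le (by positivity)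
    have h2 : ‖x‖ / L < m + 1 := Nat.lt_floor_add_one _
    rw [le_div_iff₀ hL0] at h1
    rw [div_lt_iff₀ hL0] at h2
    have h3 : (m : ℤ) * L ≤ σ * x i := by
      rw [hx] at h1
      exact_mod_cast h1
    have h4 := slab_event hL hθ hS i σ hσ m x h3
    have h5 : (1 + ‖x‖) ^ β ≤ (1 + (L : ℝ) * (m + 1)) ^ β :=
      pow_le_pow_left₀ (by positivity) (by linarith) β
    have h0 : (0 : ℝ) ≤ 1 - θ := by linarith
    exact mul_le_mul h4 h5 (by positivity) (by positivity)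

end IPC
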