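import Pool.Agent.Lib.MP_25e40f_pr.G.Edge
import Pool.Agent.Lib.MP_25e40f_pr.G.SlabA

/-!
# MP_25e40f_pr, stream G, file Two: two invaded vertices near each other are in the same piece (JOBS TwoA, TwoB, TwoC)

`N = nbZ d = (Zg d).nb`, `ν = nu (Fin d → ℤ)`, `f x = fI (Zg d) 0 x`, `bx x s` the box of radius `s` around `x`.

JOB TwoA: `ball_le` (from `fI_nbr`, by induction along a path of `≤ d * s` coordinate steps: change the coordinates one by one; the
constant is `(1 + 1/p) ^ (d * s)`; e.g. prove first: if `∑ i, |y i - x i| ≤ n` then `f y ≤ (1 + 1/p) ^ n * f x`), and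
`armz_tendsto`: the probability of `{∃ z ∉ bx x s, Con N univ p U (x + w) z}` does not depend on `x` (translation invariance:
`nu_map_inj` with `φ v = v + x`) and decreases, as `s → ∞`, to the probability that the cluster of `w` is infinite, which is `0`
(`hfin`): `tendsto_measure_iInter_atTop`; a cluster which meets the complement of all boxes `bx 0 s` is infinite.

JOB TwoB: `sep_first`: the event is `⋃ S, {FirstFull N 0 p U S x} ∩ {∃ z ∉ R, Con N Sᶜ p U y z}` (over the `S` with `y ∉ S`).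
The first event depends on `tch S` (`FirstFull.congr`), the second one on the edges with all endpoints in `Sᶜ`
(`Con.congr` as in `dep_allcon`), which are in `(tch S)ᶜ`; `nu_indep`; the second probability is at most that of
`{∃ z ∉ R, Con N univ p U y z}` (`Con.mono`); the sum over `S` of `ν {FirstFull .. S x}` is `≤ f x`: these events are a.e.
disjoint (`ff_unique`, `nu_inj`) and contained in `{x ∈ ipc}` (`FirstFull` contains `Inv N 0 U t S` and `x ∈ S`).

JOB TwoC: `sep_bound` and `sep_small`. `sep_bound`: for a.e. `U` (`nu_inj`, `hfin`) `sep_split` with `R = bx x s`: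
{Sep x y, y ∈ ipc} is contained in the event of `sep_first` or there are `S, q` with `Gate N 0 p U S q`, `x ∈ S`,
`q.2 ∈ bx x s`. In the second case `p < U q` (`Full`). If `U q > p'` then all the boundary edges of `S` are `> p'` (`Amin`): the event of
`slab_event` (`t`, `A = S`). Otherwise `U q ∈ (p, p']`, `q.1 ∈ S`, `q.2 ∉ S`: the event of `used_le` with `a = q.1`, `b = q.2`,
`q.2 ∈ bx x s`, `q.1 ∈ nbZ d q.2` (so `q.1 ∈ bx x (s + 1)`, `ball_le`). Sum over the finitely many pairs: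
`(2 s + 1) ^ d * (2 d)` of them.
`sep_small`: given `η > 0` choose first `s` with (`armz_tendsto`) the arm probability `≤ η / 3`, then `p' > p` with
`C(s) * (p' - p) ≤ η / 3`, `p' ≤ 1`, `slab` for `p'` gives `L, θ`, and `slab_small` with `hlow` gives
`ν(slab event) / f x → 0` (`hlow`: `1 / f x ≤ (1 + ‖x‖) ^ β / c`).
`sep_small'`: `sep_small` for `-z` at the point `x + z` (`(x + z) + (-z) = x`), composed with the injective map `x ↦ x + z`
(`Filter.Tendsto.comp`, `Function.Injective.tendsto_cofinite`), times the bounded ratio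
`f (x + z) / f x ≤ (1 + 1/p) ^ (d * R)` with `z ∈ bx 0 R` (`ball_le`; `f x > 0` by `hlow`).
-/

set_option autoImplicit false
set_option linter.unusedSectionVars false

noncomputable section

open MeasureTheory Filter
open scoped Classical

namespace IPC

variable {d : ℕ}

/-- box of radius `s` around `x` -/
def bx (x : Fin d → ℤ) (s : ℕ) : Finset (Fin d → ℤ) := Fintype.piFinset fun i => Finset.Icc (x i - s) (x i + s)

private theorem twoA_walk {p : ℝ} (hp : 0 < p) (hp1 : p ≤ 1)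
    (hfin : ∀ᵐ U ∂(nu (Fin d → ℤ)), Fin1 (nbZ d) p U) (x : Fin d → ℤ) :
    ∀ (n : ℕ) (y : Fin d → ℤ), ∑ i, (y i - x i).natAbs ≤ n →
      fI (Zg d) 0 y ≤ (1 + 1 / p) ^ n * fI (Zg d) 0 x := by
  have hb : 1 ≤ 1 + 1 / p := by
    have : 0 < 1 / p := by positivity
    linarith
  intro n
  induction n with
  | zero =>
    intro y hy
    have h0 : y = x := by
      funext i
      have h1 := (Finset.sum_eq_zero_iff.1 (Nat.le_zero.1 hy)) i (Finset.mem_univ i)
      omega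
    rw [h0, pow_zero, one_mul]
  | succ n ih =>
    intro y hy
    by_cases h0 : y = x
    · rw [h0]
      exact le_mul_of_one_le_left (fI_nonneg _ _ _) (one_le_pow₀ hb)
    · obtain ⟨i, hi⟩ := Function.ne_iff.1 h0
      obtain ⟨σ, hσ, hσ2⟩ : ∃ σ : ℤ, (σ = 1 ∨ σ = -1) ∧
          (y i - σ - x i).natAbs + 1 = (y i - x i).natAbs := by
        rcases lt_or_gt_of_ne hi with h1 | h1
        · exact ⟨-1, Or.inr rfl, by omega⟩
        · exact ⟨1, Or.inl rfl, by omega⟩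
      set y' : Fin d → ℤ := Function.update y i (y i - σ) with hy'
      have hyi : y' i = y i - σ := by
        rw [hy', Function.update_self]
      have hnb : y ∈ (Zg d).nb y' := by
        show y ∈ nbZ d y'
        rw [mem_nbZ]
        refine ⟨i, σ, hσ, ?_⟩
        rw [hyi, hy', Function.update_idem, sub_add_cancel, Function.update_eq_self]
      have h1 := fI_nbr (Zg d) 0 hp hp1 hfin hnb
      have hsum : ∑ j, (y' j - x j).natAbs ≤ n := by
        have e1 := Finset.add_sum_erase Finset.univ (fun j => (y j - x j).natAbs) (Finset.mem_univ i)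
        have e2 := Finset.add_sum_erase Finset.univ (fun j => (y' j - x j).natAbs) (Finset.mem_univ i)
        have e3 : ∑ j ∈ Finset.univ.erase i, (y' j - x j).natAbs =
            ∑ j ∈ Finset.univ.erase i, (y j - x j).natAbs := by
          refine Finset.sum_congr rfl fun j hj => ?_
          rw [hy', Function.update_of_ne (Finset.ne_of_mem_erase hj)]
        rw [e3, hyi] at e2
        omega
      have h2 := ih y' hsum
      calc fI (Zg d) 0 y ≤ (1 + 1 / p) * fI (Zg d) 0 y' := h1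
        _ ≤ (1 + 1 / p) * ((1 + 1 / p) ^ n * fI (Zg d) 0 x) :=
          mul_le_mul_of_nonneg_left h2 (by linarith)
        _ = (1 + 1 / p) ^ (n + 1) * fI (Zg d) 0 x := by ring

theorem ball_le {p : ℝ} (hp : 0 < p) (hp1 : p ≤ 1) (hfin : ∀ᵐ U ∂(nu (Fin d → ℤ)), Fin1 (nbZ d) p U)
    (s : ℕ) (x y : Fin d → ℤ) (hy : y ∈ bx x s) :
    fI (Zg d) 0 y ≤ (1 + 1 / p) ^ (d * s) * fI (Zg d) 0 x := by
  refine twoA_walk hp hp1 hfin x (d * s) y ?_
  unfold bx at hy
  rw [Fintype.mem_piFinset] at hy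
  have h1 : ∀ i ∈ (Finset.univ : Finset (Fin d)), (y i - x i).natAbs ≤ s := by
    intro i _
    have h2 := Finset.mem_Icc.1 (hy i)
    omega
  have h3 := Finset.sum_le_card_nsmul _ _ _ h1
  rwa [Finset.card_univ, Fintype.card_fin, smul_eq_mul] at h3

private theorem twoA_nb (x a b : Fin d → ℤ) : b + x ∈ nbZ d (a + x) ↔ b ∈ nbZ d a := by
  rw [mem_nbZ, mem_nbZ]
  constructor
  · rintro ⟨i, σ, hσ, h⟩
    refine ⟨i, σ, hσ, ?_⟩
    funext j
    have h1 := congrFun h j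
    by_cases hj : j = i
    · subst hj
      rw [Function.update_self] at h1 ⊢
      simp only [Pi.add_apply] at h1
      omega
    · rw [Function.update_of_ne hj] at h1 ⊢
      simp only [Pi.add_apply] at h1
      omega
  · rintro ⟨i, σ, hσ, h⟩
    refine ⟨i, σ, hσ, ?_⟩
    funext j
    have h1 := congrFun h j
    by_cases hj : j = i
    · subst hj
      rw [Function.update_self] at h1 ⊢
      simp only [Pi.add_apply]
      omega
    · rw [Function.update_of_ne hj] at h1 ⊢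
      simp only [Pi.add_apply]
      omega

private theorem twoA_con (x : Fin d → ℤ) (p : ℝ) (U : Sym2 (Fin d → ℤ) → ℝ) (a b : Fin d → ℤ) :
    Con (nbZ d) Set.univ p (fun e => U (Sym2.map (fun v => v + x) e)) a b ↔
      Con (nbZ d) Set.univ p U (a + x) (b + x) := by
  constructor
  · rintro ⟨-, h⟩
    refine ⟨Set.mem_univ _, ?_⟩
    induction h with
    | refl => exact Relation.ReflTransGen.refl
    | tail _ hbc ih =>
      exact ih.tail ⟨Set.mem_univ _, Set.mem_univ _, (twoA_nb x _ _).2 hbc.2.2.1, hbc.2.2.2⟩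
  · rintro ⟨-, h⟩
    refine ⟨Set.mem_univ _, ?_⟩
    have key : ∀ c : Fin d → ℤ, Relation.ReflTransGen
        (fun u v => u ∈ Set.univ ∧ v ∈ Set.univ ∧ v ∈ nbZ d u ∧ U s(u, v) ≤ p) (a + x) c →
        Relation.ReflTransGen (fun u v => u ∈ Set.univ ∧ v ∈ Set.univ ∧ v ∈ nbZ d u ∧
          (fun e => U (Sym2.map (fun v => v + x) e)) s(u, v) ≤ p) a (c - x) := by
      intro c hc
      induction hc with
      | refl =>
        rw [add_sub_cancel_right]
      | tail _ hbc ih =>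
        rename_i u v _
        refine ih.tail ⟨Set.mem_univ _, Set.mem_univ _, ?_, ?_⟩
        · rw [← twoA_nb x, sub_add_cancel, sub_add_cancel]
          exact hbc.2.2.1
        · show U (Sym2.map (fun v => v + x) s(u - x, v - x)) ≤ p
          rw [Sym2.map_mk]
          have h1 : ((u - x + x, v - x + x) : (Fin d → ℤ) × (Fin d → ℤ)) = (u, v) := by
            rw [sub_add_cancel, sub_add_cancel]
          have h2 : s(u - x + x, v - x + x) = s(u, v) := by
            rw [sub_add_cancel, sub_add_cancel]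
          have h3 : U s(u - x + x, v - x + x) ≤ p := by
            rw [h2]
            exact hbc.2.2.2
          exact h3
    have h2 := key _ h
    rwa [add_sub_cancel_right] at h2

private theorem twoA_meas (p : ℝ) (s : ℕ) (x w : Fin d → ℤ) :
    MeasurableSet {U : Sym2 (Fin d → ℤ) → ℝ | ∃ z, z ∉ bx x s ∧ Con (nbZ d) Set.univ p U w z} := by
  have h1 : {U : Sym2 (Fin d → ℤ) → ℝ | ∃ z, z ∉ bx x s ∧ Con (nbZ d) Set.univ p U w z} =
      ⋃ z : Fin d → ℤ, ⋃ _ : z ∉ bx x s, {U | Con (Zg d).nb Set.univ p U w z} := by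
    ext U
    simp only [Set.mem_ofPred_eq, Set.mem_iUnion, exists_prop]
    rfl
  rw [h1]
  exact MeasurableSet.iUnion fun z => MeasurableSet.iUnion fun _ => meas_con (Zg d) _ _ _ _

private theorem twoA_trans (p : ℝ) (s : ℕ) (x w : Fin d → ℤ) :
    nu (Fin d → ℤ) {U | ∃ z, z ∉ bx x s ∧ Con (nbZ d) Set.univ p U (x + w) z} =
      nu (Fin d → ℤ) {U | ∃ z, z ∉ bx 0 s ∧ Con (nbZ d) Set.univ p U w z} := by
  have h1 := nu_map_inj (V := Fin d → ℤ) (V' := Fin d → ℤ) (fun v => v + x) (add_left_injective x)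
  have hm : Measurable (fun (U : Sym2 (Fin d → ℤ) → ℝ) (e : Sym2 (Fin d → ℤ)) =>
      U (Sym2.map (fun v => v + x) e)) :=
    measurable_pi_iff.2 fun e => measurable_pi_apply _
  conv_rhs => rw [← h1]
  rw [Measure.map_apply hm (twoA_meas p s 0 w)]
  congr 1
  ext U
  simp only [Set.mem_ofPred_eq, Set.mem_preimage]
  constructor
  · rintro ⟨z, hz, hc⟩
    refine ⟨z - x, ?_, ?_⟩
    · intro h2
      apply hz
      unfold bx at h2 ⊢
      rw [Fintype.mem_piFinset] at h2 ⊢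
      intro i
      have h3 := Finset.mem_Icc.1 (h2 i)
      simp only [Pi.zero_apply, Pi.sub_apply] at h3
      rw [Finset.mem_Icc]
      omega
    · rw [twoA_con, sub_add_cancel, add_comm w x]
      exact hc
  · rintro ⟨z, hz, hc⟩
    refine ⟨z + x, ?_, ?_⟩
    · intro h2
      apply hz
      unfold bx at h2 ⊢
      rw [Fintype.mem_piFinset] at h2 ⊢
      intro i
      have h3 := Finset.mem_Icc.1 (h2 i)
      simp only [Pi.add_apply] at h3
      rw [Finset.mem_Icc]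
      simp only [Pi.zero_apply]
      omega
    · rw [twoA_con] at hc
      rw [add_comm x w]
      exact hc

theorem armz_tendsto {p : ℝ} (hfin : ∀ᵐ U ∂(nu (Fin d → ℤ)), Fin1 (nbZ d) p U) (w : Fin d → ℤ)
    {η : ℝ} (hη : 0 < η) : ∃ s : ℕ, ∀ x : Fin d → ℤ,
      (nu (Fin d → ℤ)).real {U | ∃ z, z ∉ bx x s ∧ Con (nbZ d) Set.univ p U (x + w) z} ≤ η := by
  set E : ℕ → Set (Sym2 (Fin d → ℤ) → ℝ) := fun s =>
    {U | ∃ z, z ∉ bx 0 s ∧ Con (nbZ d) Set.univ p U w z} with hE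
  have hmono : Antitone E := by
    intro s s' hs U hU
    obtain ⟨z, hz, hc⟩ := hU
    refine ⟨z, fun h2 => hz ?_, hc⟩
    unfold bx at h2 ⊢
    rw [Fintype.mem_piFinset] at h2 ⊢
    intro i
    have h3 := Finset.mem_Icc.1 (h2 i)
    rw [Finset.mem_Icc]
    omega
  have hlim := tendsto_measure_iInter_atTop (μ := nu (Fin d → ℤ)) (s := E)
    (fun s => (twoA_meas p s 0 w).nullMeasurableSet) hmono ⟨0, measure_ne_top _ _⟩
  have h0 : nu (Fin d → ℤ) (⋂ s, E s) = 0 := by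
    have h1 : nu (Fin d → ℤ) {U | ¬ Fin1 (nbZ d) p U} = 0 := hfin
    refine measure_mono_null (fun U hU => ?_) h1
    intro hF
    have hfinite := hF w
    set C := hfinite.toFinset with hC
    set r := C.sup fun z : Fin d → ℤ => ∑ i, (z i).natAbs with hr
    obtain ⟨z, hz, hc⟩ := Set.mem_iInter.1 hU r
    apply hz
    have hzC : z ∈ C := by
      rw [hC, Set.Finite.mem_toFinset]
      exact hc
    have h2 : ∑ i, (z i).natAbs ≤ r :=
      Finset.le_sup (f := fun z : Fin d → ℤ => ∑ i, (z i).natAbs) hzC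
    unfold bx
    rw [Fintype.mem_piFinset]
    intro i
    have h3 : (z i).natAbs ≤ ∑ i, (z i).natAbs :=
      Finset.single_le_sum (f := fun i => (z i).natAbs) (fun _ _ => Nat.zero_le _) (Finset.mem_univ i)
    rw [Finset.mem_Icc]
    simp only [Pi.zero_apply]
    omega
  rw [h0] at hlim
  have hη' : (0 : ENNReal) < ENNReal.ofReal η := ENNReal.ofReal_pos.2 hη
  obtain ⟨s, hs⟩ := (hlim.eventually (gt_mem_nhds hη')).exists
  refine ⟨s, fun x => ?_⟩
  rw [measureReal_def, twoA_trans]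
  exact ENNReal.toReal_le_of_le_ofReal hη.le hs.le

theorem sep_first (G : PG (Fin d → ℤ)) {p : ℝ} (o x y : Fin d → ℤ) (R : Set (Fin d → ℤ)) :
    (nu (Fin d → ℤ)).real {U | ∃ S, FirstFull G.nb o p U S x ∧ y ∉ S ∧ ∃ z, z ∉ R ∧
      Con G.nb (S : Set (Fin d → ℤ))ᶜ p U y z} ≤
      fI G o x * (nu (Fin d → ℤ)).real {U | ∃ z, z ∉ R ∧ Con G.nb Set.univ p U y z} := by
  set μ := nu (Fin d → ℤ) with hμ
  set F : Finset (Fin d → ℤ) → Set (Sym2 (Fin d → ℤ) → ℝ) := fun S =>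
    {U | FirstFull G.nb o p U S x} with hF
  set C : Finset (Fin d → ℤ) → Set (Sym2 (Fin d → ℤ) → ℝ) := fun S =>
    {U | ∃ z, z ∉ R ∧ Con G.nb (S : Set (Fin d → ℤ))ᶜ p U y z} with hC
  set K : Set (Sym2 (Fin d → ℤ) → ℝ) := {U | ∃ z, z ∉ R ∧ Con G.nb Set.univ p U y z} with hK
  have hFm : ∀ S, MeasurableSet (F S) := fun S => meas_ff G.nb o p S x
  have hCm : ∀ S, MeasurableSet (C S) := by
    intro S
    have h1 : C S = ⋃ z : Fin d → ℤ, ⋃ _ : z ∉ R,
        {U | Con G.nb (S : Set (Fin d → ℤ))ᶜ p U y z} := by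
      ext U
      simp only [hC, Set.mem_ofPred_eq, Set.mem_iUnion, exists_prop]
    rw [h1]
    exact MeasurableSet.iUnion fun z => MeasurableSet.iUnion fun _ => meas_con G _ _ _ _
  have hsub : {U | ∃ S, FirstFull G.nb o p U S x ∧ y ∉ S ∧ ∃ z, z ∉ R ∧
      Con G.nb (S : Set (Fin d → ℤ))ᶜ p U y z} ⊆ ⋃ S, F S ∩ C S := by
    rintro U ⟨S, h1, -, h2⟩
    exact Set.mem_iUnion.2 ⟨S, h1, h2⟩
  have hind : ∀ S, μ (F S ∩ C S) ≤ μ (F S) * μ K := by
    intro S
    have dF : Dep (tch (S : Set (Fin d → ℤ))) (F S) := fun U U' hU h => FirstFull.congr h hU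
    have dC : Dep (tch (S : Set (Fin d → ℤ)))ᶜ (C S) := by
      rintro U U' hU ⟨z, hz, hc⟩
      refine ⟨z, hz, hc.congr fun a ha b hb => hU _ ?_⟩
      rintro ⟨v, hv, hve⟩
      rw [Sym2.mem_iff] at hve
      rcases hve with rfl | rfl
      · exact ha hv
      · exact hb hv
    rw [hμ, nu_indep (hFm S) (hCm S) dF dC]
    refine mul_le_mul_right (measure_mono ?_) _
    rintro U ⟨z, hz, hc⟩
    exact ⟨z, hz, hc.mono (Set.subset_univ _) le_rfl⟩
  have hdis : Pairwise (Function.onFun (AEDisjoint μ) F) := by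
    intro S S' hSS
    have h1 : μ {U | ¬ Function.Injective U} = 0 := nu_inj
    refine measure_mono_null (fun U hU => ?_) h1
    intro hinj
    exact hSS (ff_unique hinj hU.1 hU.2)
  have hsum : ∑' S, μ (F S) ≤ μ {U | x ∈ ipc G.nb o U} := by
    rw [← measure_iUnion₀ hdis fun S => (hFm S).nullMeasurableSet]
    refine measure_mono ?_
    intro U hU
    obtain ⟨S, hS⟩ := Set.mem_iUnion.1 hU
    obtain ⟨⟨t, ht⟩, -, hx, -⟩ := hS
    exact ⟨t, S, ht, hx⟩
  have hle : μ {U | ∃ S, FirstFull G.nb o p U S x ∧ y ∉ S ∧ ∃ z, z ∉ R ∧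
      Con G.nb (S : Set (Fin d → ℤ))ᶜ p U y z} ≤ μ {U | x ∈ ipc G.nb o U} * μ K := by
    calc _ ≤ μ (⋃ S, F S ∩ C S) := measure_mono hsub
      _ ≤ ∑' S, μ (F S ∩ C S) := measure_iUnion_le _
      _ ≤ ∑' S, μ (F S) * μ K := ENNReal.tsum_le_tsum hind
      _ = (∑' S, μ (F S)) * μ K := ENNReal.tsum_mul_right
      _ ≤ _ := mul_le_mul_left hsum _
  unfold fI
  rw [measureReal_def, measureReal_def, measureReal_def, ← ENNReal.toReal_mul]
  exact ENNReal.toReal_mono (ENNReal.mul_ne_top (measure_ne_top _ _) (measure_ne_top _ _)) hle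

private theorem twoCa_card_bx (x : Fin d → ℤ) (s : ℕ) : (bx x s).card = (2 * s + 1) ^ d := by
  unfold bx
  rw [Fintype.card_piFinset]
  have h : ∀ i : Fin d, (Finset.Icc (x i - s) (x i + s)).card = 2 * s + 1 := by
    intro i
    rw [Int.card_Icc]
    omega
  rw [Finset.prod_congr rfl fun i _ => h i, Finset.prod_const, Finset.card_univ, Fintype.card_fin]

private theorem twoCa_card_nb (x : Fin d → ℤ) : (nbZ d x).card ≤ 2 * d := by
  unfold nbZ
  refine Finset.card_image_le.trans (le_of_eq ?_)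
  rw [Finset.card_univ, Fintype.card_prod, Fintype.card_fin, Fintype.card_bool]
  ring

private theorem twoCa_nb_bx {x a b : Fin d → ℤ} {s : ℕ} (hb : b ∈ bx x s) (ha : a ∈ nbZ d b) :
    a ∈ bx x (s + 1) := by
  unfold bx at hb ⊢
  rw [Fintype.mem_piFinset] at hb ⊢
  obtain ⟨i, t, ht, rfl⟩ := (mem_nbZ d b a).1 ha
  intro j
  have h1 := Finset.mem_Icc.1 (hb j)
  rw [Finset.mem_Icc]
  push_cast
  by_cases hj : j = i
  · subst hj
    rw [Function.update_self]
    rcases ht with rfl | rfl <;> constructor <;> linarith [h1.1, h1.2]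
  · rw [Function.update_of_ne hj]
    constructor <;> linarith [h1.1, h1.2]

/-- the event that the edge from `a` to `b` has weight in `(p, p']` and is on the boundary with `a` inside -/
private def twoCaE (p p' : ℝ) (q : (Fin d → ℤ) × (Fin d → ℤ)) : Set (Sym2 (Fin d → ℤ) → ℝ) :=
  {U | (∃ t A, Inv (nbZ d) 0 U t A ∧ q.1 ∈ A ∧ q.2 ∉ A) ∧ p < U s(q.1, q.2) ∧ U s(q.1, q.2) ≤ p'}

/-- the pairs of an edge with the endpoint `b` in the box -/
private def twoCaP (x : Fin d → ℤ) (s : ℕ) : Finset ((Fin d → ℤ) × (Fin d → ℤ)) :=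
  (bx x s).biUnion fun b => (nbZ d b).image fun a => (a, b)

private theorem twoCa_cardP (x : Fin d → ℤ) (s : ℕ) : (twoCaP x s).card ≤ (2 * s + 1) ^ d * (2 * d) := by
  unfold twoCaP
  refine Finset.card_biUnion_le.trans ?_
  refine (Finset.sum_le_sum fun b _ => Finset.card_image_le.trans (twoCa_card_nb b)).trans ?_
  rw [Finset.sum_const, twoCa_card_bx, smul_eq_mul]

private theorem twoCa_mid {p p' : ℝ} (hp : 0 < p) (hpp : p ≤ p') (hp1 : p' ≤ 1)
    (hfin : ∀ᵐ U ∂(nu (Fin d → ℤ)), Fin1 (nbZ d) p U) (s : ℕ) (x : Fin d → ℤ) :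
    (nu (Fin d → ℤ)).real (⋃ q ∈ twoCaP x s, twoCaE p p' q) ≤
      (2 * s + 1) ^ d * (2 * d) * ((p' - p) * ((1 + 1 / p) ^ (d * (s + 1)) * fI (Zg d) 0 x)) := by
  have h0 : 0 ≤ (p' - p) * ((1 + 1 / p) ^ (d * (s + 1)) * fI (Zg d) 0 x) := by
    have h1 := fI_nonneg (Zg d) 0 x
    have h2 : 0 ≤ p' - p := by linarith
    positivity
  refine (measureReal_biUnion_finset_le _ _).trans ?_
  have h1 : ∀ q ∈ twoCaP x s, (nu (Fin d → ℤ)).real (twoCaE p p' q) ≤
      (p' - p) * ((1 + 1 / p) ^ (d * (s + 1)) * fI (Zg d) 0 x) := by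
    intro q hq
    obtain ⟨b, hb, hq2⟩ := Finset.mem_biUnion.1 hq
    obtain ⟨a, ha, rfl⟩ := Finset.mem_image.1 hq2
    have h2 := used_le (Zg d) 0 hp.le hpp hp1 a b
    have h3 := ball_le hp (hpp.trans hp1) hfin (s + 1) x a (twoCa_nb_bx hb ha)
    refine (show (nu (Fin d → ℤ)).real (twoCaE p p' (a, b)) ≤ (p' - p) * fI (Zg d) 0 a from h2).trans ?_
    exact mul_le_mul_of_nonneg_left h3 (by linarith)
  refine (Finset.sum_le_sum h1).trans ?_
  rw [Finset.sum_const, nsmul_eq_mul]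
  refine mul_le_mul_of_nonneg_right ?_ h0
  exact_mod_cast twoCa_cardP x s

private theorem twoCa_split {p p' : ℝ} {U : Sym2 (Fin d → ℤ) → ℝ} (hU : Function.Injective U)
    (hfin : Fin1 (nbZ d) p U) (s : ℕ) (x y : Fin d → ℤ)
    (h : Sep (nbZ d) 0 p U x y ∧ y ∈ ipc (nbZ d) 0 U) :
    ((∃ S, FirstFull (nbZ d) 0 p U S x ∧ y ∉ S ∧ ∃ z, z ∉ bx x s ∧
      Con (nbZ d) (S : Set (Fin d → ℤ))ᶜ p U y z) ∨
      ∃ q ∈ twoCaP x s, U ∈ twoCaE p p' q) ∨
      ∃ t A, Inv (nbZ d) 0 U t A ∧ x ∈ A ∧ ∀ r ∈ bd (nbZ d) A, p' < U s(r.1, r.2) := by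
  have hN : Sy (nbZ d) := fun a b hab => nbZ_symm d a b hab
  rcases sep_split hU hN hfin h.1 h.2 {z | z ∈ bx x s} with h1 | ⟨S, q, hG, hxS, hqR⟩
  · left
    left
    exact h1
  · obtain ⟨⟨t, ht⟩, hF, hA⟩ := hG
    by_cases hq : p' < U s(q.1, q.2)
    · right
      exact ⟨t, S, ht, hxS, fun r hr => lt_of_lt_of_le hq (hA.2 r hr)⟩
    · left
      right
      obtain ⟨g1, g2, g3⟩ := mem_bd.1 hA.1
      refine ⟨q, ?_, ⟨t, S, ht, g1, g3⟩, hF q hA.1, not_lt.1 hq⟩
      refine Finset.mem_biUnion.2 ⟨q.2, hqR, Finset.mem_image.2 ⟨q.1, nbZ_symm d _ _ g2, rfl⟩⟩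

theorem sep_bound {p p' : ℝ} (hp : 0 < p) (hpp : p ≤ p') (hp1 : p' ≤ 1)
    (hfin : ∀ᵐ U ∂(nu (Fin d → ℤ)), Fin1 (nbZ d) p U) (s : ℕ) (x y : Fin d → ℤ) :
    (nu (Fin d → ℤ)).real {U | Sep (nbZ d) 0 p U x y ∧ y ∈ ipc (nbZ d) 0 U} ≤
      fI (Zg d) 0 x * (nu (Fin d → ℤ)).real {U | ∃ z, z ∉ bx x s ∧ Con (nbZ d) Set.univ p U y z} +
      (2 * s + 1) ^ d * (2 * d) * ((p' - p) * ((1 + 1 / p) ^ (d * (s + 1)) * fI (Zg d) 0 x)) +
      (nu (Fin d → ℤ)).real {U | ∃ t A, Inv (nbZ d) 0 U t A ∧ x ∈ A ∧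
        ∀ r ∈ bd (nbZ d) A, p' < U s(r.1, r.2)} := by
  have h1 : (nu (Fin d → ℤ)).real {U | ∃ S, FirstFull (nbZ d) 0 p U S x ∧ y ∉ S ∧ ∃ z, z ∉ bx x s ∧
      Con (nbZ d) (S : Set (Fin d → ℤ))ᶜ p U y z} ≤
      fI (Zg d) 0 x * (nu (Fin d → ℤ)).real {U | ∃ z, z ∉ bx x s ∧ Con (nbZ d) Set.univ p U y z} :=
    sep_first (Zg d) 0 x y {z | z ∈ bx x s}
  have h2 := twoCa_mid hp hpp hp1 hfin s x
  refine le_trans ?_ (add_le_add (add_le_add h1 h2) le_rfl)
  refine le_trans ?_ (add_le_add (measureReal_union_le _ _) le_rfl)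
  refine le_trans ?_ (measureReal_union_le _ _)
  refine ENNReal.toReal_mono (measure_ne_top _ _) (measure_mono_ae ?_)
  filter_upwards [nu_inj (V := Fin d → ℤ), hfin] with U hU hf hE
  rcases twoCa_split (p' := p') hU hf s x y hE with (h | ⟨q, hq, hq2⟩) | h
  · exact Or.inl (Or.inl h)
  · exact Or.inl (Or.inr (Set.mem_iUnion₂.2 ⟨q, hq, hq2⟩))
  · exact Or.inr h

private theorem twocb_pos {c : ℝ} (hc : 0 < c) {β : ℕ} {x : Fin d → ℤ}
    (h : c ≤ fI (Zg d) 0 x * (1 + ‖x‖) ^ β) : 0 < fI (Zg d) 0 x := by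
  have h0 := norm_nonneg x
  have h1 : 0 < (1 + ‖x‖) ^ β := pow_pos (by linarith) _
  by_contra h2
  have h3 : fI (Zg d) 0 x * (1 + ‖x‖) ^ β ≤ 0 :=
    mul_nonpos_of_nonpos_of_nonneg (not_lt.1 h2) h1.le
  linarith

private theorem twocb_choose {p K η : ℝ} (hp1 : p < 1) (hK : 0 ≤ K) (hη : 0 < η) :
    ∃ p', p < p' ∧ p' ≤ 1 ∧ K * (p' - p) ≤ η := by
  have hpos : 0 < η / (K + 1) := div_pos hη (by linarith)
  refine ⟨p + min (1 - p) (η / (K + 1)), ?_, ?_, ?_⟩
  · have h1 : 0 < min (1 - p) (η / (K + 1)) := lt_min (by linarith) hpos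
    linarith
  · have h1 := min_le_left (1 - p) (η / (K + 1))
    linarith
  · have h1 := min_le_right (1 - p) (η / (K + 1))
    have h2 : K * (p + min (1 - p) (η / (K + 1)) - p) ≤ K * (η / (K + 1)) :=
      mul_le_mul_of_nonneg_left (by linarith) hK
    have h3 : K * (η / (K + 1)) ≤ η := by
      rw [← mul_div_assoc, div_le_iff₀ (by linarith)]
      nlinarith
    linarith

private theorem twocb_bx (x z : Fin d → ℤ) : x + z ∈ bx x (∑ i, (z i).natAbs) := by
  unfold bx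
  rw [Fintype.mem_piFinset]
  intro i
  have h1 : (z i).natAbs ≤ ∑ j, (z j).natAbs :=
    Finset.single_le_sum (f := fun j => (z j).natAbs) (fun _ _ => Nat.zero_le _)
      (Finset.mem_univ i)
  rw [Finset.mem_Icc, Pi.add_apply]
  omega

theorem sep_small {p : ℝ} (hd : 1 ≤ d) (hp : 0 < p) (hp1 : p < 1)
    (hfin : ∀ᵐ U ∂(nu (Fin d → ℤ)), Fin1 (nbZ d) p U)
    (hslab : ∀ p', p < p' → p' ≤ 1 → ∃ (L : ℕ) (θ : ℝ), 1 ≤ L ∧ 0 < θ ∧ θ ≤ 1 ∧ SlabP d p' L θ)
    {c : ℝ} (hc : 0 < c) (β : ℕ) (hlow : ∀ x : Fin d → ℤ, c ≤ fI (Zg d) 0 x * (1 + ‖x‖) ^ β)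
    (z : Fin d → ℤ) :
    Tendsto (fun x : Fin d → ℤ => (nu (Fin d → ℤ)).real
      {U | Sep (nbZ d) 0 p U x (x + z) ∧ x + z ∈ ipc (nbZ d) 0 U} / fI (Zg d) 0 x) cofinite (nhds 0) := by
  rw [Metric.tendsto_nhds]
  intro ε hε
  obtain ⟨s, hs⟩ := armz_tendsto hfin z (η := ε / 4) (by linarith)
  have hK0 : 0 ≤ (2 * (s : ℝ) + 1) ^ d * (2 * (d : ℝ)) * (1 + 1 / p) ^ (d * (s + 1)) := by
    positivity
  obtain ⟨p', hp1', hp2', hp3'⟩ := twocb_choose hp1 hK0 (η := ε / 4) (by linarith)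
  obtain ⟨L, θ, hL, hθ0, hθ1, hS⟩ := hslab p' hp1' hp2'
  have hT := slab_small hd hL hθ0 hθ1 hS β
  have hT2 := (Metric.tendsto_nhds.1 hT) (c * (ε / 4)) (by positivity)
  filter_upwards [hT2] with x hx
  have hf : 0 < fI (Zg d) 0 x := twocb_pos hc (hlow x)
  have hB := sep_bound hp hp1'.le hp2' hfin s x (x + z)
  have hA := hs x
  have hl := hlow x
  have hn := norm_nonneg x
  have hn1 : 0 < (1 + ‖x‖) ^ β := pow_pos (by linarith) _
  rw [Real.dist_eq, sub_zero, abs_of_nonneg (div_nonneg measureReal_nonneg hf.le),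
    div_lt_iff₀ hf]
  rw [Real.dist_eq, sub_zero, abs_of_nonneg (mul_nonneg measureReal_nonneg hn1.le)] at hx
  generalize (nu (Fin d → ℤ)).real {U | ∃ t A, Inv (nbZ d) 0 U t A ∧ x ∈ A ∧
        ∀ r ∈ bd (nbZ d) A, p' < U s(r.1, r.2)} = g at hx hB
  generalize (nu (Fin d → ℤ)).real
      {U | Sep (nbZ d) 0 p U x (x + z) ∧ x + z ∈ ipc (nbZ d) 0 U} = e at hB ⊢
  generalize (nu (Fin d → ℤ)).real {U | ∃ z_1, z_1 ∉ bx x s ∧
    Con (nbZ d) Set.univ p U (x + z) z_1} = a at hA hB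
  generalize fI (Zg d) 0 x = f at hf hB hl ⊢
  generalize (1 + ‖x‖) ^ β = w at hl hn1 hx
  have hg : g < f * (ε / 4) := by
    by_contra hcon
    have h1 : f * (ε / 4) * w ≤ g * w := mul_le_mul_of_nonneg_right (not_lt.1 hcon) hn1.le
    have h2 : c * (ε / 4) ≤ f * w * (ε / 4) := mul_le_mul_of_nonneg_right hl (by linarith)
    have h3 : f * w * (ε / 4) = f * (ε / 4) * w := by ring
    linarith
  have h4 : f * a ≤ f * (ε / 4) := mul_le_mul_of_nonneg_left hA hf.le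
  have h5 : (2 * (s : ℝ) + 1) ^ d * (2 * (d : ℝ)) *
      ((p' - p) * ((1 + 1 / p) ^ (d * (s + 1)) * f)) =
      ((2 * (s : ℝ) + 1) ^ d * (2 * (d : ℝ)) * (1 + 1 / p) ^ (d * (s + 1)) * (p' - p)) * f := by
    ring
  have h6 : ((2 * (s : ℝ) + 1) ^ d * (2 * (d : ℝ)) * (1 + 1 / p) ^ (d * (s + 1)) * (p' - p)) * f ≤
      (ε / 4) * f := mul_le_mul_of_nonneg_right hp3' hf.le
  have h7 : 0 < f * ε := mul_pos hf hε
  nlinarith

/-- the same with the roles of the two vertices exchanged -/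
theorem sep_small' {p : ℝ} (hd : 1 ≤ d) (hp : 0 < p) (hp1 : p < 1)
    (hfin : ∀ᵐ U ∂(nu (Fin d → ℤ)), Fin1 (nbZ d) p U)
    (hslab : ∀ p', p < p' → p' ≤ 1 → ∃ (L : ℕ) (θ : ℝ), 1 ≤ L ∧ 0 < θ ∧ θ ≤ 1 ∧ SlabP d p' L θ)
    {c : ℝ} (hc : 0 < c) (β : ℕ) (hlow : ∀ x : Fin d → ℤ, c ≤ fI (Zg d) 0 x * (1 + ‖x‖) ^ β)
    (z : Fin d → ℤ) :
    Tendsto (fun x : Fin d → ℤ => (nu (Fin d → ℤ)).real
      {U | Sep (nbZ d) 0 p U (x + z) x ∧ x ∈ ipc (nbZ d) 0 U} / fI (Zg d) 0 x) cofinite (nhds 0) := by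
  have h1 := sep_small hd hp hp1 hfin hslab hc β hlow (-z)
  have hinj : Function.Injective (fun x : Fin d → ℤ => x + z) := fun a b h => add_right_cancel h
  have h2 := h1.comp hinj.tendsto_cofinite
  have h3 := h2.mul_const ((1 + 1 / p) ^ (d * ∑ i, (z i).natAbs))
  rw [zero_mul] at h3
  refine squeeze_zero (fun x => div_nonneg measureReal_nonneg (fI_nonneg _ _ _)) (fun x => ?_) h3
  have hf : 0 < fI (Zg d) 0 x := twocb_pos hc (hlow x)
  have hf' : 0 < fI (Zg d) 0 (x + z) := twocb_pos hc (hlow (x + z))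
  have hb := ball_le hp hp1.le hfin (∑ i, (z i).natAbs) x (x + z) (twocb_bx x z)
  simp only [Function.comp_apply, add_neg_cancel_right]
  have he : 0 ≤ (nu (Fin d → ℤ)).real
      {U | Sep (nbZ d) 0 p U (x + z) x ∧ x ∈ ipc (nbZ d) 0 U} := measureReal_nonneg
  rw [div_mul_eq_mul_div, div_le_div_iff₀ hf hf', mul_assoc]
  exact mul_le_mul_of_nonneg_left hb he

end IPC
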